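import Pool.Agent.NST.Calc

/-!
# NST/Extr: extraction of a point

Induction on `l` (for all `X`, `Y`, `G`). `l = 0`: `G' = G`. Step: by the induction hypothesis for
`BB X ..`, `BB Y ..` there is `G1` with `b (X.slice G1) n T k q < s` and not
`b (Y.slice G1) n T k q < s` (`k, q, s` the parameters of level `l`). So
`gs (Y.slice G1) n T k q` is not contained in `gs (X.slice G1) n T k q` (`dens_mono`): there are `x`
and a reservoir `R`, `q ≤ dens R`, good for `Y.slice G1` and not good for `X.slice G1` (it would put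
`x` into the other set). Not good: there is `H` with `cut n (H i) = x i` (`i < k`),
`cut n (H i) ∈ R` (`i ≥ k`) and `X.bad n T (update G1 l H)`; by goodness not
`Y.bad n T (update G1 l H)`. Take `G' = update G1 l H`.
-/

set_option autoImplicit false

namespace Pool.Agent.NST

open Finset Pool.Agent.PTree Pool.Agent.OSM
open scoped Classical

theorem extr {l : ℕ} {X Y : MF l} {n : ℕ} {T : StrSet} {G : Pt} {π : ℕ → Par}
    (hX : (Met l π X).bad n T G) (hY : ¬ (Met l π Y).bad n T G) :
    ∃ G' : Pt, X.bad n T G' ∧ ¬ Y.bad n T G' := by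
  induction l with
  | zero => exact ⟨G, hX, hY⟩
  | succ l ih =>
    obtain ⟨G1, h1, h2⟩ := ih (X := BB X (π l).k (π l).q (π l).s)
      (Y := BB Y (π l).k (π l).q (π l).s) hX hY
    change b (X.slice G1) n T (π l).k (π l).q < (π l).s at h1
    change ¬ b (Y.slice G1) n T (π l).k (π l).q < (π l).s at h2
    have h3 : ¬ gs (Y.slice G1) n T (π l).k (π l).q ⊆ gs (X.slice G1) n T (π l).k (π l).q :=
      fun h => h2 (lt_of_le_of_lt (dens_mono h) h1)
    obtain ⟨x, hxY, hxX⟩ := Finset.not_subset.1 h3
    rw [mem_gs] at hxY hxX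
    obtain ⟨R, hR, hg⟩ := hxY
    have h4 : ¬ Good (X.slice G1) n T x R := fun h => hxX ⟨R, hR, h⟩
    unfold Good at h4
    push Not at h4
    obtain ⟨H, hH1, hH2, hb⟩ := h4
    exact ⟨Function.update G1 l H, hb, hg H hH1 hH2⟩

end Pool.Agent.NST
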