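import Pool.Agent.NST.Conj
import Pool.Agent.NST.Extr

/-!
# NST/Meet: an unblockable event can be met

Suppose the conclusion fails. Let `π` witness `Viable l F (Nb T0 m0 c0)`. By `Unb.exists` (with
`halfP π`) there are `T1 ∈ Nb T0 m0 c0`, `n ≥ m0` with `(Met l (halfP π) (F.or O)).bad n T1 _`. Let
`s` be the finite set of the `r : Fin l → Fin n → Fin n → Bool` with `O.bad n T1 (rep l n r)`. For
`r ∈ s` the event `X r = F.or (pin l n (rep l n r))` is unblockable on `Nb T1 n c0`: if it is viable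
on `Nb T2 m2 c2 ⊆ Nb T1 n c0` (`T2` a tree, `c2 < M T2`) then `T2 ∈ Nb T1 n c0`, so `c0 < M T2`,
`Agree n T1 T2`, `O.bad n T2 (rep l n r)` (`O.loc`), and `Nb T2 (max n m2) (max c0 c2)` would satisfy
the conclusion. By `unb_all` and `Unb.exists` (with `plusP n π`) there are `T2 ∈ Nb T1 n c0`,
`n' ≥ n` with `(Met l (plusP n π) (allF s X)).bad n' T2 _`. `comp_met` (`Met_loc` for the first) gives
`(Met l π (cap n (F.or O) (allF s X))).bad n' T2 _`. This event is not `F`, but its members over the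
tree `T2` are in `F`: use `extr` with `Y = F`: as `¬ (Met l π F).bad n' T2 _` there is `G` in the
cap, at level `n'`, not `F`-bad at `n'`. So not `F`-bad at `n` (`mono_le`), hence `O.bad n T2 G`; let
`r` with `Ag l n G (rep l n r)` (`exists_rep`), then `O.bad n T1 (rep l n r)` (`loc`, `Agree n T1 T2`
symmetric), `r ∈ s`, so `(X r).bad n' T2 G`: `F.bad n' T2 G` is excluded and `pin` says
`¬ Ag l n (rep l n r) G`, contradiction.
-/

set_option autoImplicit false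

namespace Pool.Agent.NST

open Finset Pool.Agent.PTree Pool.Agent.OSM
open scoped Classical

theorem realize {l : ℕ} {F O : MF l} {T0 : StrSet} {m0 : ℕ} {c0 : ℝ}
    (hT : IsTree T0) (hc : c0 < M T0) (hv : Viable l F (Nb T0 m0 c0))
    (hu : Unb l (F.or O) (Nb T0 m0 c0)) :
    ∃ (T1 : StrSet) (m1 : ℕ) (c1 : ℝ), T1 ∈ Nb T0 m0 c0 ∧ m0 ≤ m1 ∧ c0 ≤ c1 ∧ c1 < M T1 ∧
      ∃ (γ : Pt) (n : ℕ), n ≤ m1 ∧ O.bad n T1 γ ∧
        Viable l (F.or (pin l n γ)) (Nb T1 m1 c1) := by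
  by_contra hcon
  obtain ⟨π, hπ⟩ := hv
  obtain ⟨T1, hT1, n, hn, hbad1⟩ := hu.exists hT hc (Set.Subset.refl _) (halfP π) m0
  have hX : ∀ r ∈ Finset.univ.filter (fun r : Fin l → Fin n → Fin n → Bool =>
      O.bad n T1 (rep l n r)), Unb l (F.or (pin l n (rep l n r))) (Nb T1 n c0) := by
    intro r hr T2 m2 c2 hT2 hc2 hsub hvi
    have h2 : T2 ∈ Nb T2 m2 c2 := Nb.self hT2 m2 hc2
    have h2' : T2 ∈ Nb T1 n c0 := hsub h2
    refine hcon ⟨T2, max n m2, max c0 c2, Nb.subset hT1 hn le_rfl h2',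
      hn.trans (le_max_left _ _), le_max_left _ _, max_lt h2'.2.2.2 hc2, rep l n r, n,
      le_max_left _ _, O.loc h2'.2.2.1 (Ag.refl _ _ _) (Finset.mem_filter.1 hr).2, ?_⟩
    exact hvi.mono (MF.Le.refl _) (Nb.subset h2 (le_max_right _ _) (le_max_right _ _))
  obtain ⟨T2, hT2, n', hn', hbad2⟩ := (unb_all _ _ hX).exists hT1.1 hT1.2.2.2
    (Set.Subset.refl _) (plusP n π) n
  have h1 := Met_loc hT2.2.2.1 (hbad1 (fun _ _ _ => false)) (fun _ _ _ => false)
  have h3 := comp_met hn' π h1 (hbad2 (fun _ _ _ => false))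
  have hF := hπ T2 (Nb.subset hT1 hn le_rfl hT2) n' (fun _ _ _ => false)
  obtain ⟨G, ⟨_, hFO, hall⟩, hG2⟩ := extr h3 hF
  rcases hFO with hF1 | hO1
  · exact hG2 (F.mono_le hn' hF1)
  · obtain ⟨r, hr⟩ := exists_rep l n G
    have hO2 : O.bad n T1 (rep l n r) := O.loc hT2.2.2.1.symm hr hO1
    rcases hall r (Finset.mem_filter.2 ⟨Finset.mem_univ _, hO2⟩) with h | ⟨_, h⟩
    · exact hG2 h
    · exact h hr.symm

end Pool.Agent.NST
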