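import Pool.Agent.NST.Defs

/-!
# NST/Avg: averages of finitely many mixtures

* `avg_ok`, `pr_avg`: `Fintype.sum_sigma`, `Finset.sum_div`.
* `Fit.avg`: clear from `avg_ok`, `Fintype.sum_sigma` (the weights of the states with a given point
  are averaged) and the definition.
* `pr_ac_avg`: `pr_avg`, all summands are nonnegative.
* `kl_avg_nonneg`: `d_nonneg`, `pr_ac_avg`.
* `kl_avg`: for each `(x, y)`, with `p i = (P i).pr`, `u` the uniform law and `a = (∑ p i) / N`,
  `N = card I`: `∑ d (p i) u = N * d a u + ∑ d (p i) a`: if `p i > 0` then `a > 0` and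
  `log (p i / u) = log (p i / a) + log (a / u)`; `∑ p i = N * a`.
-/

set_option autoImplicit false

namespace Pool.Agent.NST

open Finset Pool.Agent.PTree Pool.Agent.OSM
open scoped Classical

section
variable {I X Y : Type} [Fintype I] [Fintype X] [Fintype Y]

/-- The average of finitely many mixtures. -/
noncomputable def avg (P : I → Mx X Y) : Mx X Y where
  ι := (i : I) × (P i).ι
  fin := inferInstance
  w := fun a => (P a.1).w a.2 / Fintype.card I
  x := fun a => (P a.1).x a.2
  f := fun a => (P a.1).f a.2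

omit [Fintype X] in
theorem avg_ok [Nonempty I] {P : I → Mx X Y} (hP : ∀ i, (P i).Ok) : (avg P).Ok := by
  have hc : (Fintype.card I : ℝ) ≠ 0 := by exact_mod_cast Fintype.card_ne_zero
  refine ⟨?_, ?_, ?_, ?_⟩
  · rintro ⟨i, a⟩
    exact div_nonneg ((hP i).w_nonneg a) (Nat.cast_nonneg _)
  · have e : ∑ a, (avg P).w a = ∑ i, ∑ a : (P i).ι, (P i).w a / Fintype.card I :=
      Fintype.sum_sigma _
    rw [e]
    have e2 : ∀ i, ∑ a : (P i).ι, (P i).w a / Fintype.card I = 1 / Fintype.card I := by
      intro i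
      rw [← Finset.sum_div, (hP i).w_sum]
    simp_rw [e2]
    rw [sum_const, card_univ, nsmul_eq_mul]
    field_simp
  · rintro ⟨i, a⟩ y
    exact (hP i).f_nonneg a y
  · rintro ⟨i, a⟩
    exact (hP i).f_sum a

omit [Fintype X] [Fintype Y] in
theorem pr_avg (P : I → Mx X Y) (l : ℕ) (x : X) (y : Fin l → Y) :
    (avg P).pr l x y = (∑ i, (P i).pr l x y) / Fintype.card I := by
  have e : (avg P).pr l x y = ∑ i, ∑ a : (P i).ι,
      if (P i).x a = x then (P i).w a / Fintype.card I * ∏ j, (P i).f a (y j) else 0 :=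
    Fintype.sum_sigma _
  rw [e, Finset.sum_div]
  refine sum_congr rfl fun i _ => ?_
  unfold Mx.pr
  rw [Finset.sum_div]
  refine sum_congr rfl fun a _ => ?_
  split_ifs
  · ring
  · simp

omit [Fintype X] in
theorem pr_ac_avg [Nonempty I] {P : I → Mx X Y} (hP : ∀ i, (P i).Ok) (i : I) (l : ℕ) (x : X)
    (y : Fin l → Y) (h : (avg P).pr l x y = 0) : (P i).pr l x y = 0 := by
  have hc : (Fintype.card I : ℝ) ≠ 0 := by exact_mod_cast Fintype.card_ne_zero
  rw [pr_avg, div_eq_zero_iff, or_iff_left hc] at h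
  exact (sum_eq_zero_iff_of_nonneg fun j _ => Mx.pr_nonneg (hP j) l x y).1 h i (mem_univ i)

theorem kl_avg_nonneg [Nonempty I] {P : I → Mx X Y} (hP : ∀ i, (P i).Ok) (i : I) (l : ℕ) :
    0 ≤ kl (P i) (avg P) l := by
  unfold kl
  exact sum_nonneg fun x _ => sum_nonneg fun y _ => d_nonneg (Mx.pr_nonneg (hP i) _ _ _)
    (Mx.pr_nonneg (avg_ok hP) _ _ _) (fun h => pr_ac_avg hP i l x y h)

private theorem d_avg {p : I → ℝ} {m u : ℝ} (hp : ∀ i, 0 ≤ p i)
    (hm : ∀ i, 0 < p i → 0 < m) (hu : 0 < u) (hs : ∑ i, p i = Fintype.card I * m) :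
    ∑ i, d (p i) u = Fintype.card I * d m u + ∑ i, d (p i) m := by
  have hch : ∀ i, p i * Real.log (p i / u) = p i * Real.log (p i / m) + p i * Real.log (m / u) := by
    intro i
    rcases (hp i).eq_or_lt with h | h
    · rw [← h]
      ring
    · have h1 := hm i h
      rw [Real.log_div h.ne' hu.ne', Real.log_div h.ne' h1.ne', Real.log_div h1.ne' hu.ne']
      ring
  unfold d
  simp_rw [hch]
  simp only [sum_sub_distrib, sum_add_distrib, sum_const, card_univ, nsmul_eq_mul, ← sum_mul]
  rw [hs]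
  ring

theorem kl_avg [Nonempty I] [Nonempty X] [Nonempty Y] {P : I → Mx X Y} (hP : ∀ i, (P i).Ok)
    (l : ℕ) : ∑ i, klu (P i) l =
      Fintype.card I * klu (avg P) l + ∑ i, kl (P i) (avg P) l := by
  have hc : (Fintype.card I : ℝ) ≠ 0 := by exact_mod_cast Fintype.card_ne_zero
  have hu : 0 < 1 / ((Fintype.card X : ℝ) * (Fintype.card Y : ℝ) ^ l) := by
    have h1 : 0 < (Fintype.card X : ℝ) := by exact_mod_cast Fintype.card_pos
    have h2 : 0 < (Fintype.card Y : ℝ) := by exact_mod_cast Fintype.card_pos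
    positivity
  unfold klu kl
  rw [sum_comm, sum_comm (s := (univ : Finset I)) (t := (univ : Finset X)), mul_sum,
    ← sum_add_distrib]
  refine sum_congr rfl fun x _ => ?_
  rw [sum_comm, sum_comm (s := (univ : Finset I)) (t := (univ : Finset (Fin l → Y))), mul_sum,
    ← sum_add_distrib]
  refine sum_congr rfl fun y _ => ?_
  refine d_avg (fun i => Mx.pr_nonneg (hP i) l x y) (fun i hi => ?_) hu ?_
  · refine lt_of_le_of_ne (Mx.pr_nonneg (avg_ok hP) l x y) fun h => ?_
    exact hi.ne' (pr_ac_avg hP i l x y h.symm)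
  · rw [pr_avg]
    field_simp

end

theorem fit_avg {I : Type} [Fintype I] [Nonempty I] {F : Forb Bool} {n : ℕ} {T : StrSet} {k : ℕ}
    {q q' : ℝ} {P : I → Mx (Fin k → Sn n) (Sn n)} (hP : ∀ i, Fit F n T k q q' (P i)) :
    Fit F n T k q q' (avg P) := by
  have hc0 : (0 : ℝ) < (Fintype.card I : ℝ) := by exact_mod_cast Fintype.card_pos
  refine ⟨avg_ok fun i => (hP i).ok, ?_, ?_, ?_⟩
  · rintro ⟨i, a⟩ y
    exact (hP i).f_le a y
  · intro x
    refine (le_of_eq (Fintype.sum_sigma _)).trans ?_
    have e1 : ∀ i, (∑ a : (P i).ι, if (P i).x a = x then (P i).w a / (Fintype.card I : ℝ) else 0) ≤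
        (1 / q') / (Fintype.card (Fin k → Sn n) : ℝ) / Fintype.card I := by
      intro i
      have h1 : (∑ a : (P i).ι, if (P i).x a = x then (P i).w a / (Fintype.card I : ℝ) else 0) =
          (∑ a : (P i).ι, if (P i).x a = x then (P i).w a else 0) / Fintype.card I := by
        rw [sum_div]
        refine sum_congr rfl fun a _ => ?_
        split_ifs
        · rfl
        · simp
      rw [h1]
      refine div_le_div_of_nonneg_right (le_trans (le_of_eq ?_) ((hP i).x_le x)) hc0.le
      refine sum_congr rfl fun a _ => ?_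
      by_cases h : (P i).x a = x
      · exact (if_pos h).trans (if_pos h).symm
      · exact (if_neg h).trans (if_neg h).symm
    have e2 : ∑ _i : I, (1 / q') / (Fintype.card (Fin k → Sn n) : ℝ) / (Fintype.card I : ℝ) =
        (1 / q') / (Fintype.card (Fin k → Sn n) : ℝ) := by
      rw [sum_const, card_univ, nsmul_eq_mul]
      field_simp
    rw [← e2]
    refine sum_le_sum fun i _ => (le_of_eq ?_).trans (e1 i)
    refine sum_congr rfl fun a _ => ?_
    by_cases h : (P i).x a = x
    · exact (if_pos h).trans (if_pos h).symm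
    · exact (if_neg h).trans (if_neg h).symm
  · rintro ⟨i, a⟩
    exact (hP i).good a

end Pool.Agent.NST
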