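import Pool.Agent.NST.Defs
import Pool.Agent.OSM.KillE

/-!
# NST/Calc: basic calculus of events

Proofs.
* `MF.G_irrel`: `Ag 0 n G G'` is vacuous, use `F.loc (Agree.refl _ _)`.
* `BB_mono`: `F.Le F'` gives `(F.slice G).Le (F'.slice G)`, then `b_anti_forb` (OSM/Basic).
* `Met_mono`: induction on `l` with `BB_mono`.
* `BB_of_all`: `gs (F.slice G) n T k q = ∅`: a good reservoir `R` of density `≥ q > 0` is nonempty
  (`nonempty_of_dens`), so there is a sequence `H` with `cut n (H i) = x i` (`i < k`) and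
  `cut n (H i) ∈ R` (`i ≥ k`) (cf. `exists_seq` in OSM/Contra), which is bad. So `b = 0 < s`.
* `Met_of_all`: induction on `l` (the hypothesis for `X` gives that of `BB X` by `BB_of_all`).
* `Unb.exists`: `Unb` for the neighbourhood itself gives for `π` a tree `T` and a level `n` with
  `(Met l π F).bad n T G`; increase the level with `MF.mono_le`, change `G` with `MF.G_irrel`.
* `Opt.mono`: induction on the derivation; `Unb` and the first case are inherited by smaller sets.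
* `thr_le_bb`: by contraposition: if `¬ (BB ..).bad` then `κ.s ≤ b (F.slice G) n T κ.k κ.q`, so by
  `fit_exists` there is a fitting mixture `m`, and for every `r`,
  `klu m r ≤ Real.log (1 / κ.s) + r * Real.log (1 / κ.q)` by `klu_le` (`K = 1 / κ.q`,
  `K' = 1 / κ.s`).
* `bb_le_thr`: take `r = 0`; if `m` fits then all points of its states of positive weight are in
  `gs` (the support of `f` has density at least `q` since `f ≤ (1 / q) / card` and `∑ f = 1`), so
  `1 = ∑ w ≤ card gs * ((1 / s) / card X)`, i.e. `s ≤ b`. Contradiction, so there is no fitting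
  mixture.
* `thr_neg`: if `a < 0` choose `r` with `a * r + Real.log (1 / κ.s) < 0`; for `n ≥ r` all points are
  in `Thr F κ a` because `0 ≤ klu` (`klu_nonneg`); then `Met_of_all`, and `T1 ∈ Nb T1 m1 c1`
  (`Nb.self`).
-/

set_option autoImplicit false

namespace Pool.Agent.NST

open Finset Pool.Agent.PTree Pool.Agent.OSM
open scoped Classical

variable {l : ℕ}

private theorem le_dens_f {Y : Type} [Fintype Y] [Nonempty Y] (f : Y → ℝ) (h0 : ∀ y, 0 ≤ f y)
    (h1 : ∑ y, f y = 1) {q : ℝ} (hq : 0 < q) (hf : ∀ y, f y ≤ (1 / q) / (Fintype.card Y : ℝ)) :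
    q ≤ OSM.dens (univ.filter fun y => 0 < f y) := by
  have hY : 0 < (Fintype.card Y : ℝ) := by exact_mod_cast Fintype.card_pos
  have h2 : ∑ y, f y = ∑ y ∈ univ.filter (fun y => 0 < f y), f y := by
    rw [Finset.sum_filter]
    refine Finset.sum_congr rfl fun y _ => ?_
    by_cases hy : 0 < f y
    · rw [if_pos hy]
    · rw [if_neg hy]
      exact le_antisymm (not_lt.1 hy) (h0 y)
  have h3 : ∑ y ∈ univ.filter (fun y => 0 < f y), f y ≤
      ((univ.filter (fun y => 0 < f y)).card : ℝ) * ((1 / q) / (Fintype.card Y : ℝ)) := by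
    rw [← nsmul_eq_mul]
    exact Finset.sum_le_card_nsmul _ _ _ fun y _ => hf y
  rw [← h2, h1] at h3
  unfold OSM.dens
  rw [le_div_iff₀ hY]
  have h4 : ((univ.filter (fun y => 0 < f y)).card : ℝ) * ((1 / q) / (Fintype.card Y : ℝ)) *
      (q * Fintype.card Y) = ((univ.filter (fun y => 0 < f y)).card : ℝ) := by
    have := hq.ne'
    field_simp
  have h5 := mul_le_mul_of_nonneg_right h3 (mul_nonneg hq.le hY.le)
  rw [h4, one_mul] at h5
  exact h5

private theorem le_dens_x {X Y : Type} [Fintype X] [Nonempty X] (m : Mx X Y)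
    (hw : ∑ a, m.w a = 1) {s : ℝ} (hs : 0 < s)
    (hx : ∀ x, (∑ a, if m.x a = x then m.w a else 0) ≤ (1 / s) / (Fintype.card X : ℝ))
    (S : Finset X) (hS : ∀ a, m.x a ∈ S) : s ≤ OSM.dens S := by
  have hX : 0 < (Fintype.card X : ℝ) := by exact_mod_cast Fintype.card_pos
  have h5 : ∑ a, m.w a = ∑ x ∈ S, ∑ a, if m.x a = x then m.w a else 0 := by
    rw [Finset.sum_comm]
    refine Finset.sum_congr rfl fun a _ => ?_
    rw [Finset.sum_ite_eq, if_pos (hS a)]
  have h6 : ∑ x ∈ S, (∑ a, if m.x a = x then m.w a else 0) ≤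
      (S.card : ℝ) * ((1 / s) / (Fintype.card X : ℝ)) := by
    rw [← nsmul_eq_mul]
    exact Finset.sum_le_card_nsmul _ _ _ fun x _ => hx x
  rw [← h5, hw] at h6
  have h7 : (S.card : ℝ) * ((1 / s) / (Fintype.card X : ℝ)) * (s * Fintype.card X) =
      (S.card : ℝ) := by
    have := hs.ne'
    field_simp
  have h8 := mul_le_mul_of_nonneg_right h6 (mul_nonneg hs.le hX.le)
  rw [h7, one_mul] at h8
  unfold OSM.dens
  rw [le_div_iff₀ hX]
  exact h8

theorem MF.G_irrel (F : MF 0) {n : ℕ} {T : StrSet} {G G' : Pt} (h : F.bad n T G) :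
    F.bad n T G' := by
  exact F.loc (Agree.refl _ _) (fun c hc => absurd hc (Nat.not_lt_zero c)) h

theorem BB_mono {F F' : MF (l + 1)} (h : F.Le F') (k : ℕ) (q s : ℝ) :
    (BB F k q s).Le (BB F' k q s) := by
  intro n T G hb
  exact lt_of_le_of_lt (b_anti_forb (fun n' T' H h' => h n' T' _ h') n T k q) hb

theorem Met_mono {F F' : MF l} (h : F.Le F') (π : ℕ → Par) : (Met l π F).Le (Met l π F') := by
  induction l with
  | zero => exact h
  | succ l ih => exact ih (BB_mono h _ _ _)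

theorem BB_of_all {F : MF (l + 1)} {n : ℕ} {T : StrSet} {G : Pt}
    (h : ∀ H, F.bad n T (Function.update G l H)) (k : ℕ) {q s : ℝ} (hq : 0 < q) (hs : 0 < s) :
    (BB F k q s).bad n T G := by
  have hgs : gs (F.slice G) n T k q = ∅ := by
    rw [Finset.eq_empty_iff_forall_notMem]
    intro x hx
    obtain ⟨R, hR, hg⟩ := mem_gs.1 hx
    obtain ⟨s0, hs0⟩ := nonempty_of_dens (lt_of_lt_of_le hq hR)
    have hcut1 : ∀ i : Fin k, cut n ((fun i j => if hj : j < n then
        (if hi : i < k then x ⟨i, hi⟩ ⟨j, hj⟩ else s0 ⟨j, hj⟩) else false :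
          ℕ → ℕ → Bool) i) = x i := by
      intro i
      funext j
      simp [cut]
    have hcut2 : ∀ i, k ≤ i → cut n ((fun i j => if hj : j < n then
        (if hi : i < k then x ⟨i, hi⟩ ⟨j, hj⟩ else s0 ⟨j, hj⟩) else false :
          ℕ → ℕ → Bool) i) ∈ R := by
      intro i hi
      have : cut n ((fun i j => if hj : j < n then
        (if hi : i < k then x ⟨i, hi⟩ ⟨j, hj⟩ else s0 ⟨j, hj⟩) else false :
          ℕ → ℕ → Bool) i) = s0 := by
        funext j
        simp [cut, not_lt.2 hi]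
      rw [this]
      exact hs0
    exact hg _ hcut1 hcut2 (h _)
  change b (F.slice G) n T k q < s
  unfold b
  rw [hgs]
  simpa [OSM.dens] using hs

theorem Met_of_all {X : MF l} {n : ℕ} {T : StrSet} (h : ∀ G, X.bad n T G) (π : ℕ → Par) (G : Pt) :
    (Met l π X).bad n T G := by
  induction l with
  | zero => exact h G
  | succ l ih =>
    exact ih (X := BB X (π l).k (π l).q (π l).s)
      (fun G' => BB_of_all (fun H => h _) _ (π l).hq (π l).hs)

theorem Viable.mono {F F' : MF l} {N N' : Set StrSet} (h : Viable l F' N) (hF : F.Le F')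
    (hN : N' ⊆ N) : Viable l F N' := by
  obtain ⟨π, hπ⟩ := h
  exact ⟨π, fun T hT n G hb => hπ T (hN hT) n G (Met_mono hF π n T G hb)⟩

theorem Unb.mono {F F' : MF l} {N N' : Set StrSet} (h : Unb l F N) (hF : F.Le F')
    (hN : N' ⊆ N) : Unb l F' N' := by
  intro T1 m1 c1 h1 h2 h3 hv
  exact h T1 m1 c1 h1 h2 (h3.trans hN) (hv.mono hF (Set.Subset.refl _))

theorem Unb.exists {F : MF l} {N : Set StrSet} (h : Unb l F N) {T1 : StrSet} {m1 : ℕ} {c1 : ℝ}
    (hT : IsTree T1) (hc : c1 < M T1) (hN : Nb T1 m1 c1 ⊆ N) (π : ℕ → Par) (n0 : ℕ) :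
    ∃ T ∈ Nb T1 m1 c1, ∃ n, n0 ≤ n ∧ ∀ G, (Met l π F).bad n T G := by
  by_contra hcon
  refine h T1 m1 c1 hT hc hN ⟨π, fun T hTN n G hb => hcon ⟨T, hTN, max n n0, le_max_right _ _,
    fun G' => ?_⟩⟩
  exact (Met l π F).G_irrel ((Met l π F).mono_le (le_max_left _ _) hb)

theorem Opt.mono {ε : ℝ} {N N' : Set StrSet} {F : MF l} (h : Opt ε N l F) (hN : N' ⊆ N) :
    Opt ε N' l F := by
  induction h with
  | zero h => exact Opt.zero fun T hT => h T (hN hT)
  | succ κ a hU _ ih => exact Opt.succ κ a (hU.mono (MF.Le.refl _) hN) ih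

theorem thr_anti (F : MF (l + 1)) (κ : Par) {a a' : ℝ} (h : a ≤ a') :
    (Thr F κ a').Le (Thr F κ a) := by
  rintro n T G ⟨r, hr, hm⟩
  refine ⟨r, hr, fun m hf => lt_of_le_of_lt ?_ (hm m hf)⟩
  have h1 : a * (r : ℝ) ≤ a' * (r : ℝ) := mul_le_mul_of_nonneg_right h (Nat.cast_nonneg r)
  linarith

theorem thr_le_bb (F : MF (l + 1)) (κ : Par) :
    (Thr F κ (Real.log (1 / κ.q))).Le (BB F κ.k κ.q κ.s) := by
  rintro n T G ⟨r, hr, hm⟩
  by_contra hb
  have hb' : κ.s ≤ b (F.slice G) n T κ.k κ.q := not_lt.1 hb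
  obtain ⟨m, hf⟩ := fit_exists κ.hq κ.hs hb'
  have h1 := hm m hf
  have h2 := klu_le hf.ok (K := 1 / κ.q) (K' := 1 / κ.s) (one_div_pos.2 κ.hq)
    (one_div_pos.2 κ.hs) hf.f_le (fun x => by convert hf.x_le x) r
  linarith

theorem bb_le_thr (F : MF (l + 1)) (κ : Par) (a : ℝ) :
    (BB F κ.k κ.q κ.s).Le (Thr F κ a) := by
  intro n T G hb
  refine ⟨0, Nat.zero_le n, fun m hf => ?_⟩
  exfalso
  have hb' : b (F.slice G) n T κ.k κ.q < κ.s := hb
  have hmem : ∀ a : m.ι, m.x a ∈ gs (F.slice G) n T κ.k κ.q := fun a =>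
    mem_gs.2 ⟨_, le_dens_f (m.f a) (hf.ok.f_nonneg a) (hf.ok.f_sum a) κ.hq (hf.f_le a),
      hf.good a⟩
  have h9 : κ.s ≤ b (F.slice G) n T κ.k κ.q :=
    le_dens_x m hf.ok.w_sum κ.hs (fun x => by convert hf.x_le x) _ hmem
  linarith

theorem thr_neg (F : MF (l + 1)) (κ : Par) {a : ℝ} (ha : a < 0) {T1 : StrSet} {m1 : ℕ} {c1 : ℝ}
    (hT : IsTree T1) (hc : c1 < M T1) : ¬ Viable l (Thr F κ a) (Nb T1 m1 c1) := by
  rintro ⟨π, hπ⟩
  obtain ⟨r, hr⟩ : ∃ r : ℕ, a * (r : ℝ) + Real.log (1 / κ.s) < 0 := by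
    obtain ⟨r, hr⟩ := exists_nat_gt (Real.log (1 / κ.s) / (-a))
    refine ⟨r, ?_⟩
    rw [div_lt_iff₀ (by linarith)] at hr
    linarith
  refine hπ T1 (Nb.self hT m1 hc) r (fun _ _ _ => false) ?_
  refine Met_of_all (X := Thr F κ a) (fun G => ⟨r, le_rfl, fun m hf => ?_⟩) π _
  exact lt_of_lt_of_le hr (klu_nonneg hf.ok r)

end Pool.Agent.NST
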