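import Pool.Agent.NST.Avg
import Pool.Agent.OSM.DenseR

/-!
# NST/CommP: the probability that the samples contain no committing arrangement, and that they
contain an exceptional one

`comm_prob2`: word for word the proof of `comm_prob` in OSM/Contra (which may not be imported), with
`X` in place of `FDec E Φ 0 M0 m0` and `CCm` in place of `CC` (at the end use `X.loc` in place of
`Dec.of_subset`). The ingredients are `sample` (OSM/Sample), `exc_mass`, `committing` (OSM/DenseR),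
`dens_preimage`; `cut_res`, `cut_eq_iff` (stated below) are also proved in OSM/Contra.

`bad_prob2`: `comm_prob2`, `exc_bound` (OSM/Sample) and the union bound (cf. `badP_prob` in
OSM/Contra): `1 / 50 + 1 / 100 ≤ 1 / 4`.
-/

set_option autoImplicit false

namespace Pool.Agent.NST

open Finset Pool.Agent.PTree Pool.Agent.OSM
open scoped Classical

/-- All sequences which start with the arrangement are in `X` at level `n0`. -/
def CCm (X : Forb Bool) (T : StrSet) (n0 n : ℕ) {k : ℕ} (x : Fin k → Sn n) (y' : Fin n0 → Sn n) :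
    Prop :=
  ∀ G : ℕ → ℕ → Bool, (∀ i : Fin n0, cut n (G i) = merge n0 x y' i) → X.bad n0 T G

theorem cut_res' {n0 n : ℕ} (h : n0 ≤ n) (x : ℕ → Bool) : res h (cut n x) = cut n0 x := by
  rfl

theorem cut_eq_iff' {n : ℕ} {x y : ℕ → Bool} : cut n x = cut n y ↔ ∀ j < n, x j = y j := by
  constructor
  · intro h j hj
    exact congrFun h ⟨j, hj⟩
  · intro h
    funext j
    exact h j j.2

theorem comm_prob2 {F X : Forb Bool} {k : ℕ} {q q' : ℝ} (hq : 0 < q) (hq' : 0 < q')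
    {T : StrSet} {n0 ℓ n : ℕ} (hn0 : n0 ≤ n)
    (hub : b (F.or X) n0 T k (3 * q / 4) < q' / 100)
    (hℓ : 4 * Fintype.card (Sn n0) * (n0 + 5) ≤ ℓ)
    {P : Mx (Fin k → Sn n) (Sn n)} (hP : Fit F n T k q q' P) :
    (∑ x, ∑ y : Fin (n0 * ℓ) → Sn n,
      if ∃ r : Fin n0 → Fin ℓ, CCm X T n0 n x (sel y r) then 0 else P.pr (n0 * ℓ) x y) ≤
      1 / 50 := by
  set Exc : Finset (Fin k → Sn n) := univ.filter fun x =>
    (fun i => res hn0 (x i)) ∈ gs (F.or X) n0 T k (3 * q / 4) with hExc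
  refine sample hP.ok (res hn0) Exc ?_ hℓ _ ?_
  · have h0 : ∀ x, (∑ a, @ite ℝ (P.x a = x) (Classical.propDecidable _) (P.w a) 0) ≤
        (1 / q') / (Fintype.card (Fin k → Sn n) : ℝ) := fun x => by
      convert hP.x_le x
    refine (exc_mass hP.ok h0 Exc).trans ?_
    have h2 : OSM.dens Exc = OSM.dens (gs (F.or X) n0 T k (3 * q / 4)) := by
      rw [← dens_preimage (eqFib_comp (eqFib_res (A := Bool) hn0) k)]
      congr 1
      ext x
      simp [hExc]
    rw [h2]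
    have h1 : OSM.dens (gs (F.or X) n0 T k (3 * q / 4)) ≤ q' / 100 := hub.le
    calc 1 / q' * OSM.dens (gs (F.or X) n0 T k (3 * q / 4))
        ≤ 1 / q' * (q' / 100) := mul_le_mul_of_nonneg_left h1 (by positivity)
      _ = 1 / 100 := by field_simp
  · intro a ha
    have ha' : (fun i => res hn0 (P.x a i)) ∉
        gs (F.or X) n0 T k (3 * q / 4) := fun h =>
      ha (mem_filter.2 ⟨mem_univ _, h⟩)
    obtain ⟨s, G, h1, h2, h3, h4⟩ := committing hq hn0 (Agree.refl _ _) hP a ha'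
    refine ⟨s, fun i => by convert h1 i, fun y hy G' hG' => ?_⟩
    refine X.loc (Agree.refl _ _) (fun i hi j hj => ?_) h4
    have h5 : cut n0 (G' i) = cut n0 (G i) := by
      have h6 := hG' ⟨i, hi⟩
      rw [← cut_res' hn0 (G' i), h6, merge]
      by_cases hik : i < k
      · rw [dif_pos hik, ← h2 ⟨i, hi⟩ hik]
      · rw [dif_neg hik, hy ⟨i, hi⟩, ← h3 ⟨i, hi⟩ (not_lt.1 hik)]
    exact cut_eq_iff'.1 h5 j hj

/-- The samples without a committing arrangement, or with an exceptional one. -/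
def BadS (X : Forb Bool) (T : StrSet) (n0 n ℓ : ℕ) {k : ℕ} (Z : Finset (Fin n0 → Sn n))
    (x : Fin k → Sn n) (y : Fin (n0 * ℓ) → Sn n) : Prop :=
  ¬ (∃ r : Fin n0 → Fin ℓ, CCm X T n0 n x (sel y r)) ∨
    ∃ r : Fin n0 → Fin ℓ, merge n0 x (sel y r) ∈ Z

theorem bad_prob2 {F X : Forb Bool} {k : ℕ} {q q' : ℝ} (hq : 0 < q) (hq' : 0 < q')
    {T : StrSet} {n0 ℓ n : ℕ} (hk : k ≤ n0) (hn0 : n0 ≤ n)
    (hub : b (F.or X) n0 T k (3 * q / 4) < q' / 100)
    (hℓ : 4 * Fintype.card (Sn n0) * (n0 + 5) ≤ ℓ)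
    {P : Mx (Fin k → Sn n) (Sn n)} (hP : Fit F n T k q q' P) (Z : Finset (Fin n0 → Sn n))
    (hZ : (ℓ : ℝ) ^ n0 * OSM.dens Z ≤ q' * q ^ n0 / 100) :
    (∑ x, ∑ y : Fin (n0 * ℓ) → Sn n,
      if BadS X T n0 n ℓ Z x y then P.pr (n0 * ℓ) x y else 0) ≤ 1 / 4 := by
  have hU := comm_prob2 (X := X) hq hq' hn0 hub hℓ hP
  have hV := exc_bound hk hP.ok hq hq' hP.f_le (fun x => by convert hP.x_le x) Z hZ
  have h3 : ∀ (x : Fin k → Sn n) (y : Fin (n0 * ℓ) → Sn n),
      (if BadS X T n0 n ℓ Z x y then P.pr (n0 * ℓ) x y else 0) ≤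
      (if ∃ r : Fin n0 → Fin ℓ, CCm X T n0 n x (sel y r) then 0 else P.pr (n0 * ℓ) x y) +
      (if ∃ r : Fin n0 → Fin ℓ, merge n0 x (sel y r) ∈ Z then P.pr (n0 * ℓ) x y else 0) := by
    intro x y
    have h4 := Mx.pr_nonneg hP.ok (n0 * ℓ) x y
    by_cases h5 : ∃ r : Fin n0 → Fin ℓ, CCm X T n0 n x (sel y r)
    · by_cases h6 : ∃ r : Fin n0 → Fin ℓ, merge n0 x (sel y r) ∈ Z
      · rw [if_pos (show BadS X T n0 n ℓ Z x y from Or.inr h6), if_pos h5, if_pos h6]
        linarith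
      · rw [if_neg (show ¬ BadS X T n0 n ℓ Z x y from fun h => h.elim (fun h => h h5) h6),
          if_pos h5, if_neg h6]
        linarith
    · rw [if_pos (show BadS X T n0 n ℓ Z x y from Or.inl h5), if_neg h5]
      split_ifs <;> linarith
  refine (Finset.sum_le_sum fun x _ => Finset.sum_le_sum fun y _ => h3 x y).trans ?_
  simp_rw [Finset.sum_add_distrib]
  have hV' : (∑ x, ∑ y : Fin (n0 * ℓ) → Sn n,
      if ∃ r : Fin n0 → Fin ℓ, merge n0 x (sel y r) ∈ Z then P.pr (n0 * ℓ) x y else 0) ≤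
      1 / 100 := by convert hV
  linarith

end Pool.Agent.NST
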