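import Pool.Agent.NST.Calc

/-!
# NST/Comp: composition of `BB` at two levels of information

`comp_one`. Suppose `2 * s ≤ b ((MF.cap n X Y).slice G) n' T k q`. Let `K = gs (cap.slice G) n' T k q`
and let `B` be the set of the `x : Fin k → Sn n'` with
`(fun i => res h (x i)) ∈ gs (X.slice G) n T k (q / 2)`; its density is
`b (X.slice G) n T k (q / 2) < s` (`dens_preimage (eqFib_comp (eqFib_res h) k)`). So `K \ B` has
density at least `s`. Let `x ∈ K \ B` with reservoir `R`, `q ≤ dens R` (so `q ≤ 1`), good for `cap`.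
Let `θ = q / 2 / 2 ^ n` and let `R'` be the set of the `z ∈ R` such that
`{w ∈ R : res h w = res h z}` has density at least `θ`; `R \ R'` is a union of at most `2 ^ n` fibres
of density less than `θ`, so `q / 2 ≤ dens R'`, and the image of `R'` under `res h` has density at
least `q / 2` (`dens_image_ge`). As `x ∉ B` there is `H` with `cut n (H i) = res h (x i)`, `i < k`,
`cut n (H i) ∈ R'.image (res h)`, `i ≥ k`, and `X.bad n T (update G l H)`. Let `k' = max k n`. All
`p : Fin k' → Sn n'` with `p i = x i` for `i < k` and, for `k ≤ i < k'`, `p i ∈ R` and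
`res h (p i) = cut n (H i)` are in `gs (Y.slice G) n' T k' q` with reservoir `R`: if `H'` is a
sequence of `(p, R)` then it is one of `(x, R)`, and it agrees with `H` up to `n` (coordinates
`i < n ≤ k'`), so `X.bad n T (update G l H')` (`X.loc`), hence not `Y.bad n' T (update G l H')`. The
number of these `p` is at least `(θ * card (Sn n')) ^ (k' - k)`, and `θ ^ n ≤ θ ^ (k' - k)`
(`θ ≤ 1`, `k' - k ≤ n`). Summing over `x ∈ K \ B` (the `p` for different `x` are different) the
density of `gs (Y.slice G) n' T k' q` is at least `s * θ ^ n`, contradiction to `hY`.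
(If `k ≥ n` then `k' = k` and `p = x`.)

`comp_met`: induction on `l`. For `l + 1` apply the induction hypothesis to
`BB X (π l).k ((π l).q / 2) ((π l).s / 2)` and
`BB Y (max (π l).k n) (π l).q ((π l).s / 2 * ((π l).q / 2 / 2 ^ n) ^ n)`; then `Met_mono`, since by
`comp_one` (with `s := (π l).s / 2`) `cap n (BB X ..) (BB Y ..)` is contained in
`BB (cap n X Y) (π l).k (π l).q (π l).s`.
-/

set_option autoImplicit false

namespace Pool.Agent.NST

open Finset Pool.Agent.PTree Pool.Agent.OSM
open scoped Classical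

variable {l : ℕ}

private theorem cut_res' {A : Type} {n n' : ℕ} (h : n ≤ n') (x : ℕ → A) :
    res h (cut n' x) = cut n x := by
  funext i
  simp [res, cut]

/-- The elements of `R` in large fibres of `res h` have at least half of the density. -/
private theorem dens_large {n n' : ℕ} {q : ℝ} (hq : 0 < q) (h : n ≤ n') {R : Finset (Sn n')}
    (hR : q ≤ OSM.dens R) :
    q / 2 ≤ OSM.dens (R.filter fun z =>
      q / 2 / 2 ^ n ≤ OSM.dens (R.filter fun w => res h w = res h z)) := by
  obtain ⟨R', hR'⟩ : ∃ R' : Finset (Sn n'), R' = R.filter fun z =>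
      q / 2 / 2 ^ n ≤ OSM.dens (R.filter fun w => res h w = res h z) := ⟨_, rfl⟩
  rw [← hR']
  obtain ⟨N, hN⟩ : ∃ N : ℝ, N = (Fintype.card (Sn n') : ℝ) := ⟨_, rfl⟩
  have hN0 : 0 < N := by
    rw [hN]
    exact_mod_cast Fintype.card_pos
  have h2n : (0 : ℝ) < 2 ^ n := by positivity
  have hθ : 0 < q / 2 / 2 ^ n := by positivity
  -- the small fibres
  have hsmall : ((R \ R').card : ℝ) ≤ 2 ^ n * (q / 2 / 2 ^ n * N) := by
    have h1 := Finset.card_eq_sum_card_fiberwise (f := res (A := Bool) h) (s := R \ R')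
      (t := (univ : Finset (Sn n))) fun x _ => mem_univ _
    have h2 : ∀ v ∈ (univ : Finset (Sn n)),
        (((R \ R').filter fun x => res h x = v).card : ℝ) ≤ q / 2 / 2 ^ n * N := by
      intro v _
      rcases ((R \ R').filter fun x => res h x = v).eq_empty_or_nonempty with h3 | ⟨z, hz⟩
      · rw [h3, Finset.card_empty, Nat.cast_zero]
        positivity
      · rw [Finset.mem_filter, Finset.mem_sdiff] at hz
        obtain ⟨⟨hz1, hz2⟩, hz3⟩ := hz
        have h4 : ¬ (q / 2 / 2 ^ n ≤ OSM.dens (R.filter fun w => res h w = res h z)) := by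
          intro h5
          exact hz2 (by rw [hR', Finset.mem_filter]; exact ⟨hz1, h5⟩)
        rw [not_le] at h4
        unfold OSM.dens at h4
        rw [← hN, div_lt_iff₀ hN0] at h4
        have h6 : ((R \ R').filter fun x => res h x = v) ⊆ R.filter fun w => res h w = res h z := by
          intro w hw
          rw [Finset.mem_filter, Finset.mem_sdiff] at hw
          rw [Finset.mem_filter]
          exact ⟨hw.1.1, hw.2.trans hz3.symm⟩
        have h7 : (((R \ R').filter fun x => res h x = v).card : ℝ) ≤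
            ((R.filter fun w => res h w = res h z).card : ℝ) := by
          exact_mod_cast Finset.card_le_card h6
        linarith
    rw [h1]
    push_cast
    refine (Finset.sum_le_sum h2).trans ?_
    rw [Finset.sum_const, Finset.card_univ, nsmul_eq_mul]
    have h8 : (Fintype.card (Sn n) : ℝ) = 2 ^ n := by simp
    rw [h8]
  have hsub : R' ⊆ R := by rw [hR']; exact Finset.filter_subset _ _
  have hcard : ((R \ R').card : ℝ) + (R'.card : ℝ) = (R.card : ℝ) := by
    exact_mod_cast Finset.card_sdiff_add_card_eq_card hsub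
  unfold OSM.dens at hR ⊢
  rw [← hN, le_div_iff₀ hN0] at hR ⊢
  have h9 : (2 : ℝ) ^ n * (q / 2 / 2 ^ n * N) = q / 2 * N := by
    field_simp
  rw [h9] at hsmall
  linarith

/-- The construction for one tuple. -/
private theorem one_x {X Y : MF (l + 1)} {n n' k : ℕ} {q : ℝ} (hq : 0 < q)
    (h : n ≤ n') {T : StrSet} {G : Pt} {x : Fin k → Sn n'} {R : Finset (Sn n')}
    (hR : q ≤ OSM.dens R) (hg : Good ((MF.cap n X Y).slice G) n' T x R)
    (hxB : (fun i => res h (x i)) ∉ gs (X.slice G) n T k (q / 2)) :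
    ∃ P : Finset (Fin (max k n) → Sn n'),
      (∀ p ∈ P, p ∈ gs (Y.slice G) n' T (max k n) q ∧
        ∀ i : Fin k, p (i.castLE (le_max_left k n)) = x i) ∧
      (q / 2 / 2 ^ n * (Fintype.card (Sn n') : ℝ)) ^ (max k n - k) ≤ (P.card : ℝ) := by
  obtain ⟨N, hN⟩ : ∃ N : ℝ, N = (Fintype.card (Sn n') : ℝ) := ⟨_, rfl⟩
  have hN0 : 0 < N := by
    rw [hN]
    exact_mod_cast Fintype.card_pos
  have hθ : 0 < q / 2 / 2 ^ n := by positivity
  obtain ⟨R', hR'⟩ : ∃ R' : Finset (Sn n'), R' = R.filter fun z =>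
      q / 2 / 2 ^ n ≤ OSM.dens (R.filter fun w => res h w = res h z) := ⟨_, rfl⟩
  have hdR' : q / 2 ≤ OSM.dens (R'.image (res h)) := by
    have h1 : q / 2 ≤ OSM.dens R' := by
      rw [hR']
      exact dens_large hq h hR
    refine h1.trans ?_
    have h2 := OSM.dens_image_ge (eqFib_res (A := Bool) h) R'
    refine le_of_le_of_eq h2 ?_
    refine congrArg OSM.dens ?_
    ext w
    simp only [Finset.mem_image]
  obtain ⟨H, hH1, hH2, hH3⟩ : ∃ H : ℕ → ℕ → Bool, (∀ i : Fin k, cut n (H i) = res h (x i)) ∧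
      (∀ i, k ≤ i → cut n (H i) ∈ R'.image (res h)) ∧ (X.slice G).bad n T H := by
    by_contra hcon
    apply hxB
    refine mem_gs.2 ⟨R'.image (res h), hdR', ?_⟩
    intro H h1 h2 h3
    exact hcon ⟨H, h1, h2, h3⟩
  -- the sets of possible values
  obtain ⟨S, hS⟩ : ∃ S : Fin (max k n) → Finset (Sn n'), S = fun i : Fin (max k n) =>
      if hi : (i : ℕ) < k then {x ⟨i, hi⟩} else R.filter fun w => res h w = cut n (H i) := ⟨_, rfl⟩
  have hS1 : ∀ (i : Fin (max k n)) (hi : (i : ℕ) < k), S i = {x ⟨i, hi⟩} := by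
    intro i hi
    rw [hS]
    exact dif_pos hi
  have hS2 : ∀ (i : Fin (max k n)), ¬ (i : ℕ) < k →
      S i = R.filter fun w => res h w = cut n (H i) := by
    intro i hi
    rw [hS]
    exact dif_neg hi
  refine ⟨Fintype.piFinset S, ?_, ?_⟩
  · intro p hp
    rw [Fintype.mem_piFinset] at hp
    have hp1 : ∀ (i : Fin (max k n)) (hi : (i : ℕ) < k), p i = x ⟨i, hi⟩ := by
      intro i hi
      have h1 := hp i
      rw [hS1 i hi, Finset.mem_singleton] at h1
      exact h1
    have hp2 : ∀ (i : Fin (max k n)), ¬ (i : ℕ) < k → p i ∈ R ∧ res h (p i) = cut n (H i) := by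
      intro i hi
      have h1 := hp i
      rw [hS2 i hi, Finset.mem_filter] at h1
      exact h1
    refine ⟨mem_gs.2 ⟨R, hR, ?_⟩, fun i => hp1 _ i.2⟩
    intro H' h1 h2 h3
    refine hg H' ?_ ?_ ⟨h, ?_, h3⟩
    · intro i
      have h4 := h1 (i.castLE (le_max_left k n))
      rw [hp1 _ i.2] at h4
      exact h4
    · intro i hi
      by_cases hi' : i < max k n
      · have h4 := h1 ⟨i, hi'⟩
        rw [h4]
        exact (hp2 ⟨i, hi'⟩ (not_lt.2 hi)).1
      · exact h2 i (not_lt.1 hi')
    · refine X.loc (Agree.refl _ _) ?_ hH3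
      intro c _ i hi j hj
      by_cases hcl : c = l
      · subst hcl
        simp only [Function.update_self]
        have hi' : i < max k n := lt_of_lt_of_le hi (le_max_right _ _)
        have h4 := h1 ⟨i, hi'⟩
        have h5 : res h (p ⟨i, hi'⟩) = cut n (H i) := by
          by_cases hik : i < k
          · rw [hp1 ⟨i, hi'⟩ hik]
            exact (hH1 ⟨i, hik⟩).symm
          · exact (hp2 ⟨i, hi'⟩ hik).2
        rw [← h4, cut_res'] at h5
        exact congrFun h5 ⟨j, hj⟩
      · simp only [Function.update_of_ne hcl]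
  · rw [Fintype.card_piFinset]
    push_cast
    have hkk : k ≤ max k n := le_max_left _ _
    have hge : ∀ i : Fin (max k n), (if (i : ℕ) < k then (1 : ℝ) else q / 2 / 2 ^ n * N) ≤
        ((S i).card : ℝ) := by
      intro i
      split_ifs with hi
      · rw [hS1 i hi, Finset.card_singleton, Nat.cast_one]
      · rw [hS2 i hi]
        obtain ⟨z, hz, hze⟩ := Finset.mem_image.1 (hH2 i (not_lt.1 hi))
        rw [hR', Finset.mem_filter] at hz
        have h6 := hz.2
        unfold OSM.dens at h6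
        rw [← hN, le_div_iff₀ hN0] at h6
        rw [← hze]
        exact h6
    have hprod : ∏ i : Fin (max k n), (if (i : ℕ) < k then (1 : ℝ) else q / 2 / 2 ^ n * N) =
        (q / 2 / 2 ^ n * N) ^ (max k n - k) := by
      rw [Fin.prod_univ_eq_prod_range (fun i : ℕ => if i < k then (1 : ℝ) else q / 2 / 2 ^ n * N)
        (max k n)]
      obtain ⟨m, hm⟩ := Nat.exists_eq_add_of_le hkk
      rw [hm, Finset.prod_range_add, Nat.add_sub_cancel_left]
      rw [Finset.prod_congr rfl (g := fun _ => (1 : ℝ)) fun i hi => if_pos (Finset.mem_range.1 hi)]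
      rw [Finset.prod_congr rfl (g := fun _ => q / 2 / 2 ^ n * N) fun i _ => if_neg (by omega)]
      simp
    rw [← hN, ← hprod]
    refine Finset.prod_le_prod (fun i _ => ?_) fun i _ => hge i
    split_ifs
    · exact zero_le_one
    · positivity

theorem comp_one {X Y : MF (l + 1)} {n n' k : ℕ} {q s : ℝ} (hq : 0 < q) (hs : 0 < s)
    (h : n ≤ n') {T : StrSet} {G : Pt} (hX : (BB X k (q / 2) s).bad n T G)
    (hY : (BB Y (max k n) q (s * (q / 2 / 2 ^ n) ^ n)).bad n' T G) :
    (BB (MF.cap n X Y) k q (2 * s)).bad n' T G := by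
  change b (X.slice G) n T k (q / 2) < s at hX
  change b (Y.slice G) n' T (max k n) q < s * (q / 2 / 2 ^ n) ^ n at hY
  change b ((MF.cap n X Y).slice G) n' T k q < 2 * s
  by_contra hcon
  rw [not_lt] at hcon
  obtain ⟨N, hN⟩ : ∃ N : ℝ, N = (Fintype.card (Sn n') : ℝ) := ⟨_, rfl⟩
  have hN0 : 0 < N := by
    rw [hN]
    exact_mod_cast Fintype.card_pos
  obtain ⟨K, hK⟩ : ∃ K : Finset (Fin k → Sn n'), K = gs ((MF.cap n X Y).slice G) n' T k q :=
    ⟨_, rfl⟩
  obtain ⟨B, hB⟩ : ∃ B : Finset (Fin k → Sn n'), B =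
      univ.filter fun x => (fun i => res h (x i)) ∈ gs (X.slice G) n T k (q / 2) := ⟨_, rfl⟩
  have hdB : OSM.dens B < s := by
    have h1 : OSM.dens B = OSM.dens (gs (X.slice G) n T k (q / 2)) := by
      rw [hB]
      convert OSM.dens_preimage (eqFib_comp (eqFib_res (A := Bool) h) k)
        (gs (X.slice G) n T k (q / 2))
    rw [h1]
    exact hX
  have hdK : 2 * s ≤ OSM.dens K := by
    rw [hK]
    exact hcon
  have hKB : s ≤ OSM.dens (K \ B) := by
    have h1 : OSM.dens K ≤ OSM.dens (K \ B) + OSM.dens B := by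
      unfold OSM.dens
      rw [← add_div]
      have h2 : (K.card : ℝ) ≤ ((K \ B).card : ℝ) + (B.card : ℝ) := by
        exact_mod_cast Finset.card_le_card_sdiff_add_card
      exact div_le_div_of_nonneg_right h2 (Nat.cast_nonneg _)
    linarith
  have hP : ∀ x : Fin k → Sn n', ∃ P : Finset (Fin (max k n) → Sn n'), x ∈ K \ B →
      (∀ p ∈ P, p ∈ gs (Y.slice G) n' T (max k n) q ∧
        ∀ i : Fin k, p (i.castLE (le_max_left k n)) = x i) ∧
      (q / 2 / 2 ^ n * N) ^ (max k n - k) ≤ (P.card : ℝ) := by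
    intro x
    by_cases hx : x ∈ K \ B
    · rw [Finset.mem_sdiff, hK, hB] at hx
      obtain ⟨h1, h2⟩ := hx
      obtain ⟨R, hR, hg⟩ := mem_gs.1 h1
      have h3 : (fun i => res h (x i)) ∉ gs (X.slice G) n T k (q / 2) := by
        intro h4
        exact h2 (Finset.mem_filter.2 ⟨mem_univ _, h4⟩)
      obtain ⟨P, hP1, hP2⟩ := one_x hq h hR hg h3
      rw [← hN] at hP2
      exact ⟨P, fun _ => ⟨hP1, hP2⟩⟩
    · exact ⟨∅, fun h4 => absurd h4 hx⟩
  choose P hP using hP
  have hdisj : Set.PairwiseDisjoint ((K \ B : Finset (Fin k → Sn n')) : Set (Fin k → Sn n')) P := by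
    intro x hx y hy hxy
    rw [Function.onFun, Finset.disjoint_left]
    intro p hp hp'
    apply hxy
    funext i
    rw [← ((hP x hx).1 p hp).2 i, ← ((hP y hy).1 p hp').2 i]
  have hsub : (K \ B).biUnion P ⊆ gs (Y.slice G) n' T (max k n) q := by
    intro p hp
    obtain ⟨x, hx, hpx⟩ := Finset.mem_biUnion.1 hp
    exact ((hP x hx).1 p hpx).1
  have hcard : ((K \ B).card : ℝ) * (q / 2 / 2 ^ n * N) ^ (max k n - k) ≤
      ((gs (Y.slice G) n' T (max k n) q).card : ℝ) := by
    have h1 : (((K \ B).biUnion P).card : ℝ) ≤ ((gs (Y.slice G) n' T (max k n) q).card : ℝ) := by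
      exact_mod_cast Finset.card_le_card hsub
    rw [Finset.card_biUnion (fun x hx y hy hxy => hdisj hx hy hxy)] at h1
    push_cast at h1
    refine le_trans ?_ h1
    rw [← nsmul_eq_mul, ← Finset.sum_const]
    exact Finset.sum_le_sum fun x hx => (hP x hx).2
  have hcardf : ∀ j : ℕ, (Fintype.card (Fin j → Sn n') : ℝ) = N ^ j := by
    intro j
    rw [hN]
    simp
  have hk' : max k n = k + (max k n - k) := by
    have := le_max_left k n
    omega
  have hθ0 : 0 < q / 2 / 2 ^ n := by positivity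
  -- `q ≤ 1`
  have hq1 : q ≤ 1 := by
    have h1 : 0 < OSM.dens K := by linarith
    obtain ⟨x, hx⟩ := nonempty_of_dens h1
    rw [hK] at hx
    obtain ⟨R, hR, _⟩ := mem_gs.1 hx
    exact hR.trans (OSM.dens_le_one R)
  have hθ1 : q / 2 / 2 ^ n ≤ 1 := by
    rw [div_le_one (by positivity)]
    have : (1 : ℝ) ≤ 2 ^ n := one_le_pow₀ (by norm_num)
    linarith
  have hθn : (q / 2 / 2 ^ n) ^ n ≤ (q / 2 / 2 ^ n) ^ (max k n - k) := by
    apply pow_le_pow_of_le_one hθ0.le hθ1
    have h1 : max k n ≤ k + n := max_le (Nat.le_add_right _ _) (Nat.le_add_left _ _)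
    omega
  have hfin : s * (q / 2 / 2 ^ n) ^ n ≤ b (Y.slice G) n' T (max k n) q := by
    unfold b OSM.dens
    unfold OSM.dens at hKB
    rw [hcardf, le_div_iff₀ (by positivity)] at hKB ⊢
    have e1 : N ^ (max k n) = N ^ k * N ^ (max k n - k) := by rw [← pow_add, ← hk']
    have h1 : (q / 2 / 2 ^ n) ^ n * N ^ (max k n - k) ≤
        (q / 2 / 2 ^ n * N) ^ (max k n - k) := by
      rw [mul_pow]
      exact mul_le_mul_of_nonneg_right hθn (pow_nonneg hN0.le _)
    have h2 := mul_le_mul hKB h1 (mul_nonneg (pow_nonneg hθ0.le _) (pow_nonneg hN0.le _))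
      (Nat.cast_nonneg _)
    rw [e1]
    calc s * (q / 2 / 2 ^ n) ^ n * (N ^ k * N ^ (max k n - k))
        = s * N ^ k * ((q / 2 / 2 ^ n) ^ n * N ^ (max k n - k)) := by ring
      _ ≤ _ := h2
      _ ≤ _ := hcard
  linarith

end Pool.Agent.NST
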