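import Pool.Agent.NST.Comp

/-!
# NST/CompM: composition for all levels

`comp_met`: induction on `l`. For `l + 1` apply the induction hypothesis to
`BB X (π l).k ((π l).q / 2) ((π l).s / 2)` and
`BB Y (max (π l).k n) (π l).q ((π l).s / 2 * ((π l).q / 2 / 2 ^ n) ^ n)`; then `Met_mono`, since by
`comp_one` (with `s := (π l).s / 2`) `cap n (BB X ..) (BB Y ..)` is contained in
`BB (cap n X Y) (π l).k (π l).q (π l).s`.

`Met_loc`: `Met l π X` is an event about the tree: `MF.loc` and `Ag 0` is vacuous.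
-/

set_option autoImplicit false

namespace Pool.Agent.NST

open Finset Pool.Agent.PTree Pool.Agent.OSM
open scoped Classical

variable {l : ℕ}

/-- The stronger parameters used at the first level of information. -/
noncomputable def halfP (π : ℕ → Par) : ℕ → Par := fun c =>
  ⟨(π c).k, (π c).q / 2, (π c).s / 2, half_pos (π c).hq,
    by have := (π c).hq; have := (π c).hq1; linarith, half_pos (π c).hs,
    by have := (π c).hs; have := (π c).hs1; linarith⟩

theorem plus_aux (κ : Par) (n : ℕ) :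
    0 < κ.s / 2 * (κ.q / 2 / 2 ^ n) ^ n ∧ κ.s / 2 * (κ.q / 2 / 2 ^ n) ^ n ≤ 1 := by
  have h1 := κ.hq
  have h2 := κ.hq1
  have h3 := κ.hs
  have h4 := κ.hs1
  have h5 : (0 : ℝ) < κ.q / 2 / 2 ^ n := by positivity
  have h6 : κ.q / 2 / 2 ^ n ≤ 1 := by
    rw [div_le_one (by positivity)]
    have : (1 : ℝ) ≤ 2 ^ n := one_le_pow₀ (by norm_num)
    linarith
  refine ⟨by positivity, ?_⟩
  have h7 : (κ.q / 2 / 2 ^ n) ^ n ≤ 1 := pow_le_one₀ h5.le h6
  have h8 : (0 : ℝ) < (κ.q / 2 / 2 ^ n) ^ n := by positivity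
  nlinarith

/-- The parameters used at the second level of information. -/
noncomputable def plusP (n : ℕ) (π : ℕ → Par) : ℕ → Par := fun c =>
  ⟨max (π c).k n, (π c).q, (π c).s / 2 * ((π c).q / 2 / 2 ^ n) ^ n, (π c).hq, (π c).hq1,
    (plus_aux (π c) n).1, (plus_aux (π c) n).2⟩

theorem comp_met {X Y : MF l} {n n' : ℕ} (h : n ≤ n') (π : ℕ → Par) {T : StrSet} {G : Pt}
    (hX : (Met l (halfP π) X).bad n T G) (hY : (Met l (plusP n π) Y).bad n' T G) :
    (Met l π (MF.cap n X Y)).bad n' T G := by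
  induction l generalizing T G with
  | zero => exact ⟨h, hX, hY⟩
  | succ l ih =>
    have h1 : (Met l (halfP π) (BB X (halfP π l).k (halfP π l).q (halfP π l).s)).bad n T G := hX
    have h2 : (Met l (plusP n π) (BB Y (plusP n π l).k (plusP n π l).q (plusP n π l).s)).bad
      n' T G := hY
    have h3 := ih h1 h2
    show (Met l π (BB (MF.cap n X Y) (π l).k (π l).q (π l).s)).bad n' T G
    refine Met_mono ?_ π n' T G h3
    rintro n'' T' G' ⟨h4, h5, h6⟩
    have h7 := comp_one (X := X) (Y := Y) (k := (π l).k) (π l).hq (half_pos (π l).hs) h4 h5 h6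
    rw [mul_div_cancel₀ (π l).s (two_ne_zero)] at h7
    exact h7

theorem Met_loc {X : MF l} {π : ℕ → Par} {n : ℕ} {T T' : StrSet} (h : Agree n T T') {G : Pt}
    (hX : (Met l π X).bad n T G) (G' : Pt) : (Met l π X).bad n T' G' :=
  (Met l π X).loc h (fun c hc => absurd hc (Nat.not_lt_zero c)) hX

end Pool.Agent.NST
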