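import Pool.Agent.NST.CompM

/-!
# NST/Conj: finite intersections of unblockable events

`Unb.and`. Let `Nb T1 m1 c1 ⊆ N`, and suppose `π` witnesses that `X.and Y` is viable on it. By
`Unb.exists` for `X` (parameters `halfP π`) there are `T ∈ Nb T1 m1 c1` and `n ≥ m1` with
`(Met l (halfP π) X).bad n T _`. Then `Nb T n c1 ⊆ Nb T1 m1 c1` (`Nb.subset`), `c1 < M T`, so by
`Unb.exists` for `Y` (parameters `plusP n π`) there are `T' ∈ Nb T n c1`, `n' ≥ n` with
`(Met l (plusP n π) Y).bad n' T' _`. The first also holds for `T'` (`Met_loc`, as `Agree n T T'`).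
By `comp_met`, `(Met l π (cap n X Y)).bad n' T' _`, and `cap n X Y` is contained in `X.and Y`
(`X.mono_le`): contradiction by `Met_mono`.

`unb_all`: induction on the finite set `s`; the empty intersection is always bad: `Met_of_all`
shows that it is viable on no `Nb T1 m1 c1` with `T1` a tree, `c1 < M T1` (`Nb.self`).

`exists_rep`: the restriction of `γ`.
-/

set_option autoImplicit false

namespace Pool.Agent.NST

open Finset Pool.Agent.PTree Pool.Agent.OSM
open scoped Classical

variable {l : ℕ}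

theorem Unb.and {X Y : MF l} {N : Set StrSet} (hX : Unb l X N) (hY : Unb l Y N) :
    Unb l (X.and Y) N := by
  intro T1 m1 c1 hT1 hc1 hN ⟨π, hπ⟩
  obtain ⟨T, hT, n, hn, hb⟩ := hX.exists hT1 hc1 hN (halfP π) m1
  have hsub : Nb T n c1 ⊆ Nb T1 m1 c1 := Nb.subset hT hn le_rfl
  obtain ⟨T', hT', n', hn', hb'⟩ := hY.exists hT.1 hT.2.2.2 (hsub.trans hN) (plusP n π) n
  have h1 : (Met l (halfP π) X).bad n T' (fun _ _ _ => false) :=
    Met_loc hT'.2.2.1 (hb (fun _ _ _ => false)) _
  have h2 := comp_met hn' π h1 (hb' (fun _ _ _ => false))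
  have h3 : (MF.cap n X Y).Le (X.and Y) := fun m T'' G h => ⟨X.mono_le h.1 h.2.1, h.2.2⟩
  exact hπ T' (hsub hT') n' _ (Met_mono h3 π _ _ _ h2)

/-- The intersection of finitely many events. -/
def allF {ι : Type} (s : Finset ι) (X : ι → MF l) : MF l where
  bad n T G := ∀ i ∈ s, (X i).bad n T G
  loc h h' hb i hi := (X i).loc h h' (hb i hi)
  mono hb i hi := (X i).mono (hb i hi)

theorem unb_all {ι : Type} (s : Finset ι) (X : ι → MF l) {N : Set StrSet}
    (h : ∀ i ∈ s, Unb l (X i) N) : Unb l (allF s X) N := by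
  induction s using Finset.induction_on with
  | empty =>
    intro T1 m1 c1 hT1 hc1 _ ⟨π, hπ⟩
    exact hπ T1 (Nb.self hT1 m1 hc1) 0 (fun _ _ _ => false)
      (Met_of_all (fun G i hi => absurd hi (Finset.notMem_empty i)) π _)
  | insert a s _ ih =>
    have h1 : Unb l (X a) N := h a (Finset.mem_insert_self a s)
    have h2 : Unb l (allF s X) N := ih fun i hi => h i (Finset.mem_insert_of_mem hi)
    refine (h1.and h2).mono ?_ subset_rfl
    intro n T G hb i hi
    rcases Finset.mem_insert.mp hi with rfl | hi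
    · exact hb.1
    · exact hb.2 i hi

/-- Representatives of the points up to agreement on the levels below `l` up to `n`. -/
def rep (l n : ℕ) (r : Fin l → Fin n → Fin n → Bool) : Pt := fun c i j =>
  if h : c < l ∧ i < n ∧ j < n then r ⟨c, h.1⟩ ⟨i, h.2.1⟩ ⟨j, h.2.2⟩ else false

theorem exists_rep (l n : ℕ) (γ : Pt) : ∃ r, Ag l n γ (rep l n r) := by
  refine ⟨fun c i j => γ c i j, fun c hc i hi j hj => ?_⟩
  unfold rep
  rw [dif_pos ⟨hc, hi, hj⟩]

end Pool.Agent.NST
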