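import Pool.Agent.NSE32.Tal

/-!
# NST/Design: kills with shifts (one-sided Talagrand inequality for a finite alphabet)

Proof. Let `f` be from `tal` (NSE32/Tal) for `Y`, `n = card V`, `N = card AA`. As in NSE32/TalUse, for
`ω : V0 → AA × Bool` and `p = (s, β)` let `η ω p v = ((ω (pr v)).1 + s v, decide ((ω (pr v)).2 = β v))`.
For fixed `ω` the map `p ↦ η ω p` is injective, hence
`Y.card * ∑ p, ∑ ω, 2 ^ cost (η ω p) (f ..) ≤ card (V0 → AA × Bool) * (2 N ^ 2) ^ n
≤ card (V0 → AA × Bool) * K * Y.card * (2 N) ^ n < 2 ^ (D + 1) * (2 N) ^ n * Y.card`,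
so for some `p` one has `∑ ω, 2 ^ cost < 2 ^ (D + 1)`, thus every cost is `≤ D`.
-/

set_option autoImplicit false

namespace Pool.Agent.NST

open Finset
open scoped Classical

open Pool.Agent.NSE32 (cost tal)

/-- The demands. -/
private noncomputable def dsEta {Al V V0 : Type} [AddCommGroup Al] (π : V → V0)
    (ω : V0 → Al × Bool) (p : (V → Al) × (V → Bool)) (v : V) : Al × Bool :=
  ((ω (π v)).1 + p.1 v, decide ((ω (π v)).2 = p.2 v))

private theorem dsEta_inj {Al V V0 : Type} [AddCommGroup Al] (π : V → V0)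
    (ω : V0 → Al × Bool) : Function.Injective (dsEta π ω) := by
  rintro ⟨s, β⟩ ⟨s', β'⟩ h
  have h1 : ∀ v, s v = s' v ∧ β v = β' v := by
    intro v
    have h2 := congrFun h v
    unfold dsEta at h2
    rw [Prod.mk.injEq] at h2
    obtain ⟨h3, h4⟩ := h2
    refine ⟨add_left_cancel h3, ?_⟩
    rw [decide_eq_decide] at h4
    simp only at h4
    cases hb : β v <;> cases hb' : β' v <;> cases ho : (ω (π v)).2 <;> simp_all
  rw [Prod.mk.injEq]
  exact ⟨funext fun v => (h1 v).1, funext fun v => (h1 v).2⟩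

private theorem zmod2_cases (x : ZMod 2) (b : Bool) :
    x = (if b = true then 1 else 0) ↔ decide (x = 1) = b := by
  revert x b
  decide

theorem design {V V0 AA : Type} [Fintype V] [Fintype V0] [Fintype AA] [AddCommGroup AA]
    (pr : V → V0) (Y : Finset (V → AA)) {K : ℝ} {D : ℕ}
    (hK : (Fintype.card (V → AA) : ℝ) ≤ K * Y.card)
    (hD : K * (Fintype.card (V0 → AA × ZMod 2) : ℝ) < 2 ^ (D + 1)) :
    ∃ (s : V → AA) (β : V → ZMod 2), ∀ τ : V0 → AA × ZMod 2, ∃ ω ∈ Y,
      (univ.filter fun v => (τ (pr v)).2 = β v ∧ ω v ≠ (τ (pr v)).1 + s v).card ≤ D := by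
  have hcp : (0 : ℝ) < Fintype.card (V → AA) := by
    have : Nonempty (V → AA) := ⟨fun _ => 0⟩
    exact_mod_cast Fintype.card_pos
  have hY : Y.Nonempty := by
    rw [nonempty_iff_ne_empty]
    rintro rfl
    simp only [card_empty, Nat.cast_zero, mul_zero] at hK
    linarith
  obtain ⟨f, hfY, hf⟩ := tal Y hY
  have hYp : (0 : ℝ) < Y.card := by exact_mod_cast card_pos.2 hY
  have hcard : (Fintype.card (V0 → AA × ZMod 2) : ℝ) = Fintype.card (V0 → AA × Bool) := by
    rw [Fintype.card_fun, Fintype.card_fun, Fintype.card_prod, Fintype.card_prod, ZMod.card,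
      Fintype.card_bool]
  rw [hcard] at hD
  set F : (V → AA) × (V → Bool) → ℝ := fun p =>
    ∑ ω : V0 → AA × Bool, (2 : ℝ) ^ cost (dsEta pr ω p) (f (dsEta pr ω p)) with hF
  have hsum : ∑ p, F p < ∑ _p : (V → AA) × (V → Bool), (2 : ℝ) ^ (D + 1) := by
    have h1 : ∑ p, F p ≤ (Fintype.card (V0 → AA × Bool) : ℝ) *
        ∑ η, (2 : ℝ) ^ cost η (f η) := by
      rw [hF]
      simp only
      rw [sum_comm]
      have h2 : ∀ ω : V0 → AA × Bool,
          ∑ p : (V → AA) × (V → Bool), (2 : ℝ) ^ cost (dsEta pr ω p) (f (dsEta pr ω p)) ≤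
            ∑ η, (2 : ℝ) ^ cost η (f η) := by
        intro ω
        calc _ = ∑ η ∈ (univ : Finset ((V → AA) × (V → Bool))).map
              ⟨dsEta pr ω, dsEta_inj pr ω⟩, (2 : ℝ) ^ cost η (f η) :=
              (sum_map _ ⟨dsEta pr ω, dsEta_inj pr ω⟩ (fun η => (2 : ℝ) ^ cost η (f η))).symm
          _ ≤ _ := sum_le_sum_of_subset_of_nonneg (subset_univ _) fun _ _ _ => by positivity
      calc _ ≤ ∑ _ω : V0 → AA × Bool, ∑ η, (2 : ℝ) ^ cost η (f η) :=
            sum_le_sum fun ω _ => h2 ω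
        _ = _ := by rw [sum_const, nsmul_eq_mul, Finset.card_univ]
    rw [sum_const, nsmul_eq_mul, Finset.card_univ]
    have h3 : (Fintype.card ((V → AA) × (V → Bool)) : ℝ) = (2 * (Fintype.card AA : ℝ)) ^
        Fintype.card V := by
      rw [Fintype.card_prod, Fintype.card_fun, Fintype.card_fun, Fintype.card_bool]
      push_cast
      rw [mul_pow]
      ring
    have h4 : (Fintype.card (V → AA) : ℝ) = (Fintype.card AA : ℝ) ^ Fintype.card V := by
      rw [Fintype.card_fun]
      push_cast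
      ring
    rw [h3]
    have hNp : (0 : ℝ) < (2 * (Fintype.card AA : ℝ)) ^ Fintype.card V := by
      have : Nonempty AA := ⟨0⟩
      have : (0 : ℝ) < Fintype.card AA := by exact_mod_cast Fintype.card_pos
      positivity
    rw [h4] at hK
    have h5 : (Y.card : ℝ) * ∑ p, F p <
        (Y.card : ℝ) * ((2 * (Fintype.card AA : ℝ)) ^ Fintype.card V * 2 ^ (D + 1)) := by
      calc (Y.card : ℝ) * ∑ p, F p ≤ (Y.card : ℝ) * ((Fintype.card (V0 → AA × Bool) : ℝ) *
            ∑ η, (2 : ℝ) ^ cost η (f η)) := mul_le_mul_of_nonneg_left h1 hYp.le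
        _ = (Fintype.card (V0 → AA × Bool) : ℝ) *
            ((Y.card : ℝ) * ∑ η, (2 : ℝ) ^ cost η (f η)) := by ring
        _ ≤ (Fintype.card (V0 → AA × Bool) : ℝ) *
            (2 * (Fintype.card AA : ℝ) ^ 2) ^ Fintype.card V :=
            mul_le_mul_of_nonneg_left hf (by positivity)
        _ = (Fintype.card (V0 → AA × Bool) : ℝ) * (Fintype.card AA : ℝ) ^ Fintype.card V *
            (2 * (Fintype.card AA : ℝ)) ^ Fintype.card V := by
            have : (2 * (Fintype.card AA : ℝ) ^ 2) = Fintype.card AA * (2 * Fintype.card AA) := by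
              ring
            rw [this, mul_pow]
            ring
        _ ≤ (Fintype.card (V0 → AA × Bool) : ℝ) * (K * Y.card) *
            (2 * (Fintype.card AA : ℝ)) ^ Fintype.card V :=
            mul_le_mul_of_nonneg_right (mul_le_mul_of_nonneg_left hK (by positivity)) hNp.le
        _ = (Y.card : ℝ) * ((2 * (Fintype.card AA : ℝ)) ^ Fintype.card V *
            (K * (Fintype.card (V0 → AA × Bool) : ℝ))) := by ring
        _ < _ := mul_lt_mul_of_pos_left (mul_lt_mul_of_pos_left hD hNp) hYp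
    exact lt_of_mul_lt_mul_left h5 hYp.le
  obtain ⟨p, -, hp⟩ := exists_lt_of_sum_lt hsum
  have hcost : ∀ ω, cost (dsEta pr ω p) (f (dsEta pr ω p)) ≤ D := by
    intro ω
    have h1 : (2 : ℝ) ^ cost (dsEta pr ω p) (f (dsEta pr ω p)) < 2 ^ (D + 1) :=
      (single_le_sum (f := fun ω => (2 : ℝ) ^ cost (dsEta pr ω p) (f (dsEta pr ω p)))
        (fun _ _ => by positivity) (mem_univ ω)).trans_lt hp
    have h2 := (pow_lt_pow_iff_right₀ (by norm_num)).1 h1
    omega
  refine ⟨p.1, fun v => if p.2 v = true then 1 else 0, fun τ => ?_⟩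
  set ω : V0 → AA × Bool := fun v => ((τ v).1, decide ((τ v).2 = 1)) with hω
  refine ⟨f (dsEta pr ω p), hfY _, ?_⟩
  refine le_trans (card_le_card ?_) (hcost ω)
  intro v hv
  rw [mem_filter] at hv
  obtain ⟨-, hv1, hv2⟩ := hv
  refine mem_filter.2 ⟨mem_univ _, ?_, hv2⟩
  have h3 := (zmod2_cases (τ (pr v)).2 (p.2 v)).1 hv1
  unfold dsEta
  simp only [decide_eq_true_eq]
  exact h3

end Pool.Agent.NST
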