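import Mathlib

/-!
# NST/Pat: a common pattern

Let `N = card Ω`. Let `Z1` be the set of the `z` with `N ≤ 2 * card {τ : z ∉ zbad τ}`. For `z ∉ Z1`,
`card {τ : z ∈ zbad τ} > N / 2`; so `(N / 2) * p (Z1ᶜ) ≤ ∑ τ, ∑ z ∈ zbad τ, p z ≤ N * p0 / 100`, and
`p Z1 ≥ (49 / 50) * p0 ≥ p0 / 2`. The sets `{z ∈ Z1 : {τ : z ∉ zbad τ} = G}`, `G` a finset of `Ω`
(`2 ^ N` of them), cover `Z1`, so one of them, `W0`, has mass at least `p0 / 2 / 2 ^ N =
p0 / 2 ^ (N + 1)`; it is nonempty, so `N ≤ 2 * G.card`. Let `W` be the set of the `z ∈ W0` with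
`p0 / (2 ^ (N + 2) * card Z) ≤ p z`; the others have mass at most `p0 / 2 ^ (N + 2)`.
-/

set_option autoImplicit false

namespace Pool.Agent.NST

open Finset
open scoped Classical

theorem pattern {Ω Z : Type} [Fintype Ω] [Nonempty Ω] [Fintype Z] (p : Z → ℝ)
    (hp : ∀ z, 0 ≤ p z) {p0 : ℝ} (hp0 : ∑ z, p z = p0) (hpos : 0 < p0)
    (zbad : Ω → Finset Z) (h : ∀ τ, ∑ z ∈ zbad τ, p z ≤ p0 / 100) :
    ∃ (G : Finset Ω) (W : Finset Z), Fintype.card Ω ≤ 2 * G.card ∧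
      (∀ z ∈ W, ∀ τ ∈ G, z ∉ zbad τ) ∧
      (∀ z ∈ W, p0 / (2 ^ (Fintype.card Ω + 2) * (Fintype.card Z : ℝ)) ≤ p z) ∧
      p0 / 2 ^ (Fintype.card Ω + 2) ≤ ∑ z ∈ W, p z := by
  have hne : Nonempty Z := by
    by_contra hcon
    rw [not_nonempty_iff] at hcon
    rw [Fintype.sum_empty] at hp0
    linarith
  have hn : 0 < (Fintype.card Z : ℝ) := by exact_mod_cast Fintype.card_pos
  have hT0 : 0 < (Fintype.card Ω : ℝ) := by exact_mod_cast Fintype.card_pos
  obtain ⟨N, hN⟩ : ∃ N, N = Fintype.card Ω := ⟨_, rfl⟩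
  rw [← hN]
  set Bz : Z → Finset Ω := fun z => univ.filter fun t => z ∈ zbad t with hBz
  set Z₁ : Finset Z := univ.filter fun z => Fintype.card Ω < 2 * (Bz z).card with hZ₁
  set Z₂ : Finset Z := univ.filter fun z => p z < p0 / (2 ^ (N + 2) * (Fintype.card Z : ℝ))
    with hZ₂
  set Z₃ : Finset Z := univ.filter fun z => z ∉ Z₁ with hZ₃
  have h1 : ∑ z, p z * ((Bz z).card : ℝ) ≤ (Fintype.card Ω : ℝ) * (p0 / 100) := by
    have h2 : ∀ z, p z * ((Bz z).card : ℝ) = ∑ t : Ω, if z ∈ zbad t then p z else 0 := by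
      intro z
      rw [← Finset.sum_filter, Finset.sum_const, nsmul_eq_mul, mul_comm]
    simp_rw [h2]
    rw [Finset.sum_comm]
    calc ∑ t : Ω, ∑ z : Z, (if z ∈ zbad t then p z else 0)
        = ∑ t : Ω, ∑ z ∈ zbad t, p z := by
          refine Finset.sum_congr rfl fun t _ => ?_
          rw [← Finset.sum_filter]
          congr 1
          ext z
          simp
      _ ≤ ∑ _t : Ω, p0 / 100 := Finset.sum_le_sum fun t _ => h t
      _ = _ := by rw [Finset.sum_const, nsmul_eq_mul, Finset.card_univ]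
  have h2 : ∑ z ∈ Z₁, p z ≤ p0 / 50 := by
    have h3 : (∑ z ∈ Z₁, p z) * (Fintype.card Ω : ℝ) ≤ 2 * ∑ z, p z * ((Bz z).card : ℝ) := by
      rw [Finset.sum_mul, Finset.mul_sum]
      calc ∑ z ∈ Z₁, p z * (Fintype.card Ω : ℝ) ≤ ∑ z ∈ Z₁, 2 * (p z * ((Bz z).card : ℝ)) := by
            refine Finset.sum_le_sum fun z hz => ?_
            have h4 : Fintype.card Ω < 2 * (Bz z).card := (Finset.mem_filter.1 hz).2
            have h5 : (Fintype.card Ω : ℝ) ≤ 2 * ((Bz z).card : ℝ) := by exact_mod_cast h4.le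
            nlinarith [mul_le_mul_of_nonneg_left h5 (hp z)]
        _ ≤ ∑ z, 2 * (p z * ((Bz z).card : ℝ)) := by
            refine Finset.sum_le_sum_of_subset_of_nonneg (Finset.subset_univ _) fun z _ _ => ?_
            have := hp z
            positivity
    have h4 : (∑ z ∈ Z₁, p z) * (Fintype.card Ω : ℝ) ≤ (p0 / 50) * (Fintype.card Ω : ℝ) := by
      calc _ ≤ _ := h3
        _ ≤ 2 * ((Fintype.card Ω : ℝ) * (p0 / 100)) := by linarith
        _ = _ := by ring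
    exact le_of_mul_le_mul_right h4 hT0
  have h3 : ∑ z ∈ Z₂, p z ≤ p0 / 2 ^ (N + 2) := by
    calc ∑ z ∈ Z₂, p z ≤ ∑ z ∈ Z₂, p0 / (2 ^ (N + 2) * (Fintype.card Z : ℝ)) :=
          Finset.sum_le_sum fun z hz => (Finset.mem_filter.1 hz).2.le
      _ = (Z₂.card : ℝ) * (p0 / (2 ^ (N + 2) * (Fintype.card Z : ℝ))) := by
          rw [Finset.sum_const, nsmul_eq_mul]
      _ ≤ (Fintype.card Z : ℝ) * (p0 / (2 ^ (N + 2) * (Fintype.card Z : ℝ))) := by
          refine mul_le_mul_of_nonneg_right ?_ (by positivity)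
          exact_mod_cast Finset.card_le_univ _
      _ = p0 / 2 ^ (N + 2) := by field_simp
  have h4 : p0 / 2 ≤ ∑ z ∈ Z₃, p z := by
    have h5 : ∑ z, p z ≤ ∑ z ∈ Z₁, p z + ∑ z ∈ Z₃, p z := by
      have e : ∀ S : Finset Z, ∑ z ∈ S, p z = ∑ z, if z ∈ S then p z else 0 := by
        intro S
        rw [← Finset.sum_filter]
        congr 1
        ext z
        simp
      rw [e Z₁, e Z₃, ← Finset.sum_add_distrib]
      refine Finset.sum_le_sum fun z _ => ?_
      have h6 := hp z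
      have h7 : z ∈ Z₃ ↔ z ∉ Z₁ := by
        rw [hZ₃, Finset.mem_filter]
        exact ⟨fun h => h.2, fun h => ⟨Finset.mem_univ _, h⟩⟩
      by_cases ha : z ∈ Z₁
      · rw [if_pos ha, if_neg (fun h => (h7.1 h) ha)]
        linarith
      · rw [if_neg ha, if_pos (h7.2 ha)]
        linarith
    rw [hp0] at h5
    linarith
  have h5 : ∑ S : Finset Ω, ∑ z ∈ Z₃ with (univ.filter fun t => z ∉ zbad t) = S, p z =
      ∑ z ∈ Z₃, p z := Finset.sum_fiberwise _ _ _
  have hpow : (0 : ℝ) < 2 ^ N := by positivity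
  obtain ⟨Gd, -, hGd⟩ : ∃ S ∈ (univ : Finset (Finset Ω)), p0 / 2 ^ (N + 1) ≤
      ∑ z ∈ Z₃ with (univ.filter fun t => z ∉ zbad t) = S, p z := by
    refine Finset.exists_le_of_sum_le Finset.univ_nonempty ?_
    rw [h5, Finset.sum_const, Finset.card_univ, Fintype.card_finset, nsmul_eq_mul, ← hN]
    refine le_trans (le_of_eq ?_) h4
    push_cast
    rw [pow_succ]
    field_simp
  obtain ⟨W0, hW0⟩ : ∃ W0 : Finset Z,
      W0 = Z₃.filter fun z => (univ.filter fun t => z ∉ zbad t) = Gd := ⟨_, rfl⟩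
  rw [← hW0] at hGd
  refine ⟨Gd, W0.filter fun z => z ∉ Z₂, ?_, ?_, ?_, ?_⟩
  · have h6 : W0.Nonempty := by
      by_contra hne
      rw [Finset.not_nonempty_iff_eq_empty] at hne
      rw [hne, Finset.sum_empty] at hGd
      have : 0 < p0 / 2 ^ (N + 1) := by positivity
      linarith
    obtain ⟨z, hz⟩ := h6
    rw [hW0, Finset.mem_filter] at hz
    obtain ⟨hz3, hzG⟩ := hz
    have hz1 : z ∉ Z₁ := (Finset.mem_filter.1 hz3).2
    have h7 : 2 * (Bz z).card ≤ Fintype.card Ω := by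
      by_contra h
      exact hz1 (Finset.mem_filter.2 ⟨Finset.mem_univ _, not_le.1 h⟩)
    have h8 : (Bz z).card + Gd.card = Fintype.card Ω := by
      rw [← hzG, hBz]
      exact Finset.card_filter_add_card_filter_not (s := univ) (fun t => z ∈ zbad t)
    omega
  · intro z hz t ht
    have hz0 := (Finset.mem_filter.1 hz).1
    rw [hW0] at hz0
    have hzG := (Finset.mem_filter.1 hz0).2
    rw [← hzG] at ht
    exact (Finset.mem_filter.1 ht).2
  · intro z hz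
    have hz2 : z ∉ Z₂ := (Finset.mem_filter.1 hz).2
    by_contra h
    exact hz2 (Finset.mem_filter.2 ⟨Finset.mem_univ _, not_le.1 h⟩)
  · have h6 : ∑ z ∈ W0, p z ≤ ∑ z ∈ W0 with z ∉ Z₂, p z + ∑ z ∈ Z₂, p z := by
      rw [← Finset.sum_filter_add_sum_filter_not W0 (fun z => z ∉ Z₂)]
      have : ∑ z ∈ W0 with ¬ z ∉ Z₂, p z ≤ ∑ z ∈ Z₂, p z := by
        refine Finset.sum_le_sum_of_subset_of_nonneg ?_ fun z _ _ => hp z
        intro z hz
        exact not_not.1 (Finset.mem_filter.1 hz).2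
      linarith
    have h7 : p0 / 2 ^ (N + 1) = p0 / 2 ^ (N + 2) + p0 / 2 ^ (N + 2) := by
      rw [pow_succ (2 : ℝ) (N + 1)]
      field_simp
      ring
    linarith

end Pool.Agent.NST
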