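import Pool.Agent.NST.Info
import Pool.Agent.OSM.Greedy

/-!
# NST/Res: a common reservoir for half of the mixtures

Compare the proof of `reservoir` in OSM/Reservoir (copy its auxiliary definitions `wt`, `Vs`).
Let `M = card Y`, `p0 = P.pr l x y`, `Q = Q τ` with `τ ∈ G`. For `z ∈ W`, as `z ∉ zb Q P l x y`:
`Q.pr (l + 1) x (snoc y z) * p0 ≥ Q.pr l x y * P.pr (l + 1) x (snoc y z) / 2 ≥
Q.pr l x y * θ * p0 / (2 * M)`, so `Q.pr (l + 1) x (snoc y z) ≥ Q.pr l x y * θ / (2 * M)`.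
Let `wt a = (if Q.x a = x then Q.w a * ∏ i, Q.f a (y i) else 0)`, with sum `Q.pr l x y > 0`
(`≥ p0 / 4`), and `π a = wt a / Q.pr l x y`, a law on the states; `∑ a, π a * f_a z ≥ θ / (2 * M)`.
As `f_a z ≤ (1 / q) / M`, the `π`-mass of the states with `f_a z ≥ θ / (4 * M)` is at least
`q * θ / 4 = β`. Let `V_a = {z : θ / (4 * M) ≤ f_a z}` and `ν τ V = π {a : V_a = V}`. By `greedy`
(with `N = G.card`, `G.equivFin`) there are `V τ`, `τ ∈ G`, with `ν τ (V τ) ≥ β / 2 / 2 ^ M`, and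
`R = {z ∈ W : z ∈ V τ for all τ ∈ G}` has `dens R ≥ (β / 2) ^ G.card * dens W`. And
`dens W ≥ q * θ`, because `P.pr (l + 1) x (snoc y z) ≤ p0 * ((1 / q) / M)`.
Low bound: for `z` with values in `R`,
`Q.pr (l + r) x (append y z) = ∑ a, wt a * ∏ t, f_a (z t)` (`Mx.pr_append`) is at least the sum over
the `a` with `V_a = V τ`, so at least `Q.pr l x y * ν τ (V τ) * (θ / (4 * M)) ^ r`.
State: as `ν τ (V τ) > 0` there is `a` with `V_a = V τ ⊇ R` and `π a > 0`.
-/

set_option autoImplicit false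

namespace Pool.Agent.NST

open Finset Pool.Agent.PTree Pool.Agent.OSM
open scoped Classical

section aux
variable {X Y : Type} [Fintype X] [Fintype Y]

/-- The law of the state given `(x, y)`, times the probability of `(x, y)`. -/
private noncomputable def wtR (Q : Mx X Y) (l : ℕ) (x : X) (y : Fin l → Y) (a : Q.ι) : ℝ :=
  if Q.x a = x then Q.w a * ∏ i, Q.f a (y i) else 0

private theorem wtR_nonneg {Q : Mx X Y} (hQ : Q.Ok) (l : ℕ) (x : X) (y : Fin l → Y) (a : Q.ι) :
    0 ≤ wtR Q l x y a := by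
  unfold wtR
  split_ifs
  · exact mul_nonneg (hQ.w_nonneg a) (Finset.prod_nonneg fun i _ => hQ.f_nonneg a _)
  · exact le_rfl

private theorem wtR_sum (Q : Mx X Y) (l : ℕ) (x : X) (y : Fin l → Y) :
    ∑ a, wtR Q l x y a = Q.pr l x y := rfl

private theorem wtR_snoc (Q : Mx X Y) (l : ℕ) (x : X) (y : Fin l → Y) (z : Y) :
    Q.pr (l + 1) x (Fin.snoc y z) = ∑ a, wtR Q l x y a * Q.f a z := by
  rw [Mx.pr_snoc]
  refine sum_congr rfl fun a _ => ?_
  unfold wtR
  split_ifs
  · rfl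
  · rw [zero_mul]

private theorem wtR_append (Q : Mx X Y) (l r : ℕ) (x : X) (y : Fin l → Y) (z : Fin r → Y) :
    Q.pr (l + r) x (Fin.append y z) = ∑ a, wtR Q l x y a * ∏ t, Q.f a (z t) := by
  rw [Mx.pr_append]
  refine sum_congr rfl fun a _ => ?_
  unfold wtR
  split_ifs
  · rfl
  · rw [zero_mul]

private theorem snocR_le {P : Mx X Y} (hP : P.Ok) {K : ℝ} (hK : ∀ a z, P.f a z ≤ K) (l : ℕ) (x : X)
    (y : Fin l → Y) (z : Y) : P.pr (l + 1) x (Fin.snoc y z) ≤ P.pr l x y * K := by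
  rw [wtR_snoc, ← wtR_sum, sum_mul]
  exact sum_le_sum fun a _ => mul_le_mul_of_nonneg_left (hK a z) (wtR_nonneg hP l x y a)

/-- the states with a large probability of `z`: the set of the large `z` -/
private noncomputable def VsR (θ : ℝ) (Q : Mx X Y) (a : Q.ι) : Finset Y :=
  univ.filter fun z => θ / (4 * (Fintype.card Y : ℝ)) ≤ Q.f a z

private theorem reservoir2_fin [Nonempty Y] {P : Mx X Y} (hP : P.Ok)
    {q : ℝ} (hq : 0 < q) (hq1 : q ≤ 1) (hPf : ∀ a z, P.f a z ≤ (1 / q) / (Fintype.card Y : ℝ))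
    {N : ℕ} (Q : Fin N → Mx X Y) (hQ : ∀ i, (Q i).Ok)
    (hQf : ∀ i a z, (Q i).f a z ≤ (1 / q) / (Fintype.card Y : ℝ)) (l : ℕ) (x : X)
    (y : Fin l → Y) (hpos : 0 < P.pr l x y) (hhead : ∀ i, P.pr l x y / 4 ≤ (Q i).pr l x y)
    {θ : ℝ} (hθ : 0 < θ) (hθ1 : θ ≤ 1) (W : Finset Y)
    (hW1 : ∀ z ∈ W, θ * P.pr l x y / (Fintype.card Y : ℝ) ≤ P.pr (l + 1) x (Fin.snoc y z))
    (hW2 : θ * P.pr l x y ≤ ∑ z ∈ W, P.pr (l + 1) x (Fin.snoc y z))
    (hW3 : ∀ i, ∀ z ∈ W, z ∉ zb (Q i) P l x y) :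
    ∃ R : Finset Y, (q * θ / 8) ^ N * (q * θ) ≤ OSM.dens R ∧
      (∀ i, ∀ (r : ℕ) (z : Fin r → Y), (∀ t, z t ∈ R) →
        P.pr l x y / 4 * (q * θ / 8 / 2 ^ Fintype.card Y) *
          (θ / (4 * (Fintype.card Y : ℝ))) ^ r ≤ (Q i).pr (l + r) x (Fin.append y z)) ∧
      ∀ i, ∃ a : (Q i).ι, (Q i).x a = x ∧ (∀ t, 0 < (Q i).f a (y t)) ∧
        ∀ z ∈ R, 0 < (Q i).f a z := by
  have hM : 0 < (Fintype.card Y : ℝ) := by exact_mod_cast Fintype.card_pos
  have hVdef : ∀ i a z, z ∈ VsR θ (Q i) a → θ / (4 * (Fintype.card Y : ℝ)) ≤ (Q i).f a z := by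
    intro i a z hz
    unfold VsR at hz
    exact (mem_filter.1 hz).2
  have hVdef' : ∀ i a z, z ∉ VsR θ (Q i) a → (Q i).f a z < θ / (4 * (Fintype.card Y : ℝ)) := by
    intro i a z hz
    by_contra h
    apply hz
    unfold VsR
    exact mem_filter.2 ⟨mem_univ _, not_lt.1 h⟩
  have hqt : 0 < q * θ := mul_pos hq hθ
  have hqt1 : q * θ ≤ 1 := mul_le_one₀ hq1 hθ.le hθ1
  -- the heads
  have hQpos : ∀ i, 0 < (Q i).pr l x y := fun i => lt_of_lt_of_le (by positivity) (hhead i)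
  have hdW : q * θ ≤ OSM.dens W := by
    have h1 : ∑ z ∈ W, P.pr (l + 1) x (Fin.snoc y z) ≤
        ∑ _z ∈ W, P.pr l x y * (1 / q / (Fintype.card Y : ℝ)) :=
      sum_le_sum fun z _ => snocR_le hP hPf l x y z
    rw [sum_const, nsmul_eq_mul] at h1
    have h2 := hW2.trans h1
    unfold OSM.dens
    generalize P.pr l x y = p0 at *
    generalize (Fintype.card Y : ℝ) = M at *
    rw [le_div_iff₀ hM]
    have h3 : (W.card : ℝ) * (p0 * (1 / q / M)) = (W.card : ℝ) / (q * M) * p0 := by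
      field_simp
    rw [h3] at h2
    have h4 : θ ≤ (W.card : ℝ) / (q * M) := le_of_mul_le_mul_right h2 hpos
    rw [le_div_iff₀ (by positivity)] at h4
    linarith
  -- the tails
  have htail : ∀ i, ∀ z ∈ W, (Q i).pr l x y * (θ / (2 * (Fintype.card Y : ℝ))) ≤
      (Q i).pr (l + 1) x (Fin.snoc y z) := by
    intro i z hz
    have h3 := hW3 i z hz
    unfold zb at h3
    rw [mem_filter] at h3
    simp only [mem_univ, true_and, not_lt] at h3
    have h1 := hW1 z hz
    have h7 := hQpos i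
    have h9 : (Q i).pr l x y * (θ * P.pr l x y / (Fintype.card Y : ℝ)) ≤
        (Q i).pr l x y * P.pr (l + 1) x (Fin.snoc y z) := mul_le_mul_of_nonneg_left h1 h7.le
    have h11 : P.pr l x y * ((Q i).pr l x y * (θ / (2 * (Fintype.card Y : ℝ)))) ≤
        P.pr l x y * (Q i).pr (l + 1) x (Fin.snoc y z) := by
      have e : P.pr l x y * ((Q i).pr l x y * (θ / (2 * (Fintype.card Y : ℝ)))) =
          (Q i).pr l x y * (θ * P.pr l x y / (Fintype.card Y : ℝ)) / 2 := by
        field_simp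
      rw [e]
      linarith
    exact le_of_mul_le_mul_left h11 hpos
  -- the law of the patterns
  obtain ⟨ν, hν⟩ : ∃ ν : Fin N → Finset Y → ℝ, ν = fun i V =>
    ∑ a, if VsR θ (Q i) a = V then wtR (Q i) l x y a / (Q i).pr l x y else 0 := ⟨_, rfl⟩
  have hν0 : ∀ i V, 0 ≤ ν i V := by
    intro i V
    rw [hν]
    refine sum_nonneg fun a _ => ?_
    split_ifs
    · exact div_nonneg (wtR_nonneg (hQ i) l x y a) (hQpos i).le
    · exact le_rfl
  have hν1 : ∀ i, ∑ V : Finset Y, ν i V = 1 := by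
    intro i
    rw [hν]
    simp only
    rw [sum_comm]
    simp only [sum_ite_eq, mem_univ, if_true]
    rw [← sum_div, wtR_sum, div_self (hQpos i).ne']
  have hβ : ∀ i, ∀ z ∈ W, q * θ / 4 ≤ ∑ V : Finset Y, if z ∈ V then ν i V else 0 := by
    intro i z hz
    have e1 : (∑ V : Finset Y, if z ∈ V then ν i V else 0) =
        ∑ a, if z ∈ VsR θ (Q i) a then wtR (Q i) l x y a / (Q i).pr l x y else 0 := by
      have e2 : ∀ V : Finset Y, (if z ∈ V then ν i V else 0) =
          ∑ a, if VsR θ (Q i) a = V then (if z ∈ VsR θ (Q i) a then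
            wtR (Q i) l x y a / (Q i).pr l x y else 0) else 0 := by
        intro V
        rw [hν]
        simp only
        split_ifs with h
        · refine sum_congr rfl fun a _ => ?_
          split_ifs with h1 h2
          · rfl
          · rw [h1] at h2; exact absurd h h2
          · rfl
        · symm
          refine sum_eq_zero fun a _ => ?_
          split_ifs with h1 h2
          · rw [h1] at h2; exact absurd h2 h
          · rfl
          · rfl
      simp only [e2]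
      rw [sum_comm]
      simp only [sum_ite_eq, mem_univ, if_true]
    rw [e1]
    obtain ⟨Sm, hSm⟩ : ∃ Sm, Sm = ∑ a, if z ∈ VsR θ (Q i) a then
      wtR (Q i) l x y a / (Q i).pr l x y else 0 := ⟨_, rfl⟩
    rw [← hSm]
    have h1 : ∑ a, wtR (Q i) l x y a / (Q i).pr l x y * (Q i).f a z ≤
        Sm * (1 / q / (Fintype.card Y : ℝ)) + θ / (4 * (Fintype.card Y : ℝ)) := by
      have h2 : ∀ a, wtR (Q i) l x y a / (Q i).pr l x y * (Q i).f a z ≤
          (if z ∈ VsR θ (Q i) a then wtR (Q i) l x y a / (Q i).pr l x y else 0) *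
              (1 / q / (Fintype.card Y : ℝ)) +
            wtR (Q i) l x y a / (Q i).pr l x y * (θ / (4 * (Fintype.card Y : ℝ))) := by
        intro a
        have h3 : 0 ≤ wtR (Q i) l x y a / (Q i).pr l x y :=
          div_nonneg (wtR_nonneg (hQ i) l x y a) (hQpos i).le
        have h4 : 0 ≤ θ / (4 * (Fintype.card Y : ℝ)) := by positivity
        split_ifs with h
        · have h5 := mul_le_mul_of_nonneg_left (hQf i a z) h3
          have h6 := mul_nonneg h3 h4
          linarith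
        · have h5 := mul_le_mul_of_nonneg_left (hVdef' i a z h).le h3
          rw [zero_mul, zero_add]
          exact h5
      refine (sum_le_sum fun a _ => h2 a).trans (le_of_eq ?_)
      rw [sum_add_distrib, ← sum_mul, ← sum_mul, ← sum_div, wtR_sum, div_self (hQpos i).ne',
        one_mul, hSm]
    have h2 : ∑ a, wtR (Q i) l x y a / (Q i).pr l x y * (Q i).f a z =
        (Q i).pr (l + 1) x (Fin.snoc y z) / (Q i).pr l x y := by
      rw [wtR_snoc, sum_div]
      exact sum_congr rfl fun a _ => by ring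
    have h3 : θ / (2 * (Fintype.card Y : ℝ)) ≤
        (Q i).pr (l + 1) x (Fin.snoc y z) / (Q i).pr l x y := by
      rw [le_div_iff₀ (hQpos i), mul_comm]
      exact htail i z hz
    rw [h2] at h1
    generalize (Fintype.card Y : ℝ) = M at *
    have h4 : θ / (4 * M) ≤ Sm * (1 / q / M) := by
      have e : θ / (2 * M) = θ / (4 * M) + θ / (4 * M) := by field_simp; norm_num
      linarith
    have h5 : θ / (4 * M) * (q * M) ≤ Sm * (1 / q / M) * (q * M) :=
      mul_le_mul_of_nonneg_right h4 (by positivity)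
    have e6 : θ / (4 * M) * (q * M) = q * θ / 4 := by field_simp
    have e7 : Sm * (1 / q / M) * (q * M) = Sm := by field_simp
    rw [e6, e7] at h5
    exact h5
  obtain ⟨V, hV, hR⟩ := greedy ν hν0 hν1 W (β := q * θ / 4) (by positivity) (by linarith) hβ
  have e128 : q * θ / 4 / 2 = q * θ / 8 := by ring
  rw [e128] at hR
  simp only [e128] at hV
  refine ⟨W.filter fun z => ∀ i, z ∈ V i, ?_, ?_, ?_⟩
  · refine le_trans ?_ hR
    exact mul_le_mul_of_nonneg_left hdW (by positivity)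
  · intro i r z hz
    rw [wtR_append]
    have h1 : (Q i).pr l x y * ν i (V i) * (θ / (4 * (Fintype.card Y : ℝ))) ^ r ≤
        ∑ a, wtR (Q i) l x y a * ∏ t, (Q i).f a (z t) := by
      rw [hν]
      simp only
      rw [mul_sum, sum_mul]
      refine sum_le_sum fun a _ => ?_
      have h2 := wtR_nonneg (hQ i) l x y a
      split_ifs with h
      · have e : (Q i).pr l x y * (wtR (Q i) l x y a / (Q i).pr l x y) = wtR (Q i) l x y a := by
          have := (hQpos i).ne'
          field_simp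
        rw [e]
        refine mul_le_mul_of_nonneg_left ?_ h2
        have h3 : ∏ _t : Fin r, (θ / (4 * (Fintype.card Y : ℝ))) ≤ ∏ t, (Q i).f a (z t) := by
          refine Finset.prod_le_prod (fun t _ => by positivity) fun t _ => ?_
          have h4 := (mem_filter.1 (hz t)).2 i
          rw [← h] at h4
          exact hVdef i a _ h4
        rwa [Finset.prod_const, Finset.card_univ, Fintype.card_fin] at h3
      · rw [mul_zero, zero_mul]
        exact mul_nonneg h2 (Finset.prod_nonneg fun t _ => (hQ i).f_nonneg a _)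
    refine le_trans ?_ h1
    refine mul_le_mul_of_nonneg_right ?_ (by positivity)
    exact mul_le_mul (hhead i) (hV i) (by positivity) (hQpos i).le
  · intro i
    have h1 : 0 < ν i (V i) := lt_of_lt_of_le (by positivity) (hV i)
    have h2 : ∃ a, 0 < (if VsR θ (Q i) a = V i then wtR (Q i) l x y a / (Q i).pr l x y else 0) := by
      by_contra hc
      simp only [not_exists, not_lt] at hc
      rw [hν] at h1
      exact absurd h1 (not_lt.2 (sum_nonpos fun a _ => hc a))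
    obtain ⟨a, ha⟩ := h2
    split_ifs at ha with h
    · have hw : 0 < wtR (Q i) l x y a := by
        rcases (wtR_nonneg (hQ i) l x y a).eq_or_lt with h3 | h3
        · rw [← h3, zero_div] at ha; exact absurd ha (lt_irrefl _)
        · exact h3
      unfold wtR at hw
      split_ifs at hw with h3
      · refine ⟨a, h3, ?_, ?_⟩
        · intro t
          rcases ((hQ i).f_nonneg a (y t)).eq_or_lt with h4 | h4
          · exfalso
            rw [Finset.prod_eq_zero (mem_univ t) h4.symm, mul_zero] at hw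
            exact lt_irrefl _ hw
          · exact h4
        · intro z hz
          have h4 := (mem_filter.1 hz).2 i
          rw [← h] at h4
          exact lt_of_lt_of_le (by positivity) (hVdef i a z h4)
      · exact absurd hw (lt_irrefl _)
    · exact absurd ha (lt_irrefl _)

end aux

theorem reservoir2 {Ω X Y : Type} [Fintype X] [Fintype Y] [Nonempty Y] {P : Mx X Y} (hP : P.Ok)
    {q : ℝ} (hq : 0 < q) (hq1 : q ≤ 1) (hPf : ∀ a z, P.f a z ≤ (1 / q) / (Fintype.card Y : ℝ))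
    (G : Finset Ω) (Q : Ω → Mx X Y) (hQ : ∀ τ ∈ G, (Q τ).Ok)
    (hQf : ∀ τ ∈ G, ∀ a z, (Q τ).f a z ≤ (1 / q) / (Fintype.card Y : ℝ)) (l : ℕ) (x : X)
    (y : Fin l → Y) (hpos : 0 < P.pr l x y) (hhead : ∀ τ ∈ G, P.pr l x y / 4 ≤ (Q τ).pr l x y)
    {θ : ℝ} (hθ : 0 < θ) (hθ1 : θ ≤ 1) (W : Finset Y)
    (hW1 : ∀ z ∈ W, θ * P.pr l x y / (Fintype.card Y : ℝ) ≤ P.pr (l + 1) x (Fin.snoc y z))
    (hW2 : θ * P.pr l x y ≤ ∑ z ∈ W, P.pr (l + 1) x (Fin.snoc y z))
    (hW3 : ∀ τ ∈ G, ∀ z ∈ W, z ∉ zb (Q τ) P l x y) :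
    ∃ R : Finset Y, (q * θ / 8) ^ G.card * (q * θ) ≤ OSM.dens R ∧
      (∀ τ ∈ G, ∀ (r : ℕ) (z : Fin r → Y), (∀ t, z t ∈ R) →
        P.pr l x y / 4 * (q * θ / 8 / 2 ^ Fintype.card Y) *
          (θ / (4 * (Fintype.card Y : ℝ))) ^ r ≤ (Q τ).pr (l + r) x (Fin.append y z)) ∧
      ∀ τ ∈ G, ∃ a : (Q τ).ι, (Q τ).x a = x ∧ (∀ t, 0 < (Q τ).f a (y t)) ∧
        ∀ z ∈ R, 0 < (Q τ).f a z := by
  obtain ⟨e⟩ : Nonempty (G ≃ Fin G.card) := ⟨G.equivFin⟩
  obtain ⟨R, h1, h2, h3⟩ := reservoir2_fin hP hq hq1 hPf (N := G.card)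
    (fun i => Q (e.symm i).1) (fun i => hQ _ (e.symm i).2) (fun i => hQf _ (e.symm i).2) l x y hpos
    (fun i => hhead _ (e.symm i).2) hθ hθ1 W hW1 hW2 (fun i => hW3 _ (e.symm i).2)
  have he : ∀ (τ : Ω) (hτ : τ ∈ G), (e.symm (e ⟨τ, hτ⟩)).1 = τ := by
    intro τ hτ
    rw [Equiv.symm_apply_apply]
  refine ⟨R, h1, ?_, ?_⟩
  · intro τ hτ
    have h := h2 (e ⟨τ, hτ⟩)
    beta_reduce at h
    rw [he τ hτ] at h
    exact h
  · intro τ hτ
    have h := h3 (e ⟨τ, hτ⟩)
    beta_reduce at h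
    rw [he τ hτ] at h
    exact h

end Pool.Agent.NST
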