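import Pool.Agent.NST.Typ
import Pool.Agent.NST.Pat
import Pool.Agent.NST.Res
import Pool.Agent.NST.Design

/-!
# NST/Core: the finite core of the induction step

`Om V0 𝔸 = V0 → 𝔸 × ZMod 2` are the kills of the new level, `N = card (Om V0 𝔸)`, `θ = thN N`.
Proof. `typical2` gives `j`, `(x, y)`, `Yg`. Let `Y0 : Finset (V → 𝔸)` be the image of `Yg` under
`Subtype.val` (same cardinality). `card (V → 𝔸) ≤ 2 * Wb.card = 2 * card I ≤ K * Y0.card` with
`K = 160 / (s * q ^ (2 * J0))`. `design` gives `s'`, `β` and for each `τ` some `ω ∈ Y0`, chosen as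
`ωf τ : I` in `Yg`. `pattern` with `Z = Y`, `p z = (avg P).pr (j + 1) x (snoc y z)`,
`p0 = (avg P).pr j x y` (`Mx.pr_succ`), `zbad τ = zb (P (ωf τ)) (avg P) j x y`. `reservoir2` with the
mixtures `P (ωf τ)` and `θ = thN N = 1 / 2 ^ (N + 2)` (`avg_ok`; the densities of `avg P` are those
of the `P i`). `(q * θ / 8) ^ G.card ≥ (q * θ / 8) ^ N`, as `q * θ / 8 ≤ 1`. Finally
`p0 ≥ 1 / (10 * (card X * card Y ^ j)) ≥ 1 / (10 * (card X * card Y ^ (2 * J0)))`.
-/

set_option autoImplicit false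

namespace Pool.Agent.NST

open Finset Pool.Agent.PTree Pool.Agent.OSM
open scoped Classical

/-- The fraction kept. -/
noncomputable def thN (N : ℕ) : ℝ := 1 / 2 ^ (N + 2)

/-- The density of the common reservoir. -/
noncomputable def rhoN (q : ℝ) (N : ℕ) : ℝ := (q * thN N / 8) ^ N * (q * thN N)

/-- The lower bound for the probabilities. -/
noncomputable def lowN (q : ℝ) (N cX cY J0 r : ℕ) : ℝ :=
  1 / (10 * ((cX : ℝ) * (cY : ℝ) ^ (2 * J0))) / 4 * (q * thN N / 8 / 2 ^ cY) *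
    (thN N / (4 * (cY : ℝ))) ^ r

theorem thN_pos (N : ℕ) : 0 < thN N := by unfold thN; positivity

theorem thN_le (N : ℕ) : thN N ≤ 1 := by
  unfold thN
  rw [div_le_one (by positivity)]
  exact one_le_pow₀ (by norm_num)

theorem core {V V0 AA X Y : Type} [Fintype V] [Fintype V0] [Fintype AA] [AddCommGroup AA]
    [Fintype X] [Nonempty X] [Fintype Y] [Nonempty Y] (pr : V → V0) (Wb : Finset (V → AA))
    (hWb : Fintype.card (V → AA) ≤ 2 * Wb.card) (P : {ω // ω ∈ Wb} → Mx X Y)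
    (hP : ∀ i, (P i).Ok) {q s : ℝ} (hq : 0 < q) (hq1 : q ≤ 1) (hs : 0 < s)
    (hf : ∀ i a y, (P i).f a y ≤ (1 / q) / (Fintype.card Y : ℝ))
    (hx : ∀ i x, (∑ a, if (P i).x a = x then (P i).w a else 0) ≤
      (1 / s) / (Fintype.card X : ℝ))
    {J0 : ℕ} (hJ : 0 < J0) {η : ℝ} (hη : 0 < η) (hη1 : η ≤ 1 / 22400)
    (h : ∑ i, klu (P i) (2 * J0) ≤
      Fintype.card {ω // ω ∈ Wb} * (klu (avg P) (2 * J0) + η * (2 * J0)))
    (Bad : X → (Fin J0 → Y) → Prop)
    (hBad : (∑ x, ∑ y : Fin J0 → Y, if Bad x y then (avg P).pr J0 x y else 0) ≤ 1 / 4)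
    {D : ℕ} (hD : 160 / (s * q ^ (2 * J0)) * (Fintype.card (V0 → AA × ZMod 2) : ℝ) <
      2 ^ (D + 1)) :
    ∃ (j : ℕ) (hj : J0 ≤ j) (x : X) (y : Fin j → Y), ¬ Bad x (fun i => y (i.castLE hj)) ∧
      ∃ (s' : V → AA) (β : V → ZMod 2) (ωf : (V0 → AA × ZMod 2) → {ω // ω ∈ Wb}),
        (∀ τ : V0 → AA × ZMod 2, (univ.filter fun v =>
          (τ (pr v)).2 = β v ∧ (ωf τ).1 v ≠ (τ (pr v)).1 + s' v).card ≤ D) ∧
        ∃ (G : Finset (V0 → AA × ZMod 2)) (R : Finset Y),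
          Fintype.card (V0 → AA × ZMod 2) ≤ 2 * G.card ∧
          rhoN q (Fintype.card (V0 → AA × ZMod 2)) ≤ OSM.dens R ∧
          (∀ τ ∈ G, ∀ (r : ℕ) (z : Fin r → Y), (∀ t, z t ∈ R) →
            lowN q (Fintype.card (V0 → AA × ZMod 2)) (Fintype.card X) (Fintype.card Y) J0 r ≤
              (P (ωf τ)).pr (j + r) x (Fin.append y z)) ∧
          ∀ τ ∈ G, ∃ a : (P (ωf τ)).ι, (P (ωf τ)).x a = x ∧ (∀ t, 0 < (P (ωf τ)).f a (y t)) ∧
            ∀ z ∈ R, 0 < (P (ωf τ)).f a z := by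
  have hneV : 0 < Fintype.card (V → AA) := Fintype.card_pos
  have hWpos : 0 < Wb.card := by omega
  obtain ⟨ω0, hω0⟩ := Finset.card_pos.1 hWpos
  have : Nonempty {ω // ω ∈ Wb} := ⟨⟨ω0, hω0⟩⟩
  obtain ⟨j, hj, x, y, hj2, hlow, hbad, Yg, hYg1, hYg2⟩ :=
    typical2 hP hq hq1 hs hf hx hJ hη hη1 h Bad hBad
  have hcardI : Fintype.card {ω // ω ∈ Wb} = Wb.card := Fintype.card_coe Wb
  have hcX : (1 : ℝ) ≤ Fintype.card X := by exact_mod_cast Fintype.card_pos (α := X)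
  have hcY : (1 : ℝ) ≤ Fintype.card Y := by exact_mod_cast Fintype.card_pos (α := Y)
  have hsq : 0 < s * q ^ (2 * J0) := by positivity
  set A := avg P with hA
  have hAok : A.Ok := avg_ok hP
  set p0 : ℝ := A.pr j x y with hp0
  have hp0pos : 0 < p0 := lt_of_lt_of_le (by positivity) hlow
  -- the design
  set Y0 : Finset (V → AA) := Yg.image Subtype.val with hY0
  have hY0c : Y0.card = Yg.card := Finset.card_image_of_injective _ Subtype.val_injective
  have hK : (Fintype.card (V → AA) : ℝ) ≤ 160 / (s * q ^ (2 * J0)) * Y0.card := by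
    rw [hY0c]
    have h1 : (Fintype.card (V → AA) : ℝ) ≤ 2 * Wb.card := by exact_mod_cast hWb
    rw [hcardI] at hYg1
    calc (Fintype.card (V → AA) : ℝ) ≤ 2 * Wb.card := h1
      _ ≤ 2 * (80 / (s * q ^ (2 * J0)) * Yg.card) := by linarith
      _ = _ := by ring
  obtain ⟨s', β, hdes⟩ := design pr Y0 hK hD
  have hdes2 : ∀ τ : V0 → AA × ZMod 2, ∃ i : {ω // ω ∈ Wb}, i ∈ Yg ∧
      (univ.filter fun v => (τ (pr v)).2 = β v ∧ i.1 v ≠ (τ (pr v)).1 + s' v).card ≤ D := by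
    intro τ
    obtain ⟨ω, hω, hc⟩ := hdes τ
    rw [hY0, Finset.mem_image] at hω
    obtain ⟨i, hi, rfl⟩ := hω
    exact ⟨i, hi, hc⟩
  choose ωf hωf hωc using hdes2
  -- the pattern
  set N := Fintype.card (V0 → AA × ZMod 2) with hN
  have hth := thN_pos N
  have hth1 := thN_le N
  obtain ⟨G, W, hG, hW3, hW1, hW2⟩ := pattern (Ω := V0 → AA × ZMod 2)
    (fun z => A.pr (j + 1) x (Fin.snoc y z)) (fun z => Mx.pr_nonneg hAok _ _ _)
    (Mx.pr_succ hAok j x y) hp0pos (fun τ => zb (P (ωf τ)) A j x y)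
    (fun τ => (hYg2 _ (hωf τ)).2)
  -- the reservoir
  obtain ⟨R, hR1, hR2, hR3⟩ := reservoir2 (P := A) hAok hq hq1
    (fun a z => hf a.1 a.2 z) G (fun τ => P (ωf τ)) (fun τ _ => hP _)
    (fun τ _ a z => hf _ a z) j x y hp0pos (fun τ _ => (hYg2 _ (hωf τ)).1) hth hth1 W
    (fun z hz => by
      have h1 := hW1 z hz
      refine le_trans (le_of_eq ?_) h1
      rw [thN, div_mul_eq_mul_div, one_mul, div_div])
    (by
      refine le_trans (le_of_eq ?_) hW2
      rw [thN, div_mul_eq_mul_div, one_mul])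
    (fun τ hτ z hz => hW3 z hz τ hτ)
  refine ⟨j, hj, x, y, hbad, s', β, ωf, hωc, G, R, hG, ?_, ?_, hR3⟩
  · refine le_trans ?_ hR1
    unfold rhoN
    apply mul_le_mul_of_nonneg_right _ (by positivity)
    apply pow_le_pow_of_le_one (by positivity)
    · have h1 : q * thN N ≤ 1 := mul_le_one₀ hq1 hth.le hth1
      linarith
    · exact Finset.card_le_univ G
  · intro τ hτ r z hz
    refine le_trans ?_ (hR2 τ hτ r z hz)
    unfold lowN
    have h1 : 1 / (10 * ((Fintype.card X : ℝ) * (Fintype.card Y : ℝ) ^ (2 * J0))) ≤ p0 := by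
      refine le_trans ?_ hlow
      apply one_div_le_one_div_of_le (by positivity)
      have h2 : (Fintype.card Y : ℝ) ^ j ≤ (Fintype.card Y : ℝ) ^ (2 * J0) :=
        pow_le_pow_right₀ hcY (by omega)
      gcongr
    have h3 : 0 ≤ q * thN N / 8 / 2 ^ Fintype.card Y := by positivity
    have h4 : 0 ≤ (thN N / (4 * (Fintype.card Y : ℝ))) ^ r := by positivity
    gcongr

end Pool.Agent.NST
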