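import Pool.Agent.OSM.Fit
import Pool.Agent.OSM.BLowB

/-!
# NST: the n-step theorem, definitions (MP_0b3a63_lc)

Points are pairs `(T, G)`: `T` a set of strings, `G c i : ℕ → Bool` the `i`-th real of the sequence
of level `c`. An event of level `l` (`MF l`) depends only on the levels `c < l` of `G`, at level
`n` of information only on the strings of `T` of length less than `n` and on the first `n` digits
of the first `n` reals, and is inherited by larger pieces of information.

`BB F k q s`: all tuples `x` of length `k` except for a set of measure less than `s` have the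
property that every reservoir of density at least `q` contains a sequence (new level) with `F`.
`Thr F κ a`: all mixtures of good states have relative entropy more than `a r + log (1 / q')` for
some number `r` of samples.
-/

set_option autoImplicit false

namespace Pool.Agent.NST

open Finset Pool.Agent.PTree Pool.Agent.OSM
open scoped Classical

/-- level, coordinate, digit -/
abbrev Pt : Type := ℕ → ℕ → ℕ → Bool

/-- Binary strings of length `n`. -/
abbrev Sn (n : ℕ) : Type := Str Bool n

/-- `G` and `G'` agree on the levels `c < l`, up to `n`. -/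
def Ag (l n : ℕ) (G G' : Pt) : Prop := ∀ c < l, ∀ i < n, ∀ j < n, G' c i j = G c i j

theorem Ag.refl (l n : ℕ) (G : Pt) : Ag l n G G := fun _ _ _ _ _ _ => rfl

theorem Ag.symm {l n : ℕ} {G G' : Pt} (h : Ag l n G G') : Ag l n G' G :=
  fun c hc i hi j hj => (h c hc i hi j hj).symm

theorem Ag.trans {l n : ℕ} {G G' G'' : Pt} (h : Ag l n G G') (h' : Ag l n G' G'') :
    Ag l n G G'' := fun c hc i hi j hj => (h' c hc i hi j hj).trans (h c hc i hi j hj)

theorem Ag.mono {l l' n n' : ℕ} {G G' : Pt} (h : Ag l n G G') (hl : l' ≤ l) (hn : n' ≤ n) :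
    Ag l' n' G G' :=
  fun c hc i hi j hj => h c (hc.trans_le hl) i (hi.trans_le hn) j (hj.trans_le hn)

/-- Events of level `l`. -/
structure MF (l : ℕ) where
  bad : ℕ → StrSet → Pt → Prop
  loc : ∀ {n : ℕ} {T T' : StrSet} {G G' : Pt}, Agree n T T' → Ag l n G G' → bad n T G →
    bad n T' G'
  mono : ∀ {n : ℕ} {T : StrSet} {G : Pt}, bad n T G → bad (n + 1) T G

variable {l : ℕ}

theorem MF.mono_le (F : MF l) {n n' : ℕ} (h : n ≤ n') {T : StrSet} {G : Pt}
    (hb : F.bad n T G) : F.bad n' T G := by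
  induction n', h using Nat.le_induction with
  | base => exact hb
  | succ m _ ih => exact F.mono ih

/-- The union of two events. -/
def MF.or (F F' : MF l) : MF l where
  bad n T G := F.bad n T G ∨ F'.bad n T G
  loc h h' := Or.imp (F.loc h h') (F'.loc h h')
  mono := Or.imp F.mono F'.mono

/-- The intersection of two events. -/
def MF.and (F F' : MF l) : MF l where
  bad n T G := F.bad n T G ∧ F'.bad n T G
  loc h h' := And.imp (F.loc h h') (F'.loc h h')
  mono := And.imp F.mono F'.mono

/-- `X` holds already at level `n`, and `Y` holds. -/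
def MF.cap (n : ℕ) (X Y : MF l) : MF l where
  bad n' T G := n ≤ n' ∧ X.bad n T G ∧ Y.bad n' T G
  loc h h' := fun ⟨h1, h2, h3⟩ =>
    ⟨h1, X.loc (h.mono h1) (h'.mono le_rfl h1) h2, Y.loc h h' h3⟩
  mono := fun ⟨h1, h2, h3⟩ => ⟨h1.trans (Nat.le_succ _), h2, Y.mono h3⟩

/-- Inclusion of events. -/
def MF.Le (F F' : MF l) : Prop := ∀ n T G, F.bad n T G → F'.bad n T G

theorem MF.Le.refl (F : MF l) : F.Le F := fun _ _ _ h => h

theorem MF.Le.trans {F F' F'' : MF l} (h : F.Le F') (h' : F'.Le F'') : F.Le F'' :=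
  fun n T G hb => h' n T G (h n T G hb)

theorem MF.le_or_left (F F' : MF l) : F.Le (F.or F') := fun _ _ _ h => Or.inl h

theorem MF.le_or_right (F F' : MF l) : F'.Le (F.or F') := fun _ _ _ h => Or.inr h

/-- The same event, considered as one of a higher level. -/
def MF.lift {l' : ℕ} (h : l ≤ l') (F : MF l) : MF l' where
  bad n T G := F.bad n T G
  loc h1 h2 := F.loc h1 (h2.mono h le_rfl)
  mono := F.mono

/-- The digits of `G` of the levels `c < l` up to `n` are not those of `γ`. -/
def pin (l n : ℕ) (γ : Pt) : MF l where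
  bad n' _ G := n ≤ n' ∧ ¬ Ag l n γ G
  loc := fun _ h ⟨h1, h2⟩ => ⟨h1, fun h3 => h2 (h3.trans (h.symm.mono le_rfl h1))⟩
  mono := fun ⟨h1, h2⟩ => ⟨h1.trans (Nat.le_succ _), h2⟩

/-- The event for fixed lower levels, as one about the sequence of the last level. -/
def MF.slice (F : MF (l + 1)) (G : Pt) : Forb Bool where
  bad n T H := F.bad n T (Function.update G l H)
  loc {n T T' H H'} h h' hb := F.loc h (fun c _ i hi j hj => by
    by_cases hcl : c = l
    · subst hcl
      simp only [Function.update_self]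
      exact h' i hi j hj
    · simp only [Function.update_of_ne hcl]) hb
  mono h := F.mono h

theorem good_slice {F : MF (l + 1)} {n k : ℕ} {T T' : StrSet} {G G' : Pt}
    (h : Agree n T T') (h' : Ag l n G G') {x : Fin k → Sn n} {R : Finset (Sn n)}
    (hg : Good (F.slice G) n T x R) : Good (F.slice G') n T' x R := by
  intro H h1 h2 hb
  refine hg H h1 h2 ?_
  refine F.loc h.symm (fun c hc i hi j hj => ?_) hb
  by_cases hcl : c = l
  · subst hcl
    simp only [Function.update_self]
  · simp only [Function.update_of_ne hcl]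
    exact h'.symm c (by omega) i hi j hj

theorem gs_slice {F : MF (l + 1)} {n k : ℕ} {T T' : StrSet} {G G' : Pt}
    (h : Agree n T T') (h' : Ag l n G G') (q : ℝ) :
    gs (F.slice G) n T k q = gs (F.slice G') n T' k q := by
  ext x
  rw [mem_gs, mem_gs]
  constructor
  · rintro ⟨R, h1, h2⟩
    exact ⟨R, h1, good_slice h h' h2⟩
  · rintro ⟨R, h1, h2⟩
    exact ⟨R, h1, good_slice h.symm h'.symm h2⟩

theorem b_slice {F : MF (l + 1)} {n k : ℕ} {T T' : StrSet} {G G' : Pt}
    (h : Agree n T T') (h' : Ag l n G G') (q : ℝ) :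
    b (F.slice G) n T k q = b (F.slice G') n T' k q := by
  unfold b
  rw [gs_slice h h' q]

theorem fit_slice {F : MF (l + 1)} {n k : ℕ} {T T' : StrSet} {G G' : Pt} {q q' : ℝ}
    (h : Agree n T T') (h' : Ag l n G G') {m : Mx (Fin k → Sn n) (Sn n)}
    (hm : Fit (F.slice G) n T k q q' m) : Fit (F.slice G') n T' k q q' m :=
  ⟨hm.ok, hm.f_le, hm.x_le, fun a => good_slice h h' (hm.good a)⟩

/-- The operator `BB`. -/
noncomputable def BB (F : MF (l + 1)) (k : ℕ) (q s : ℝ) : MF l where
  bad n T G := b (F.slice G) n T k q < s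
  loc h h' hb := by
    rw [← b_slice h h' q]
    exact hb
  mono {n T G} hb := lt_of_le_of_lt (b_anti (F.slice G) (Nat.le_succ n) T k q) hb

/-- Parameters of a level. -/
structure Par where
  k : ℕ
  q : ℝ
  s : ℝ
  hq : 0 < q
  hq1 : q ≤ 1
  hs : 0 < s
  hs1 : s ≤ 1

/-- The event that all mixtures have large entropy. -/
noncomputable def Thr (F : MF (l + 1)) (κ : Par) (a : ℝ) : MF l where
  bad n T G := ∃ r ≤ n, ∀ m : Mx (Fin κ.k → Sn n) (Sn n), Fit (F.slice G) n T κ.k κ.q κ.s m →
    a * r + Real.log (1 / κ.s) < klu m r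
  loc h h' := fun ⟨r, hr, hm⟩ => ⟨r, hr, fun m hf => hm m (fit_slice h.symm h'.symm hf)⟩
  mono {n _ _} := fun ⟨r, hr, hm⟩ => ⟨r, hr.trans (Nat.le_succ _), fun _ hf =>
    lt_of_lt_of_le (hm _ (Fit.map (Nat.le_succ n) κ.hq hf))
      (klu_map hf.ok (eqFib_comp (eqFib_res (Nat.le_succ n)) κ.k) (eqFib_res (Nat.le_succ n)) r)⟩

/-- The event about the tree obtained by applying `BB` for all levels. -/
noncomputable def Met : (l : ℕ) → (ℕ → Par) → MF l → MF 0
  | 0, _, F => F
  | l + 1, π, F => Met l π (BB F (π l).k (π l).q (π l).s)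

/-- `F` can be avoided robustly on `N`. -/
def Viable (l : ℕ) (F : MF l) (N : Set StrSet) : Prop :=
  ∃ π : ℕ → Par, ∀ T ∈ N, ∀ n G, ¬ (Met l π F).bad n T G

/-- `F` can be avoided robustly on no smaller neighbourhood. -/
def Unb (l : ℕ) (F : MF l) (N : Set StrSet) : Prop :=
  ∀ (T1 : StrSet) (m1 : ℕ) (c1 : ℝ), IsTree T1 → c1 < M T1 → Nb T1 m1 c1 ⊆ N →
    ¬ Viable l F (Nb T1 m1 c1)

/-- A chain of thresholds which are optimal up to `ε`. -/
inductive Opt (ε : ℝ) (N : Set StrSet) : (l : ℕ) → MF l → Prop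
  | zero {F : MF 0} : (∀ T ∈ N, ∀ n G, ¬ F.bad n T G) → Opt ε N 0 F
  | succ {l : ℕ} {F : MF (l + 1)} (κ : Par) (a : ℝ) : Unb l (Thr F κ (a - ε)) N →
      Opt ε N l (Thr F κ a) → Opt ε N (l + 1) F

end Pool.Agent.NST
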