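import Pool.Agent.NST.Calc

/-!
# NST/Desc: existence of an optimal chain of thresholds

Induction on `l`, for all `F`, `T0`, `m0`, `c0`.
`l = 0`: `Viable 0 F N` says that no `T ∈ N` is bad (`Met 0 π F = F`), so `Opt.zero`.
Step `l + 1`: let `π` be the parameters, `κ = π l`. Then `Viable l (BB F κ.k κ.q κ.s) (Nb T0 m0 c0)`
(same `π`; `Met (l + 1) π F` is by definition `Met l π (BB F ..)`), so
`Viable l (Thr F κ a0) (Nb T0 m0 c0)` with `a0 = Real.log (1 / κ.q)` (`thr_le_bb`, `Viable.mono`).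
Consider the natural numbers `t` for which there is a neighbourhood `Nb T1 m1 c1` with
`T1 ∈ Nb T0 m0 c0`, `m0 ≤ m1`, `c0 ≤ c1`, `c1 < M T1` and `Viable l (Thr F κ (a0 - t * ε)) (Nb T1 m1 c1)`.
`0` is one of them, and `a0 - t * ε ≥ 0` for all of them by `thr_neg`, so they are bounded; let `t` be
the largest one, `a = a0 - t * ε`, with `Nb T1 m1 c1`. Then `Unb l (Thr F κ (a - ε)) (Nb T1 m1 c1)`:
if `Nb T2 m2 c2 ⊆ Nb T1 m1 c1` (`T2` tree, `c2 < M T2`) were viable for it then so would be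
`Nb T2 (max m1 m2) (max c2 c1)`, hmm: `T2 ∈ Nb T2 m2 c2 ⊆ Nb T1 m1 c1` gives `c1 < M T2`, and
`Nb T2 (max m1 m2) (max c1 c2) ⊆ Nb T2 m2 c2` (`Nb.subset`, `Nb.self`), so `t + 1` would be one of
the numbers. By the induction hypothesis for `Thr F κ a` and `Nb T1 m1 c1` there is a smaller
`Nb T3 m3 c3` with `Opt ε (Nb T3 m3 c3) l (Thr F κ a)`; `Unb` is inherited (`Unb.mono`); apply
`Opt.succ κ a`.
-/

set_option autoImplicit false

namespace Pool.Agent.NST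

open Finset Pool.Agent.PTree Pool.Agent.OSM
open scoped Classical

theorem opt_exists {ε : ℝ} (hε : 0 < ε) {l : ℕ} (F : MF l) {T0 : StrSet} {m0 : ℕ} {c0 : ℝ}
    (hT : IsTree T0) (hc : c0 < M T0) (hv : Viable l F (Nb T0 m0 c0)) :
    ∃ (T1 : StrSet) (m1 : ℕ) (c1 : ℝ), T1 ∈ Nb T0 m0 c0 ∧ m0 ≤ m1 ∧ c0 ≤ c1 ∧ c1 < M T1 ∧
      Opt ε (Nb T1 m1 c1) l F := by
  induction l generalizing T0 m0 c0 with
  | zero =>
    obtain ⟨π, hπ⟩ := hv
    exact ⟨T0, m0, c0, Nb.self hT _ hc, le_rfl, le_rfl, hc, Opt.zero hπ⟩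
  | succ l ih =>
    obtain ⟨π, hπ⟩ := hv
    obtain ⟨κ, hκ⟩ : ∃ κ : Par, κ = π l := ⟨_, rfl⟩
    have hv1 : Viable l (BB F κ.k κ.q κ.s) (Nb T0 m0 c0) := by
      rw [hκ]
      exact ⟨π, hπ⟩
    obtain ⟨a0, ha0⟩ : ∃ a0 : ℝ, a0 = Real.log (1 / κ.q) := ⟨_, rfl⟩
    have hv2 : Viable l (Thr F κ a0) (Nb T0 m0 c0) := by
      rw [ha0]
      exact hv1.mono (thr_le_bb F κ) subset_rfl
    let Q : ℕ → Prop := fun t => ∃ (T1 : StrSet) (m1 : ℕ) (c1 : ℝ), T1 ∈ Nb T0 m0 c0 ∧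
      m0 ≤ m1 ∧ c0 ≤ c1 ∧ c1 < M T1 ∧ Viable l (Thr F κ (a0 - t * ε)) (Nb T1 m1 c1)
    have hQ0 : Q 0 := ⟨T0, m0, c0, Nb.self hT _ hc, le_rfl, le_rfl, hc, by
      rw [Nat.cast_zero, zero_mul, sub_zero]
      exact hv2⟩
    have hQb : ∀ t, Q t → (t : ℝ) ≤ a0 / ε := by
      rintro t ⟨T1, m1, c1, h1, h2, h3, h4, h5⟩
      by_contra hcon
      rw [not_le, div_lt_iff₀ hε] at hcon
      exact thr_neg F κ (by linarith) h1.1 h4 h5
    obtain ⟨t, ht, hmax⟩ : ∃ t, Q t ∧ ¬ Q (t + 1) := by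
      by_contra hcon
      push Not at hcon
      have hall : ∀ t, Q t := fun t => by
        induction t with
        | zero => exact hQ0
        | succ t iht => exact hcon t iht
      obtain ⟨N, hN⟩ := exists_nat_gt (a0 / ε)
      exact absurd (hQb N (hall N)) (not_le.2 hN)
    obtain ⟨T1, m1, c1, h1, h2, h3, h4, h5⟩ := ht
    have hU : Unb l (Thr F κ (a0 - t * ε - ε)) (Nb T1 m1 c1) := by
      intro T2 m2 c2 hT2 hc2 hsub hv
      apply hmax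
      have hT2m : T2 ∈ Nb T1 m1 c1 := hsub (Nb.self hT2 m2 hc2)
      refine ⟨T2, max m1 m2, max c1 c2, Nb.subset h1 h2 h3 hT2m, h2.trans (le_max_left _ _),
        h3.trans (le_max_left _ _), max_lt hT2m.2.2.2 hc2, ?_⟩
      have e : a0 - ((t + 1 : ℕ) : ℝ) * ε = a0 - t * ε - ε := by
        push_cast
        ring
      rw [e]
      exact hv.mono (MF.Le.refl _)
        (Nb.subset (Nb.self hT2 m2 hc2) (le_max_right _ _) (le_max_right _ _))
    obtain ⟨T3, m3, c3, k1, k2, k3, k4, k5⟩ := ih (Thr F κ (a0 - t * ε)) h1.1 h4 h5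
    exact ⟨T3, m3, c3, Nb.subset h1 h2 h3 k1, h2.trans k2, h3.trans k3, k4,
      Opt.succ κ (a0 - t * ε) (hU.mono (MF.Le.refl _) (Nb.subset k1 k2 k3)) k5⟩

end Pool.Agent.NST
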