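import Pool.Agent.NST.Defs

/-!
# NST: the game

In round `j` we name `T1`, `n1`, parameters `π` and a number `N`; the opponent names `T2`, `n2`, a
node level `m2` and an event `A` such that `T2` is in `Met l π (F.or A)` at level `n2`. `PrS` says
that we can play so that in the end (`Out`) there is a point `γ` in all the events, and, for at least
half of all functions `ω : 2 ^ m0 → 𝔸`, a set `E ω` of nodes of length `m` which can be killed
(`Via`), such that every set `S` of nodes which grows as required (`Grow`) meets `E ω` if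
`ω v = cc v` for some `v` in `S` of level `m0` (`cc` depends on `S` only).
-/

set_option autoImplicit false

namespace Pool.Agent.NST

open Finset Pool.Agent.PTree Pool.Agent.OSM
open scoped Classical

variable {l : ℕ}

/-- No string of `T` of length at least `n` extends a member of `E`. -/
def Dead (E : Finset (List Bool)) (n : ℕ) (T : StrSet) : Prop :=
  ∀ σ, T σ = true → n ≤ σ.length → ∀ τ ∈ E, ¬ τ <+: σ

/-- The piece of information `γ` (level `n`) can be kept in a neighbourhood in which the nodes of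
`E` are dead. -/
def Via (l : ℕ) (F : MF l) (n : ℕ) (T : StrSet) (c : ℝ) (γ : Pt) (E : Finset (List Bool)) :
    Prop :=
  ∃ (T1 : StrSet) (m1 : ℕ) (c1 : ℝ), IsTree T1 ∧ c1 < M T1 ∧ c ≤ c1 ∧
    Nb T1 m1 c1 ⊆ Nb T n c ∧ Dead E (n + 1) T1 ∧ Viable l (F.or (pin l n γ)) (Nb T1 m1 c1)

/-- Entries of a history: level of information, level of nodes, growth number, event. -/
structure Ent (l : ℕ) where
  n : ℕ
  m : ℕ
  N : ℕ
  A : MF l

/-- The initial segments of length `m` of the members of `S`. -/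
noncomputable def lev (S : Finset (List Bool)) (m : ℕ) : Finset (List Bool) :=
  S.image (List.take m)

/-- `S` grows as required by the list of the pairs (level of nodes, growth number). -/
def Grow (S : Finset (List Bool)) : List (ℕ × ℕ) → Prop
  | [] => True
  | [_] => True
  | p :: p' :: L => (∀ v ∈ lev S p.1, p'.2 ≤ ((lev S p'.1).filter fun u => v <+: u).card) ∧
      Grow S (p' :: L)

/-- The pairs (level of nodes, growth number) of a history. -/
def shape (h : List (Ent l)) : List (ℕ × ℕ) := h.map fun e => (e.m, e.N)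

/-- A list as a string of length `m`. -/
def tos (m : ℕ) (σ : List Bool) : Sn m := fun i => σ.getD i false

/-- The result of a play. -/
def Out (F : MF l) (c : ℝ) (𝔸 : Type) [Fintype 𝔸] (e0 : Ent l) (h : List (Ent l)) (T : StrSet)
    (n m : ℕ) : Prop :=
  ∃ γ : Pt, (∀ e ∈ e0 :: h, e.A.bad e.n T γ) ∧
    ∃ (W : Finset (Sn e0.m → 𝔸)) (E : (Sn e0.m → 𝔸) → Finset (List Bool)),
      Fintype.card (Sn e0.m → 𝔸) ≤ 2 * W.card ∧
      (∀ ω ∈ W, (∀ τ ∈ E ω, τ.length = m) ∧ Via l F n T c γ (E ω)) ∧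
      ∀ S : Finset (List Bool), (∀ σ ∈ S, σ.length = m) → Grow S (shape (e0 :: h)) →
        ∃ cc : List Bool → 𝔸, ∀ ω ∈ W, ∀ v ∈ lev S e0.m, ω (tos e0.m v) = cc v →
          ∃ τ ∈ S, τ ∈ E ω

/-- The game with `t` rounds left; `e0 :: h` is the history, `T`, `n`, `m` the present tree, level
of information and level of nodes. -/
def Rnd (F : MF l) (c c2 : ℝ) (𝔸 : Type) [Fintype 𝔸] (e0 : Ent l) :
    ℕ → List (Ent l) → StrSet → ℕ → ℕ → Prop
  | 0, h, T, n, m => Out F c 𝔸 e0 h T n m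
  | t + 1, h, T, n, m => ∃ (T1 : StrSet) (n1 : ℕ), T1 ∈ Nb T n c2 ∧ n ≤ n1 ∧
      ∃ (π : ℕ → Par) (N : ℕ), ∀ (T2 : StrSet) (n2 m2 : ℕ) (A : MF l), T2 ∈ Nb T1 n1 c2 →
        n1 ≤ n2 → m ≤ m2 → m2 ≤ n2 → (∀ G, (Met l π (F.or A)).bad n2 T2 G) →
        Rnd F c c2 𝔸 e0 t (h ++ [⟨n2, m2, N, A⟩]) T2 n2 m2

/-- The game can be won: `1 + t` rounds. -/
def PrS (F : MF l) (T0 : StrSet) (n0 : ℕ) (c c2 : ℝ) (𝔸 : Type) [Fintype 𝔸] (t : ℕ) : Prop :=
  ∀ (T : StrSet) (n : ℕ), T ∈ Nb T0 n0 c2 → n0 ≤ n →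
    ∃ (T1 : StrSet) (n1 : ℕ), T1 ∈ Nb T n c2 ∧ n ≤ n1 ∧ ∃ π : ℕ → Par,
      ∀ (T2 : StrSet) (n2 m2 : ℕ) (A : MF l), T2 ∈ Nb T1 n1 c2 → n1 ≤ n2 → m2 ≤ n2 →
        (∀ G, (Met l π (F.or A)).bad n2 T2 G) → Rnd F c c2 𝔸 ⟨n2, m2, 0, A⟩ t [] T2 n2 m2

end Pool.Agent.NST
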