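import Pool.Agent.NST.Game

/-!
# NST/Hit: the nodes in the induction step

* `lev_length`: `List.length_take`. `tos_inj`: compare the entries (`List.ext_getElem`,
  `List.getD_eq_getElem`). `res_tos`: `v <+: u` means `u = v ++ w`, compare the entries below `m0`.
* `hit_step`: let `v ∈ lev S m0`. For each `τ` the set `Exc τ` of the `w : Sn m1` with
  `(τ (res h01 w)).2 = β w ∧ ωf τ w ≠ (τ (res h01 w)).1 + s w` has at most `D` elements; so the union
  over all `τ` has at most `D * N` elements, `N = card (Sn m0 → AA × ZMod 2)`, while `tos m1` is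
  injective on the at least `D * N + 1` members `u` of `lev S m1` with `v <+: u`. So there is such a
  `u = U v` with `tos m1 u` in no `Exc τ`. Put
  `cc v = (cb u - s (tos m1 u), β (tos m1 u))`. If `τ (tos m0 v) = cc v` then, as
  `res h01 (tos m1 u) = tos m0 v`, `(τ (res ..)).2 = β (tos m1 u)`, so
  `ωf τ (tos m1 u) = (τ (res ..)).1 + s (tos m1 u) = cb u`, and `hcb` applies.
* `grow_head`: cases on the list.
-/

set_option autoImplicit false

namespace Pool.Agent.NST

open Finset Pool.Agent.PTree Pool.Agent.OSM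
open scoped Classical

theorem lev_length {S : Finset (List Bool)} {m m' : ℕ} (hS : ∀ σ ∈ S, σ.length = m')
    (h : m ≤ m') {u : List Bool} (hu : u ∈ lev S m) : u.length = m := by
  unfold lev at hu
  rw [mem_image] at hu
  obtain ⟨σ, hσ, rfl⟩ := hu
  rw [List.length_take, hS σ hσ]
  omega

theorem tos_inj {m : ℕ} {u u' : List Bool} (hu : u.length = m) (hu' : u'.length = m)
    (h : tos m u = tos m u') : u = u' := by
  refine List.ext_getElem (hu.trans hu'.symm) fun i h1 h2 => ?_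
  have h3 : u.getD i false = u'.getD i false := congrFun h ⟨i, by omega⟩
  rw [List.getD_eq_getElem _ _ h1, List.getD_eq_getElem _ _ h2] at h3
  exact h3

theorem res_tos {m0 m1 : ℕ} (h01 : m0 ≤ m1) {v u : List Bool} (hv : v.length = m0)
    (hu : u.length = m1) (h : v <+: u) : res h01 (tos m1 u) = tos m0 v := by
  obtain ⟨w, rfl⟩ := h
  funext i
  show (v ++ w).getD i false = v.getD i false
  exact List.getD_append v w false i (by rw [hv]; exact i.2)

theorem hit_step {AA : Type} [Fintype AA] [AddCommGroup AA] {m0 m1 m D : ℕ} (h01 : m0 ≤ m1)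
    (h1 : m1 ≤ m) (Wb : Finset (Sn m1 → AA)) (Eb : (Sn m1 → AA) → Finset (List Bool))
    (s : Sn m1 → AA) (β : Sn m1 → ZMod 2) (ωf : (Sn m0 → AA × ZMod 2) → (Sn m1 → AA))
    (hωf : ∀ τ : Sn m0 → AA × ZMod 2, ωf τ ∈ Wb ∧ (univ.filter fun v =>
      (τ (res h01 v)).2 = β v ∧ ωf τ v ≠ (τ (res h01 v)).1 + s v).card ≤ D)
    (S : Finset (List Bool)) (hS : ∀ σ ∈ S, σ.length = m)
    (hgrow : ∀ v ∈ lev S m0, D * Fintype.card (Sn m0 → AA × ZMod 2) + 1 ≤
      ((lev S m1).filter fun u => v <+: u).card)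
    (cb : List Bool → AA)
    (hcb : ∀ ω ∈ Wb, ∀ v ∈ lev S m1, ω (tos m1 v) = cb v → ∃ τ ∈ S, τ ∈ Eb ω) :
    ∃ cc : List Bool → AA × ZMod 2, ∀ τ : Sn m0 → AA × ZMod 2, ∀ v ∈ lev S m0,
      τ (tos m0 v) = cc v → ∃ σ ∈ S, σ ∈ Eb (ωf τ) := by
  have key : ∀ v ∈ lev S m0, ∃ u, u ∈ lev S m1 ∧ v <+: u ∧ ∀ τ : Sn m0 → AA × ZMod 2,
      (τ (res h01 (tos m1 u))).2 = β (tos m1 u) →
        ωf τ (tos m1 u) = (τ (res h01 (tos m1 u))).1 + s (tos m1 u) := by
    intro v hv
    by_contra hcon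
    push Not at hcon
    have hsub : ((lev S m1).filter fun u => v <+: u).image (tos m1) ⊆
        (univ : Finset (Sn m0 → AA × ZMod 2)).biUnion (fun τ => univ.filter fun w =>
          (τ (res h01 w)).2 = β w ∧ ωf τ w ≠ (τ (res h01 w)).1 + s w) := by
      intro w hw
      rw [mem_image] at hw
      obtain ⟨u, hu, rfl⟩ := hw
      rw [mem_filter] at hu
      obtain ⟨τ, h2, h3⟩ := hcon u hu.1 hu.2
      exact mem_biUnion.2 ⟨τ, mem_univ _, mem_filter.2 ⟨mem_univ _, h2, h3⟩⟩
    have hcard := card_le_card hsub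
    rw [card_image_of_injOn] at hcard
    · have h3 := hcard.trans (card_biUnion_le_card_mul _ _ D
        (fun τ _ => by convert (hωf τ).2))
      have h4 := (hgrow v hv).trans h3
      rw [card_univ, mul_comm] at h4
      omega
    · intro u hu u' hu' h
      exact tos_inj (lev_length hS h1 (mem_filter.1 hu).1) (lev_length hS h1 (mem_filter.1 hu').1) h
  choose! U hU using key
  refine ⟨fun v => (cb (U v) - s (tos m1 (U v)), β (tos m1 (U v))), fun τ v hv hτ => ?_⟩
  obtain ⟨h2, h3, h4⟩ := hU v hv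
  have hr : res h01 (tos m1 (U v)) = tos m0 v :=
    res_tos h01 (lev_length hS (h01.trans h1) hv) (lev_length hS h1 h2) h3
  have h5 := h4 τ (by rw [hr, hτ])
  refine hcb (ωf τ) (hωf τ).1 (U v) h2 ?_
  rw [h5, hr, hτ]
  exact sub_add_cancel _ _

theorem grow_head {S : Finset (List Bool)} {p p' : ℕ × ℕ} {L : List (ℕ × ℕ)} (h : p.1 = p'.1)
    (hg : Grow S (p :: L)) : Grow S (p' :: L) := by
  cases L with
  | nil => trivial
  | cons q L =>
    refine ⟨?_, hg.2⟩
    rw [← h]
    exact hg.1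

end Pool.Agent.NST
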