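import Pool.Agent.NST.Avg

/-!
# NST/Info: a number of samples after which the next one is nearly independent of `i`

* `d_incr2`: let `P = ∑ p`, `R = ∑ r`. If `R = 0` all is `0`; if `P = 0` then the left side is `0`
  and the right side is `≥ 0` by `d_logsum`. Otherwise
  `∑ d (p i) (r i) - d P R = ∑ d (p i) (P / R * r i)` (see `d_defect` in OSM/KL), all terms are
  nonnegative (`d_nonneg`), and for the `i` in the filter `p i ≤ (P / R * r i) / 2`, so the term is
  at least `P / R * r i / 7` (`d_half`).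
* `zb_le`: `d_incr2` with `s = univ`, `Mx.pr_succ`, `pr_ac_avg`.
* `inc_nonneg`: `d_logsum` and `Mx.pr_succ`.
* `sum_inc`: `sum_snoc` and the definitions.
* `choose_j`: by `kl_avg` for `2 * J0`, `∑ i, kl (P i) (avg P) (2 * J0) ≤ N * η * (2 * J0)`. The sum
  over `J0 ≤ j < 2 * J0` of the increments telescopes to
  `∑ i, (kl (2 * J0) - kl J0) ≤ ∑ i, kl (2 * J0)` (`kl_avg_nonneg`), so one of the `J0` increments
  is at most `N * (2 * η)` (`Finset.exists_le_of_sum_le`).
-/

set_option autoImplicit false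

namespace Pool.Agent.NST

open Finset Pool.Agent.PTree Pool.Agent.OSM
open scoped Classical

/-- the defect in the log sum inequality -/
private theorem in_defect {ι : Type} (s : Finset ι) (p r : ι → ℝ) (hp : ∀ i ∈ s, 0 ≤ p i)
    (hr : ∀ i ∈ s, 0 ≤ r i) (h0 : ∀ i ∈ s, r i = 0 → p i = 0) (hR : 0 < ∑ i ∈ s, r i)
    (hP : 0 < ∑ i ∈ s, p i) :
    ∑ i ∈ s, d (p i) (r i) - d (∑ i ∈ s, p i) (∑ i ∈ s, r i) =
      ∑ i ∈ s, d (p i) ((∑ j ∈ s, p j) / (∑ j ∈ s, r j) * r i) := by
  set P := ∑ i ∈ s, p i with hPd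
  set R := ∑ i ∈ s, r i with hRd
  have hl : 0 < P / R := div_pos hP hR
  have h1 : ∀ i ∈ s, d (p i) (P / R * r i) =
      p i * Real.log (p i / r i) - p i * Real.log (P / R) + P / R * r i - p i := by
    intro i hi
    unfold d
    rcases (hp i hi).eq_or_lt with h | h
    · rw [← h]
      ring
    · have hri : 0 < r i := lt_of_le_of_ne (hr i hi) (fun h' => h.ne' (h0 i hi h'.symm))
      rw [Real.log_div h.ne' (mul_pos hl hri).ne', Real.log_div h.ne' hri.ne',
        Real.log_mul hl.ne' hri.ne']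
      ring
  rw [Finset.sum_congr rfl h1]
  unfold d
  simp only [Finset.sum_add_distrib, Finset.sum_sub_distrib, ← Finset.sum_mul, ← Finset.mul_sum]
  rw [← hPd, ← hRd, div_mul_cancel₀ P hR.ne']
  ring

theorem d_incr2 {ι : Type} (s : Finset ι) (p r : ι → ℝ) (hp : ∀ i ∈ s, 0 ≤ p i)
    (hr : ∀ i ∈ s, 0 ≤ r i) (h0 : ∀ i ∈ s, r i = 0 → p i = 0) :
    (∑ i ∈ s, p i) * ∑ i ∈ s.filter (fun i => p i * (∑ j ∈ s, r j) <
        (∑ j ∈ s, p j) * r i / 2), r i ≤
      7 * (∑ i ∈ s, r i) * (∑ i ∈ s, d (p i) (r i) - d (∑ i ∈ s, p i) (∑ i ∈ s, r i)) := by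
  have hls := d_logsum s p r hp hr h0
  rcases (Finset.sum_nonneg hr).eq_or_lt with hR | hR
  · have h1 : ∀ i ∈ s, r i = 0 := (Finset.sum_eq_zero_iff_of_nonneg hr).1 hR.symm
    rw [Finset.sum_eq_zero (fun i hi => h1 i (Finset.mem_filter.1 hi).1), ← hR]
    simp
  · rcases (Finset.sum_nonneg hp).eq_or_lt with hP | hP
    · have h2 : 0 ≤ 7 * (∑ i ∈ s, r i) *
          (∑ i ∈ s, d (p i) (r i) - d (∑ i ∈ s, p i) (∑ i ∈ s, r i)) :=
        mul_nonneg (by positivity) (by linarith)
      rw [← hP, zero_mul]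
      rw [← hP] at h2
      exact h2
    · rw [in_defect s p r hp hr h0 hR hP]
      set P := ∑ i ∈ s, p i with hPd
      set R := ∑ i ∈ s, r i with hRd
      have hl : 0 < P / R := div_pos hP hR
      have hnn : ∀ i ∈ s, 0 ≤ d (p i) (P / R * r i) := by
        intro i hi
        apply d_nonneg (hp i hi) (mul_nonneg hl.le (hr i hi))
        intro h
        rcases mul_eq_zero.1 h with h | h
        · exact absurd h hl.ne'
        · exact h0 i hi h
      have h3 : ∑ i ∈ s.filter (fun i => p i * R < P * r i / 2), P / R * r i / 7 ≤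
          ∑ i ∈ s, d (p i) (P / R * r i) := by
        rw [Finset.sum_filter]
        apply Finset.sum_le_sum
        intro i hi
        split_ifs with hb
        · apply d_half (hp i hi) (mul_nonneg hl.le (hr i hi))
          have : P / R * r i / 2 = (P * r i / 2) / R := by ring
          rw [this, le_div_iff₀ hR]
          exact hb.le
        · exact hnn i hi
      have h4 : ∑ i ∈ s.filter (fun i => p i * R < P * r i / 2), P / R * r i / 7 =
          P / R / 7 * ∑ i ∈ s.filter (fun i => p i * R < P * r i / 2), r i := by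
        rw [Finset.mul_sum]
        apply Finset.sum_congr rfl
        intro i _
        ring
      rw [h4] at h3
      have h5 := mul_le_mul_of_nonneg_left h3 (show (0 : ℝ) ≤ 7 * R by positivity)
      have e : ∀ F : ℝ, P * F = 7 * R * (P / R / 7 * F) := by
        intro F
        field_simp
      rw [e]
      exact h5

section
variable {I X Y : Type} [Fintype I] [Fintype X] [Fintype Y]

/-- The next samples which are much less likely for `P` than for `Q`, given `(x, y)`. -/
noncomputable def zb (P Q : Mx X Y) (l : ℕ) (x : X) (y : Fin l → Y) : Finset Y :=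
  univ.filter fun z => P.pr (l + 1) x (Fin.snoc y z) * Q.pr l x y <
    P.pr l x y * Q.pr (l + 1) x (Fin.snoc y z) / 2

/-- The increment of the relative entropy at `(x, y)`. -/
noncomputable def inc (P Q : Mx X Y) (l : ℕ) (x : X) (y : Fin l → Y) : ℝ :=
  ∑ z, d (P.pr (l + 1) x (Fin.snoc y z)) (Q.pr (l + 1) x (Fin.snoc y z)) -
    d (P.pr l x y) (Q.pr l x y)

theorem zb_le [Nonempty I] {P : I → Mx X Y} (hP : ∀ i, (P i).Ok) (i : I) (l : ℕ) (x : X)
    (y : Fin l → Y) :
    (P i).pr l x y * ∑ z ∈ zb (P i) (avg P) l x y, (avg P).pr (l + 1) x (Fin.snoc y z) ≤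
      7 * (avg P).pr l x y * inc (P i) (avg P) l x y := by
  have h := d_incr2 (univ : Finset Y) (fun z => (P i).pr (l + 1) x (Fin.snoc y z))
    (fun z => (avg P).pr (l + 1) x (Fin.snoc y z)) (fun z _ => Mx.pr_nonneg (hP i) _ _ _)
    (fun z _ => Mx.pr_nonneg (avg_ok hP) _ _ _) (fun z _ => pr_ac_avg hP i _ _ _)
  rw [Mx.pr_succ (hP i), Mx.pr_succ (avg_ok hP)] at h
  exact h

theorem inc_nonneg [Nonempty I] {P : I → Mx X Y} (hP : ∀ i, (P i).Ok) (i : I) (l : ℕ) (x : X)
    (y : Fin l → Y) : 0 ≤ inc (P i) (avg P) l x y := by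
  have h := d_logsum (univ : Finset Y) (fun z => (P i).pr (l + 1) x (Fin.snoc y z))
    (fun z => (avg P).pr (l + 1) x (Fin.snoc y z)) (fun z _ => Mx.pr_nonneg (hP i) _ _ _)
    (fun z _ => Mx.pr_nonneg (avg_ok hP) _ _ _) (fun z _ => pr_ac_avg hP i _ _ _)
  rw [Mx.pr_succ (hP i), Mx.pr_succ (avg_ok hP)] at h
  unfold inc
  linarith

theorem sum_inc (P Q : Mx X Y) (l : ℕ) :
    ∑ x, ∑ y : Fin l → Y, inc P Q l x y = kl P Q (l + 1) - kl P Q l := by
  unfold kl inc
  rw [← Finset.sum_sub_distrib]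
  apply Finset.sum_congr rfl
  intro x _
  rw [sum_snoc, ← Finset.sum_sub_distrib]

theorem choose_j [Nonempty I] [Nonempty X] [Nonempty Y] {P : I → Mx X Y} (hP : ∀ i, (P i).Ok)
    {J0 : ℕ} (hJ : 0 < J0) {η : ℝ}
    (h : ∑ i, klu (P i) (2 * J0) ≤
      Fintype.card I * (klu (avg P) (2 * J0) + η * (2 * J0))) :
    ∃ j, J0 ≤ j ∧ j < 2 * J0 ∧
      ∑ i, (kl (P i) (avg P) (j + 1) - kl (P i) (avg P) j) ≤ Fintype.card I * (2 * η) := by
  rw [kl_avg hP] at h
  have h1 : ∑ i, kl (P i) (avg P) (2 * J0) ≤ Fintype.card I * (η * (2 * J0)) := by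
    rw [mul_add] at h
    linarith
  have h2 : ∑ t ∈ range J0, ∑ i, (kl (P i) (avg P) (J0 + t + 1) - kl (P i) (avg P) (J0 + t)) ≤
      ∑ _t ∈ range J0, (Fintype.card I : ℝ) * (2 * η) := by
    have e1 : ∑ t ∈ range J0, ∑ i, (kl (P i) (avg P) (J0 + t + 1) - kl (P i) (avg P) (J0 + t)) =
        ∑ i, kl (P i) (avg P) (2 * J0) - ∑ i, kl (P i) (avg P) J0 := by
      have h3 := Finset.sum_range_sub (fun t => ∑ i, kl (P i) (avg P) (J0 + t)) J0
      rw [← two_mul, Nat.add_zero] at h3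
      rw [← h3]
      apply Finset.sum_congr rfl
      intro t _
      rw [Finset.sum_sub_distrib]
      rfl
    rw [e1, Finset.sum_const, Finset.card_range, nsmul_eq_mul]
    have h4 : 0 ≤ ∑ i, kl (P i) (avg P) J0 := Finset.sum_nonneg fun i _ => kl_avg_nonneg hP i _
    have h5 : (Fintype.card I : ℝ) * (η * (2 * J0)) = J0 * (Fintype.card I * (2 * η)) := by ring
    linarith
  obtain ⟨t, ht, h3⟩ := Finset.exists_le_of_sum_le (Finset.nonempty_range_iff.2 hJ.ne') h2
  have ht' := Finset.mem_range.1 ht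
  exact ⟨J0 + t, by omega, by omega, h3⟩

end

end Pool.Agent.NST
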