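import Pool.Agent.NST.Defs

/-!
# NST/Nums: the choice of the numbers

`ℓ` is the maximum of `4 * card (Sn n0) * (n0 + 5)`, `nw` and a natural number
`≥ |a - ε| * nw / ε`; note `n0 ≥ 1`. Then `D` with `160 / (..) * N < 2 ^ (D + 1)`
(`pow_unbounded_of_one_lt`), and `sf = min 1 (κ.s * κ.q ^ n0 / 100 / ℓ ^ n0)` (`ℓ > 0`).
-/

set_option autoImplicit false

namespace Pool.Agent.NST

open Finset Pool.Agent.PTree Pool.Agent.OSM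
open scoped Classical

theorem nums (κ : Par) (a : ℝ) {ε : ℝ} (hε : 0 < ε) {n0 : ℕ} (hn0 : 0 < n0) (nw N : ℕ) :
    ∃ (ℓ D : ℕ) (sf : ℝ), 0 < sf ∧ sf ≤ 1 ∧ 4 * Fintype.card (Sn n0) * (n0 + 5) ≤ ℓ ∧
      nw ≤ 2 * (n0 * ℓ) ∧ |a - ε| * nw ≤ ε * (2 * ((n0 : ℝ) * ℓ)) ∧
      160 / (κ.s * κ.q ^ (2 * (n0 * ℓ))) * (N : ℝ) < 2 ^ (D + 1) ∧
      (ℓ : ℝ) ^ n0 * sf ≤ κ.s * κ.q ^ n0 / 100 := by
  obtain ⟨A, hA⟩ := exists_nat_ge (|a - ε| * nw / ε)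
  set ℓ : ℕ := max (max (4 * Fintype.card (Sn n0) * (n0 + 5)) nw) (A + 1) with hℓ
  have h1 : 4 * Fintype.card (Sn n0) * (n0 + 5) ≤ ℓ := (le_max_left _ _).trans (le_max_left _ _)
  have h2 : nw ≤ ℓ := (le_max_right _ _).trans (le_max_left _ _)
  have h3 : A + 1 ≤ ℓ := le_max_right _ _
  obtain ⟨D, hD⟩ := pow_unbounded_of_one_lt (160 / (κ.s * κ.q ^ (2 * (n0 * ℓ))) * (N : ℝ))
    (one_lt_two : (1 : ℝ) < 2)
  have hℓ0 : (0 : ℝ) < ℓ := by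
    have : 0 < ℓ := by omega
    exact_mod_cast this
  have hn1 : (1 : ℝ) ≤ n0 := by exact_mod_cast hn0
  have hq := κ.hq
  have hs := κ.hs
  refine ⟨ℓ, D, min 1 (κ.s * κ.q ^ n0 / 100 / (ℓ : ℝ) ^ n0), lt_min one_pos (by positivity),
    min_le_left _ _, h1, ?_, ?_, ?_, ?_⟩
  · have : ℓ ≤ n0 * ℓ := Nat.le_mul_of_pos_left ℓ hn0
    omega
  · have h4 : |a - ε| * nw ≤ ε * A := by
      rw [div_le_iff₀ hε] at hA
      linarith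
    have h5 : (A : ℝ) ≤ ℓ := by exact_mod_cast (by omega : A ≤ ℓ)
    have h6 : (ℓ : ℝ) ≤ 2 * ((n0 : ℝ) * ℓ) := by nlinarith
    calc |a - ε| * nw ≤ ε * A := h4
      _ ≤ ε * (2 * ((n0 : ℝ) * ℓ)) := mul_le_mul_of_nonneg_left (h5.trans h6) hε.le
  · refine hD.trans_le ?_
    exact pow_le_pow_right₀ one_le_two (Nat.le_succ D)
  · calc (ℓ : ℝ) ^ n0 * min 1 (κ.s * κ.q ^ n0 / 100 / (ℓ : ℝ) ^ n0)
        ≤ (ℓ : ℝ) ^ n0 * (κ.s * κ.q ^ n0 / 100 / (ℓ : ℝ) ^ n0) :=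
          mul_le_mul_of_nonneg_left (min_le_right _ _) (by positivity)
      _ = κ.s * κ.q ^ n0 / 100 := by
          field_simp

end Pool.Agent.NST
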