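import Pool.Agent.NST.Conj
import Pool.Agent.NST.Extr
import Pool.Agent.NST.Game

/-!
# NST/Points: a point near which only few sequences are not viable

Proof. `hv` gives `T1, m1, c1` with `IsTree T1`, `c1 < M T1`, `c ≤ c1`, `Nb T1 m1 c1 ⊆ Nb T n c`,
`Dead E (n + 1) T1` and `π` for `Viable l ((Thr F κ a).or (pin l n γ)) (Nb T1 m1 c1)`.
(1) If `¬ Via (l + 1) F n T c (update γ l G) E` then the event
`X G = BB (F.or (pin (l + 1) n (update γ l G))) n κ.q δ` is unblockable on `Nb T1 m1 c1`: let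
`Nb T2 m2 c2 ⊆ Nb T1 m1 c1` with `T2` a tree, `c2 < M T2`, and `π'` a witness for
`Viable l (X G) (Nb T2 m2 c2)`. Then `Function.update π' l ⟨n, κ.q, δ, ..⟩` is a witness for
`Viable (l + 1) (F.or (pin (l + 1) n (update γ l G))) (Nb T2 m2 c2)` (`Met_congr`). As
`T2 ∈ Nb T1 m1 c1` (`Nb.self`), `c1 < M T2`; with `m3 = max m1 m2`, `c3 = max c1 c2`,
`Nb T2 m3 c3 ⊆ Nb T2 m2 c2 ∩ Nb T1 m1 c1` (`Nb.subset`), `c ≤ c3`, and `T2` is dead at `E`
(`Sub T2 T1`). So `Via (l + 1) ..` holds, contradiction.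
(2) Up to agreement the number of the `G` is finite: for `r : Fin n → Fin n → Bool` let
`G_r i j = if h : i < n ∧ j < n then r ⟨i, h.1⟩ ⟨j, h.2⟩ else false`; each `G` agrees with some
`G_r` for `i, j < n`, and then the events `pin (l + 1) n (update γ l G)`, `FPin n n G` and `Via` are
the same as those for `G_r` (`pin_congr`: `Ag (l + 1) n (update γ l G) (update γ l G_r)`). Let `s` be
the set of the `r` with `¬ Via (l + 1) F n T c (update γ l G_r) E`. By `unb_all` the event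
`allF s (fun r => X G_r)` is unblockable on `Nb T1 m1 c1`. By `Unb.exists` (with `π`,
`n0 = max n N'`) there are `T' ∈ Nb T1 m1 c1` and `n' ≥ n, N'` with
`(Met l π (allF s ..)).bad n' T' _`. As `π` is a witness for viability,
`¬ (Met l π ((Thr F κ a).or (pin l n γ))).bad n' T' _`. `extr` gives `γ'` in all `X G_r`, `r ∈ s`, at
`n'`, and not in `Thr F κ a`, and not in `pin l n γ`, i.e. `Ag l n γ γ'` (`n ≤ n'`).
(3) `(X G_r).bad n' T' γ'` says `b ((F.or (pin (l + 1) n (update γ l G_r))).slice γ') n' T' n κ.q < δ`;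
for `H` a sequence, `(pin (l + 1) n (update γ l G)).bad n' T' (update γ' l H)` iff `H i j ≠ G i j` for
some `i, j < n`, iff `(FPin n n G).bad n' T' H` (as `n ≤ n'`, `Ag l n γ γ'`). So
`((F.slice γ').or (FPin n n G))` and the slice have the same bad points at `n', T'` (for `b` use
`gs` extensionality: `Good` only uses `.bad n' T'`).
-/

set_option autoImplicit false

namespace Pool.Agent.NST

open Finset Pool.Agent.PTree Pool.Agent.OSM
open scoped Classical

theorem Met_congr {l : ℕ} {π π' : ℕ → Par} (h : ∀ c < l, π c = π' c) (F : MF l) :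
    Met l π F = Met l π' F := by
  induction l with
  | zero => rfl
  | succ l ih =>
    unfold Met
    rw [h l (Nat.lt_succ_self l)]
    exact ih (fun c hc => h c (hc.trans (Nat.lt_succ_self l))) _

private theorem mf_ext {l : ℕ} {F F' : MF l} (h : F.bad = F'.bad) : F = F' := by
  obtain ⟨b1, l1, m1⟩ := F
  obtain ⟨b2, l2, m2⟩ := F'
  have hb : b1 = b2 := h
  subst hb
  rfl

private theorem pin_congr {l n : ℕ} {γ γ' : Pt} (h : Ag l n γ γ') : pin l n γ = pin l n γ' := by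
  apply mf_ext
  funext n' T G
  apply propext
  constructor
  · rintro ⟨h1, h2⟩
    exact ⟨h1, fun h3 => h2 (h.trans h3)⟩
  · rintro ⟨h1, h2⟩
    exact ⟨h1, fun h3 => h2 (h.symm.trans h3)⟩

private theorem b_congr_bad {F F' : Forb Bool} {n : ℕ} {T : StrSet}
    (h : ∀ H, F.bad n T H ↔ F'.bad n T H) (k : ℕ) (q : ℝ) : b F n T k q = b F' n T k q := by
  unfold b
  congr 1
  ext x
  rw [mem_gs, mem_gs]
  constructor
  · rintro ⟨R, h1, h2⟩
    exact ⟨R, h1, fun H h3 h4 h5 => h2 H h3 h4 ((h H).2 h5)⟩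
  · rintro ⟨R, h1, h2⟩
    exact ⟨R, h1, fun H h3 h4 h5 => h2 H h3 h4 ((h H).1 h5)⟩

private def Gr (n : ℕ) (r : Fin n → Fin n → Bool) : ℕ → ℕ → Bool := fun i j =>
  if h : i < n ∧ j < n then r ⟨i, h.1⟩ ⟨j, h.2⟩ else false

private theorem ag_update {l n : ℕ} {γ γ' : Pt} (h : Ag l n γ γ') {G G' : ℕ → ℕ → Bool}
    (hG : ∀ i < n, ∀ j < n, G' i j = G i j) :
    Ag (l + 1) n (Function.update γ l G) (Function.update γ' l G') := by
  intro c hc i hi j hj
  by_cases hcl : c = l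
  · subst hcl
    simp only [Function.update_self]
    exact hG i hi j hj
  · simp only [Function.update_of_ne hcl]
    exact h c (by omega) i hi j hj

private theorem unb_of_not_via {l : ℕ} {F : MF (l + 1)} {κ : Par} {n : ℕ} {T : StrSet} {c : ℝ}
    {γ : Pt} {E : Finset (List Bool)} {T1 : StrSet} {m1 : ℕ} {c1 : ℝ} (hcc : c ≤ c1)
    (hsub : Nb T1 m1 c1 ⊆ Nb T n c) (hdead : Dead E (n + 1) T1) {δ : ℝ} (hδ : 0 < δ)
    (hδ1 : δ ≤ 1) (G : ℕ → ℕ → Bool)
    (hG : ¬ Via (l + 1) F n T c (Function.update γ l G) E) :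
    Unb l (BB (F.or (pin (l + 1) n (Function.update γ l G))) n κ.q δ) (Nb T1 m1 c1) := by
  intro T2 m2 c2 hT2 hc2 hN ⟨π', hπ'⟩
  apply hG
  have h2 : T2 ∈ Nb T1 m1 c1 := hN (Nb.self hT2 m2 hc2)
  have hs1 : Nb T2 (max m1 m2) (max c1 c2) ⊆ Nb T2 m2 c2 :=
    Nb.subset (Nb.self hT2 m2 hc2) (le_max_right _ _) (le_max_right _ _)
  refine ⟨T2, max m1 m2, max c1 c2, hT2, max_lt h2.2.2.2 hc2, hcc.trans (le_max_left _ _),
    (Nb.subset h2 (le_max_left _ _) (le_max_left _ _)).trans hsub,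
    fun σ hσ => hdead σ (h2.2.1 σ hσ), ?_⟩
  refine ⟨Function.update π' l ⟨n, κ.q, δ, κ.hq, κ.hq1, hδ, hδ1⟩, fun T3 hT3 n3 G3 hb => ?_⟩
  refine hπ' T3 (hs1 hT3) n3 G3 ?_
  have h3 : Met l (Function.update π' l ⟨n, κ.q, δ, κ.hq, κ.hq1, hδ, hδ1⟩)
      (BB (F.or (pin (l + 1) n (Function.update γ l G))) n κ.q δ) =
      Met l π' (BB (F.or (pin (l + 1) n (Function.update γ l G))) n κ.q δ) :=
    Met_congr (fun c hc => Function.update_of_ne hc.ne _ _) _
  rw [← h3]
  unfold Met at hb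
  rw [Function.update_self] at hb
  exact hb

theorem points {l : ℕ} {F : MF (l + 1)} {κ : Par} {a : ℝ} {n : ℕ} {T : StrSet} {c : ℝ} {γ : Pt}
    {E : Finset (List Bool)} (hv : Via l (Thr F κ a) n T c γ E) (N' : ℕ) {δ : ℝ} (hδ : 0 < δ)
    (hδ1 : δ ≤ 1) :
    ∃ (T' : StrSet) (n' : ℕ) (γ' : Pt), Agree n T T' ∧ n ≤ n' ∧ N' ≤ n' ∧ Ag l n γ γ' ∧
      ¬ (Thr F κ a).bad n' T' γ' ∧
      ∀ G : ℕ → ℕ → Bool, ¬ Via (l + 1) F n T c (Function.update γ l G) E →
        b ((F.slice γ').or (FPin n n G)) n' T' n κ.q < δ := by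
  obtain ⟨T1, m1, c1, hT1, hc1, hcc, hsub, hdead, π, hπ⟩ := hv
  set s : Finset (Fin n → Fin n → Bool) := Finset.univ.filter fun r =>
    ¬ Via (l + 1) F n T c (Function.update γ l (Gr n r)) E with hs
  have hunb := unb_all s (fun r => BB (F.or (pin (l + 1) n (Function.update γ l (Gr n r)))) n κ.q δ)
    (N := Nb T1 m1 c1) (fun r hr => unb_of_not_via hcc hsub hdead hδ hδ1 (Gr n r)
      (Finset.mem_filter.1 hr).2)
  obtain ⟨T', hT', n', hn', hb⟩ := hunb.exists hT1 hc1 subset_rfl π (max n N')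
  have hnn : n ≤ n' := (le_max_left _ _).trans hn'
  obtain ⟨γ', h1, h2⟩ := extr (hb (fun _ _ _ => false)) (hπ T' hT' n' (fun _ _ _ => false))
  have h3 : ¬ (Thr F κ a).bad n' T' γ' := fun h => h2 (Or.inl h)
  have h4 : Ag l n γ γ' := by
    by_contra h
    exact h2 (Or.inr ⟨hnn, h⟩)
  refine ⟨T', n', γ', (hsub hT').2.2.1, hnn, (le_max_right _ _).trans hn', h4, h3, ?_⟩
  intro G hG
  have hGr : ∀ i < n, ∀ j < n, Gr n (fun i j => G i j) i j = G i j := by
    intro i hi j hj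
    unfold Gr
    rw [dif_pos ⟨hi, hj⟩]
  have hpin : pin (l + 1) n (Function.update γ l G) =
      pin (l + 1) n (Function.update γ l (Gr n (fun i j => G i j))) :=
    pin_congr (ag_update (Ag.refl l n γ) hGr)
  have hr : (fun (i j : Fin n) => G i j) ∈ s := by
    rw [hs, Finset.mem_filter]
    refine ⟨Finset.mem_univ _, fun hv' => hG ?_⟩
    unfold Via at hv' ⊢
    rw [hpin]
    exact hv'
  have h5 := h1 _ hr
  change b ((F.or (pin (l + 1) n (Function.update γ l (Gr n (fun i j => G i j))))).slice γ')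
    n' T' n κ.q < δ at h5
  refine lt_of_eq_of_lt (b_congr_bad (fun H => ?_) n κ.q) h5
  show (F.bad n' T' (Function.update γ' l H) ∨
      (n ≤ n' ∧ n ≤ n' ∧ ∃ i < n, ∃ j < n, H i j ≠ G i j)) ↔
    (F.bad n' T' (Function.update γ' l H) ∨
      (n ≤ n' ∧ ¬ Ag (l + 1) n (Function.update γ l (Gr n (fun i j => G i j)))
        (Function.update γ' l H)))
  refine or_congr Iff.rfl ?_
  constructor
  · rintro ⟨-, -, i, hi, j, hj, hne⟩
    refine ⟨hnn, fun hag => hne ?_⟩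
    have h6 := hag l (Nat.lt_succ_self l) i hi j hj
    simp only [Function.update_self] at h6
    rw [h6]
    exact hGr i hi j hj
  · rintro ⟨-, hag⟩
    refine ⟨hnn, hnn, ?_⟩
    by_contra hcon
    push Not at hcon
    refine hag (ag_update h4 fun i hi j hj => ?_)
    rw [hcon i hi j hj]
    exact (hGr i hi j hj).symm

end Pool.Agent.NST
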