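import Pool.Agent.NST.Super
import Pool.Agent.NST.CommP
import Pool.Agent.NST.Core
import Pool.Agent.NST.Points
import Pool.Agent.OSM.BLowB

/-!
# NST/OutCore: the last step of a play, without the nodes

Write `J0 = n0 * ℓ`, `r = 2 * J0`, `N = card (Sn m0 → AA × ZMod 2)`, `ρ = rhoN κ.q N`,
`L = log (1 / κ.s)`, `I = {ω // ω ∈ Wb}` (nonempty, as `card (Sn m1 → AA) ≥ 1`), `cX, cY` the
cardinalities of `Fin κ.k → Sn n` and `Sn n`, `δ = κ.s * κ.q ^ n * lowN κ.q N cX cY J0 n` (`0 < δ ≤ 1`).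
(1) For `i ∈ I` apply `points` to `hvia` (with `N' = r`): `T' i`, `n' i`, `γ' i`. As
`¬ (Thr F κ a).bad (n' i) ..` and `r ≤ n' i` there is a mixture `mm i` fitting at `(n' i, T' i)` for
`F.slice (γ' i)` with `klu (mm i) r ≤ a * r + L`.
(2) `P i = (mm i).map (fun x t => res _ (x t)) (res _)` fits at `(n, T)` for `F.slice γ`
(`Fit.map`, `fit_slice`), `klu (P i) r ≤ klu (mm i) r` (`klu_map`, `eqFib_comp`, `eqFib_res`).
(3) `avg P` fits (`fit_avg`), so `super_low` (with `a' = a - ε`) gives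
`(a - ε) * r - ε * r + L ≤ klu (avg P) r`; hence
`∑ klu (P i) r ≤ card I * (a * r + L) ≤ card I * (klu (avg P) r + 2 * ε * r)`, and
`η = 2 * ε = 1 / 25000 ≤ 1 / 22400`.
(4) `Z = gs (C.slice γ) n T n0 ρ`, `dens Z < sf` by `hC`. `bad_prob2` for `avg P`, `F.slice γ`,
`X = A0.slice γ` (`hub` is `hA0` unfolded; `(F.or A0).slice γ = (F.slice γ).or (A0.slice γ)` by `rfl`).
(5) `core` with `pr = res h01`, `Bad = BadS (A0.slice γ) T n0 n ℓ Z`: `j, x, y, s', β, ωf, W', R`.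
(6) By `¬ Bad` there is `sg : Fin n0 → Fin ℓ` with
`CCm (A0.slice γ) T n0 n x (sel y0 sg)` and `merge n0 x (sel y0 sg) ∉ Z`, where
`y0 i = y (i.castLE hj)` (`BadS`: the negation of the left side gives one `sg`, the negation of the
right side holds for all). As `ρ ≤ dens R`, `R` is not good for `C.slice γ`: there is `G` with
`cut n (G i) = merge n0 x (sel y0 sg) i` (`i < n0`), `cut n (G i) ∈ R` (`i ≥ n0`) and
`C.bad n T (update γ l G)`. By `CCm`, `A0.bad n0 T (update γ l G)`.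
(7) `¬ F.bad n T (update γ l G)`: take `τ ∈ W'` (`1 ≤ N ≤ 2 * W'.card`) and its state `a` from `core`:
`G` is a sequence of its good reservoir: for `i < κ.k`, `cut n (G i) = x i`; for `κ.k ≤ i < n0` it is
some `y t`, which has `0 < f a (y t)`; for `n0 ≤ i` it is in `R`.
(8) `Via` for `τ ∈ W'`: otherwise by `points`
`b ((F.slice (γ' i)).or (FPin n n G)) (n' i) (T' i) n κ.q < δ` for `i = ωf τ`. But by `b_low2` (with
`n = n0 + r1`) it is at least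
`κ.s * κ.q ^ n * (P i).pr (j + r1) x (append y fun t => cut n (G (n0 + t)))`, which is at least
`κ.s * κ.q ^ n * lowN κ.q N cX cY J0 r1 ≥ δ` (`core`; `lowN` is antitone in `r`, as
`thN N / (4 * cY) ≤ 1`).
-/

set_option autoImplicit false

namespace Pool.Agent.NST

open Finset Pool.Agent.PTree Pool.Agent.OSM
open scoped Classical

/-- `core` with the cardinalities given as numbers. -/
theorem core_nat {V V0 AA X Y : Type} [Fintype V] [Fintype V0] [Fintype AA] [AddCommGroup AA]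
    [Fintype X] [Nonempty X] [Fintype Y] [Nonempty Y] (pr : V → V0) (Wb : Finset (V → AA))
    {N NV cX cY : ℕ} (hN : Nat.card (V0 → AA × ZMod 2) = N) (hNV : Nat.card (V → AA) = NV)
    (hcX : Fintype.card X = cX) (hcY : Fintype.card Y = cY)
    (hWb : NV ≤ 2 * Wb.card) (P : {ω // ω ∈ Wb} → Mx X Y)
    (hP : ∀ i, (P i).Ok) {q s : ℝ} (hq : 0 < q) (hq1 : q ≤ 1) (hs : 0 < s)
    (hf : ∀ i a y, (P i).f a y ≤ (1 / q) / (Fintype.card Y : ℝ))
    (hx : ∀ i x, (∑ a, if (P i).x a = x then (P i).w a else 0) ≤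
      (1 / s) / (Fintype.card X : ℝ))
    {J0 : ℕ} (hJ : 0 < J0) {η : ℝ} (hη : 0 < η) (hη1 : η ≤ 1 / 22400)
    (h : ∑ i, klu (P i) (2 * J0) ≤
      Fintype.card {ω // ω ∈ Wb} * (klu (avg P) (2 * J0) + η * (2 * J0)))
    (Bad : X → (Fin J0 → Y) → Prop)
    (hBad : (∑ x, ∑ y : Fin J0 → Y, if Bad x y then (avg P).pr J0 x y else 0) ≤ 1 / 4)
    {D : ℕ} (hD : 160 / (s * q ^ (2 * J0)) * (N : ℝ) < 2 ^ (D + 1)) :
    ∃ (j : ℕ) (hj : J0 ≤ j) (x : X) (y : Fin j → Y), ¬ Bad x (fun i => y (i.castLE hj)) ∧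
      ∃ (s' : V → AA) (β : V → ZMod 2) (ωf : (V0 → AA × ZMod 2) → {ω // ω ∈ Wb}),
        (∀ τ : V0 → AA × ZMod 2, (univ.filter fun v =>
          (τ (pr v)).2 = β v ∧ (ωf τ).1 v ≠ (τ (pr v)).1 + s' v).card ≤ D) ∧
        ∃ (G : Finset (V0 → AA × ZMod 2)) (R : Finset Y),
          N ≤ 2 * G.card ∧ rhoN q N ≤ OSM.dens R ∧
          (∀ τ ∈ G, ∀ (r : ℕ) (z : Fin r → Y), (∀ t, z t ∈ R) →
            lowN q N cX cY J0 r ≤ (P (ωf τ)).pr (j + r) x (Fin.append y z)) ∧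
          ∀ τ ∈ G, ∃ a : (P (ωf τ)).ι, (P (ωf τ)).x a = x ∧ (∀ t, 0 < (P (ωf τ)).f a (y t)) ∧
            ∀ z ∈ R, 0 < (P (ωf τ)).f a z := by
  subst hN hNV hcX hcY
  rw [Nat.card_eq_fintype_card] at hWb hD ⊢
  exact core pr Wb hWb P hP hq hq1 hs hf hx hJ hη hη1 h Bad hBad hD

theorem out_core {l : ℕ} {F : MF (l + 1)} {κ : Par} {a ε c : ℝ} {AA : Type} [Fintype AA]
    [AddCommGroup AA] {T : StrSet} {n n0 nw m0 m1 ℓ D : ℕ} {γ : Pt} (h01 : m0 ≤ m1)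
    (hε : ε = 1 / 50000) (hn0 : 0 < n0) (hk : κ.k ≤ n0) (hn : n0 ≤ n) (hnw : nw ≤ n)
    (hℓ : 4 * Fintype.card (Sn n0) * (n0 + 5) ≤ ℓ) (hw : nw ≤ 2 * (n0 * ℓ))
    (hε2 : |a - ε| * nw ≤ ε * (2 * ((n0 : ℝ) * ℓ)))
    (hD : 160 / (κ.s * κ.q ^ (2 * (n0 * ℓ))) *
      (Fintype.card (Sn m0 → AA × ZMod 2) : ℝ) < 2 ^ (D + 1))
    {sf : ℝ} (hsf : (ℓ : ℝ) ^ n0 * sf ≤ κ.s * κ.q ^ n0 / 100) (A0 C : MF (l + 1))
    (hA0 : (BB (F.or A0) κ.k (3 * κ.q / 4) (κ.s / 100)).bad n0 T γ)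
    (hU : (Thr F κ (a - ε)).bad nw T γ)
    (hC : (BB C n0 (rhoN κ.q (Fintype.card (Sn m0 → AA × ZMod 2))) sf).bad n T γ)
    (Wb : Finset (Sn m1 → AA)) (Eb : (Sn m1 → AA) → Finset (List Bool))
    (hWb : Fintype.card (Sn m1 → AA) ≤ 2 * Wb.card)
    (hvia : ∀ ω ∈ Wb, Via l (Thr F κ a) n T c γ (Eb ω)) :
    ∃ (G : ℕ → ℕ → Bool) (s' : Sn m1 → AA) (β : Sn m1 → ZMod 2)
      (ωf : (Sn m0 → AA × ZMod 2) → (Sn m1 → AA)) (W' : Finset (Sn m0 → AA × ZMod 2)),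
      A0.bad n0 T (Function.update γ l G) ∧ C.bad n T (Function.update γ l G) ∧
      ¬ F.bad n T (Function.update γ l G) ∧
      (∀ τ : Sn m0 → AA × ZMod 2, ωf τ ∈ Wb ∧ (univ.filter fun v =>
        (τ (res h01 v)).2 = β v ∧ ωf τ v ≠ (τ (res h01 v)).1 + s' v).card ≤ D) ∧
      Fintype.card (Sn m0 → AA × ZMod 2) ≤ 2 * W'.card ∧
      ∀ τ ∈ W', Via (l + 1) F n T c (Function.update γ l G) (Eb (ωf τ)) := by
  have hκq := κ.hq
  have hκq1 := κ.hq1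
  have hκs := κ.hs
  have hκs1 := κ.hs1
  obtain ⟨J0, hJ0⟩ : ∃ J0, J0 = n0 * ℓ := ⟨_, rfl⟩
  obtain ⟨N, hN⟩ : ∃ N, N = Fintype.card (Sn m0 → AA × ZMod 2) := ⟨_, rfl⟩
  have hcn0 : 0 < Fintype.card (Sn n0) := Fintype.card_pos
  have hℓ0 : 0 < ℓ := by
    refine lt_of_lt_of_le ?_ hℓ
    positivity
  have hJpos : 0 < J0 := by rw [hJ0]; exact Nat.mul_pos hn0 hℓ0
  obtain ⟨cX, hcX⟩ : ∃ cX, cX = Fintype.card (Fin κ.k → Sn n) := ⟨_, rfl⟩
  obtain ⟨cY, hcY⟩ : ∃ cY, cY = Fintype.card (Sn n) := ⟨_, rfl⟩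
  have hcX1 : (1 : ℝ) ≤ cX := by
    rw [hcX]; exact_mod_cast Fintype.card_pos (α := Fin κ.k → Sn n)
  have hcY1 : (1 : ℝ) ≤ cY := by
    rw [hcY]; exact_mod_cast Fintype.card_pos (α := Sn n)
  have hth := thN_pos N
  have hth1 := thN_le N
  -- the bound `lowN`
  have hlow : ∀ r, 0 < lowN κ.q N cX cY J0 r := by
    intro r
    unfold lowN
    have h1 : (0 : ℝ) < cX := by linarith
    have h2 : (0 : ℝ) < cY := by linarith
    positivity
  have hfrac : thN N / (4 * (cY : ℝ)) ≤ 1 := by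
    rw [div_le_one (by linarith)]
    linarith
  have hfrac0 : 0 ≤ thN N / (4 * (cY : ℝ)) := by
    have h2 : (0 : ℝ) < cY := by linarith
    positivity
  have hlow_anti : ∀ r r', r ≤ r' → lowN κ.q N cX cY J0 r' ≤ lowN κ.q N cX cY J0 r := by
    intro r r' h
    unfold lowN
    have h1 : (0 : ℝ) < cX := by linarith
    have h2 : (0 : ℝ) < cY := by linarith
    exact mul_le_mul_of_nonneg_left (pow_le_pow_of_le_one hfrac0 hfrac h) (by positivity)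
  have hlow1 : ∀ r, lowN κ.q N cX cY J0 r ≤ 1 := by
    intro r
    refine (hlow_anti 0 r (Nat.zero_le r)).trans ?_
    unfold lowN
    rw [pow_zero, mul_one]
    have h1 : (0 : ℝ) < cX := by linarith
    have h2 : (0 : ℝ) < cY := by linarith
    have h3 : (1 : ℝ) ≤ (cY : ℝ) ^ (2 * J0) := one_le_pow₀ hcY1
    have h4 : (1 : ℝ) ≤ 10 * ((cX : ℝ) * (cY : ℝ) ^ (2 * J0)) := by nlinarith
    have h5 : 1 / (10 * ((cX : ℝ) * (cY : ℝ) ^ (2 * J0))) / 4 ≤ 1 := by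
      have h6 : 1 / (10 * ((cX : ℝ) * (cY : ℝ) ^ (2 * J0))) ≤ 1 := by
        rw [div_le_one (by linarith)]; exact h4
      linarith
    have h7 : κ.q * thN N / 8 / 2 ^ cY ≤ 1 := by
      have h8 : (1 : ℝ) ≤ 2 ^ cY := one_le_pow₀ (by norm_num)
      rw [div_le_one (by positivity)]
      have h9 : κ.q * thN N ≤ 1 := mul_le_one₀ hκq1 hth.le hth1
      linarith
    exact mul_le_one₀ h5 (by positivity) h7
  obtain ⟨δ, hδe⟩ : ∃ δ, δ = κ.s * κ.q ^ n * lowN κ.q N cX cY J0 n := ⟨_, rfl⟩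
  have hδ : 0 < δ := by rw [hδe]; have := hlow n; positivity
  have hδ1 : δ ≤ 1 := by
    rw [hδe]
    exact mul_le_one₀ (mul_le_one₀ hκs1 (by positivity) (pow_le_one₀ hκq.le hκq1)) (hlow n).le
      (hlow1 n)
  -- (1) points and mixtures
  have hpt := fun i : {ω // ω ∈ Wb} => points (hvia i.1 i.2) (2 * J0) hδ hδ1
  choose T' n' γ' hA hnn hrn hAg hThr hb using hpt
  have hmm : ∀ i : {ω // ω ∈ Wb}, ∃ m : Mx (Fin κ.k → Sn (n' i)) (Sn (n' i)),
      Fit (F.slice (γ' i)) (n' i) (T' i) κ.k κ.q κ.s m ∧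
        klu m (2 * J0) ≤ a * ((2 * J0 : ℕ) : ℝ) + Real.log (1 / κ.s) := by
    intro i
    by_contra hcon
    push Not at hcon
    exact hThr i ⟨2 * J0, hrn i, fun m hm => hcon m hm⟩
  choose mm hmf hmk using hmm
  -- (2) the mixtures at level `n`
  obtain ⟨P, hP⟩ : ∃ P : {ω // ω ∈ Wb} → Mx (Fin κ.k → Sn n) (Sn n),
      P = fun i => (mm i).map (fun x t => res (hnn i) (x t)) (res (hnn i)) := ⟨_, rfl⟩
  have hPf : ∀ i, Fit (F.slice γ) n T κ.k κ.q κ.s (P i) := by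
    intro i
    rw [hP]
    exact fit_slice (hA i).symm (hAg i).symm (Fit.map (hnn i) hκq (hmf i))
  have hPk : ∀ i, klu (P i) (2 * J0) ≤ a * ((2 * J0 : ℕ) : ℝ) + Real.log (1 / κ.s) := by
    intro i
    rw [hP]
    exact (klu_map (hmf i).ok (eqFib_comp (eqFib_res (hnn i)) κ.k) (eqFib_res (hnn i))
      (2 * J0)).trans (hmk i)
  -- (3) the entropies
  have hcV : 0 < Fintype.card (Sn m1 → AA) := Fintype.card_pos
  have hWpos : 0 < Wb.card := by omega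
  obtain ⟨ω0, hω0⟩ := Finset.card_pos.1 hWpos
  have hne : Nonempty {ω // ω ∈ Wb} := ⟨⟨ω0, hω0⟩⟩
  have havg : Fit (F.slice γ) n T κ.k κ.q κ.s (avg P) := fit_avg hPf
  have hsup := super_low hU hnw havg (r := 2 * J0) (by rw [hJ0]; exact hw)
    (ε := ε) (by rw [hJ0]; push_cast; exact hε2)
  have hsum : ∑ i, klu (P i) (2 * J0) ≤ Fintype.card {ω // ω ∈ Wb} *
      (klu (avg P) (2 * J0) + (2 * ε) * (2 * J0)) := by
    have h1 : ∑ i, klu (P i) (2 * J0) ≤ ∑ _i : {ω // ω ∈ Wb},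
        (a * ((2 * J0 : ℕ) : ℝ) + Real.log (1 / κ.s)) := Finset.sum_le_sum fun i _ => hPk i
    rw [Finset.sum_const, Finset.card_univ, nsmul_eq_mul] at h1
    refine h1.trans (mul_le_mul_of_nonneg_left ?_ (Nat.cast_nonneg _))
    push_cast at hsup ⊢
    linarith
  -- (4) bad samples
  obtain ⟨Z, hZ⟩ : ∃ Z, Z = gs (C.slice γ) n T n0 (rhoN κ.q N) := ⟨_, rfl⟩
  have hZd : OSM.dens Z < sf := by
    rw [hZ, hN]
    exact hC
  have hBad : (∑ x, ∑ y : Fin (n0 * ℓ) → Sn n,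
      if BadS (A0.slice γ) T n0 n ℓ Z x y then (avg P).pr (n0 * ℓ) x y else 0) ≤ 1 / 4 := by
    refine bad_prob2 hκq hκs hk hn (F := F.slice γ) ?_ hℓ havg Z ?_
    · exact hA0
    · exact (mul_le_mul_of_nonneg_left hZd.le (by positivity)).trans hsf
  -- (5) the core
  subst hJ0
  have hNc : Nat.card (Sn m0 → AA × ZMod 2) = N := by
    rw [hN, Nat.card_eq_fintype_card]
  have hNV : Nat.card (Sn m1 → AA) = Fintype.card (Sn m1 → AA) := Nat.card_eq_fintype_card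
  rw [← hN] at hD
  obtain ⟨j, hj, x, y, hbad, s', β, ωf, hag, W', R, hW', hR, hpr, hst⟩ := core_nat (res h01) Wb
    hNc hNV hcX.symm hcY.symm hWb P
    (fun i => (hPf i).ok) hκq hκq1 hκs (fun i a y => (hPf i).f_le a y)
    (fun i x => by convert (hPf i).x_le x) hJpos (η := 2 * ε) (by rw [hε]; norm_num)
    (by rw [hε]; norm_num) hsum (BadS (A0.slice γ) T n0 n ℓ Z) hBad hD
  -- (6) the arrangement
  unfold BadS at hbad
  rw [not_or, not_not] at hbad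
  obtain ⟨⟨sg, hsg⟩, hbad2⟩ := hbad
  have hnZ : merge n0 x (sel (fun i => y (i.castLE hj)) sg) ∉ Z := fun h => hbad2 ⟨sg, h⟩
  obtain ⟨xx, hxx⟩ : ∃ xx : Fin n0 → Sn n,
      xx = merge n0 x (sel (fun i => y (i.castLE hj)) sg) := ⟨_, rfl⟩
  have hnG : ¬ Good (C.slice γ) n T xx R := by
    intro hg
    apply hnZ
    rw [hZ, mem_gs, ← hxx]
    exact ⟨R, hR, hg⟩
  unfold Good at hnG
  push Not at hnG
  obtain ⟨G, hG1, hG2, hG3⟩ := hnG
  have hA0G : A0.bad n0 T (Function.update γ l G) := hsg G fun i => by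
    rw [hG1 i, hxx]
  -- the values of the sequence
  have hGx : ∀ i : Fin κ.k, cut n (G i) = x i := by
    intro i
    have h1 := hG1 ⟨i, i.2.trans_le hk⟩
    rw [hxx] at h1
    unfold merge at h1
    rw [dif_pos i.2] at h1
    exact h1
  have hGy : ∀ i, κ.k ≤ i → i < n0 → ∃ t, cut n (G i) = y t := by
    intro i hi hin
    have h1 := hG1 ⟨i, hin⟩
    rw [hxx] at h1
    unfold merge at h1
    rw [dif_neg (by simpa using hi)] at h1
    exact ⟨_, h1⟩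
  have hcardN : 0 < Fintype.card (Sn m0 → AA × ZMod 2) := Fintype.card_pos
  -- (7)
  have hFG : ¬ F.bad n T (Function.update γ l G) := by
    have hWp : 0 < W'.card := by rw [hN] at hW'; omega
    obtain ⟨τ, hτ⟩ := Finset.card_pos.1 hWp
    obtain ⟨st, hs1, hs2, hs3⟩ := hst τ hτ
    have hgood := (hPf (ωf τ)).good st
    refine hgood G (fun i => by rw [hs1]; exact hGx i) fun i hi => ?_
    rw [Finset.mem_filter]
    refine ⟨Finset.mem_univ _, ?_⟩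
    by_cases hin : i < n0
    · obtain ⟨t, ht⟩ := hGy i hi hin
      rw [ht]
      exact hs2 t
    · exact hs3 _ (hG2 i (by omega))
  refine ⟨G, s', β, fun τ => (ωf τ).1, W', hA0G, hG3, hFG, fun τ => ⟨(ωf τ).2, hag τ⟩,
    by rw [← hN]; exact hW', ?_⟩
  -- (8)
  intro τ hτ
  by_contra hnv
  have h1 := hb (ωf τ) G hnv
  obtain ⟨r1, hr1⟩ : ∃ r1, n = n0 + r1 := ⟨n - n0, by omega⟩
  have h2 := hpr τ hτ r1 (fun t => cut n (G (n0 + t))) (fun t => hG2 _ (by omega))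
  have h3 := b_low2 (F := F.slice (γ' (ωf τ))) (n := n) (n' := n' (ωf τ)) (k := κ.k) (n0 := n0)
    (ℓ := ℓ) (r := r1) (j := j) (T := T' (ωf τ)) (q := κ.q) (q' := κ.s) hκq hκq1 hκs
    (hnn (ωf τ)) hk (by omega) (hmf (ωf τ)) hj x y sg G (fun i => by rw [hG1 i, hxx])
  rw [← hr1] at h3
  have h4 : (P (ωf τ)).pr (j + r1) x (Fin.append y fun t : Fin r1 => cut n (G (n0 + t))) =
      ((mm (ωf τ)).map (fun x i => res (hnn (ωf τ)) (x i)) (res (hnn (ωf τ)))).pr (j + r1) x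
        (Fin.append y fun t : Fin r1 => cut n (G (n0 + t))) := by rw [hP]
  rw [← h4] at h3
  have h5 : lowN κ.q N cX cY (n0 * ℓ) n ≤
      (P (ωf τ)).pr (j + r1) x (Fin.append y fun t : Fin r1 => cut n (G (n0 + t))) :=
    (hlow_anti r1 n (by omega)).trans h2
  have h6 : δ ≤ κ.s * κ.q ^ n *
      (P (ωf τ)).pr (j + r1) x (Fin.append y fun t : Fin r1 => cut n (G (n0 + t))) := by
    rw [hδe]
    exact mul_le_mul_of_nonneg_left h5 (by positivity)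
  linarith

end Pool.Agent.NST
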