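import Pool.Agent.NST.Req
import Pool.Agent.NST.Hit

/-!
# NST/PlayEnd: the end of the play is a win

* `count_hit`: otherwise all `ω ∈ W` satisfy `ω v ≠ cc v` for all `v ∈ S`; the number of these `ω` is
  `(q - 1) ^ S.card * q ^ (card V - S.card)` with `q = card AA` (`Fintype.piFinset`,
  `Finset.card_pi`/`Fintype.card_piFinset`), i.e. `(1 - 1 / q) ^ S.card * card (V → AA)`, which is less
  than `card (V → AA) / 2`, as `(1 - 1 / q) ^ S.card ≤ (1 - 1 / q) ^ M0 < 1 / 2`.
* `lev_above`: if `v` has length `m` and is in `S` then it has an extension of length `m'` in `S`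
  (`Perfect.exists_length`); conversely `σ.take m` is in `S` (tree).
* `filter_lev`: from `lev_above`.
* `grow_append`: induction on `L`.
* `inv2_step`. The new last entry has the event `FDecM E Φ m N m2` at `n2`. `last`, `hn`: clear. For
  `T, γ` in all events and `p ∈ ExtM E n2 T γ ⊆ ExtM E n T γ` (`ExtM.mono`): `dec` is part of `DecM`;
  `root` is inherited; `grow`: let `m' ≥ m2`, `S = above (Φ p) [] m'`;
  `Grow S (shape (e0 :: h))` by `grow` of the old history (`m ≤ m2 ≤ m'`), and for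
  `v ∈ lev S m = above (Φ p) [] m` (`lev_above`), `(lev S m2).filter (v <+: ·) = above (Φ p) v m2`
  (`filter_lev`) has at least `N` elements by `DecM`; `grow_append` with `last`.
* `out_win`. Let `γ, W, E', ..` be given by `Out`. `W` is nonempty (`count_hit` or
  `card (Sn e0.m → AA) ≥ 1`). For `ω ∈ W` let `T1, m1, c1` be given by `Via`; the candidate for a win
  is `F.or (pin l n γ)` on `Nb T1 m1 c1 ⊆ Nb T n c ⊆ N`. Let `T' ∈ Nb T1 m1 c1`, `G` avoid it, and
  `p' = (T', G) ∈ E`; then `Agree n T T'`, `Ag l n γ G` (level `n` of `pin`), so `p' ∈ ExtM E n T γ`.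
  If `ExtM E n T γ = ∅` this is a contradiction. Otherwise let `p ∈ ExtM E n T γ`,
  `S = above (Φ p) [] m`: `Grow S (shape (e0 :: h))` by `grow`, so there is `cc`. By `root` and
  `lev_above`, `lev S e0.m = above (Φ p) [] e0.m` has at least `M0` elements; `count_hit` (with the
  image under `tos e0.m`, injective by `tos_inj`, and `cc' w = cc (List.ofFn w)`,
  `List.ofFn (tos m v) = v` if `v.length = m`) gives `ω ∈ W` and `v` with `ω (tos e0.m v) = cc v`, so
  some `τ ∈ S` is in `E' ω`. Use this `ω`: as `Φ p'` agrees with `Φ p` below `m + 1` (`dec`), `τ` is in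
  `Φ p'`, so by `Perfect.extend` there is `ρ ∈ Φ p'`, `τ <+: ρ`, `n + 1 ≤ ρ.length`; `ρ ∈ T' ⊆ T1`
  contradicts `Dead (E' ω) (n + 1) T1`. (`e0.m ≤ m`: from `grow`/`hm`.)
-/

set_option autoImplicit false

namespace Pool.Agent.NST

open Finset Pool.Agent.PTree Pool.Agent.OSM
open scoped Classical

variable {l : ℕ}

theorem count_hit {V AA : Type} [Fintype V] [Fintype AA] [Nonempty AA] (S : Finset V)
    (cc : V → AA) {M0 : ℕ} (hS : M0 ≤ S.card)
    (hM0 : (1 - 1 / (Fintype.card AA : ℝ)) ^ M0 < 1 / 2) (W : Finset (V → AA))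
    (hW : Fintype.card (V → AA) ≤ 2 * W.card) : ∃ ω ∈ W, ∃ v ∈ S, ω v = cc v := by
  by_contra hcon
  push Not at hcon
  have hqpos : 0 < Fintype.card AA := Fintype.card_pos
  obtain ⟨q, hq⟩ : ∃ q : ℝ, q = (Fintype.card AA : ℝ) := ⟨_, rfl⟩
  have hq0 : 0 < q := by rw [hq]; exact_mod_cast hqpos
  have hq1 : 1 ≤ q := by rw [hq]; exact_mod_cast hqpos
  have h1 : W ⊆ Fintype.piFinset (fun v => if v ∈ S then univ.erase (cc v) else univ) := by
    intro ω hω
    rw [Fintype.mem_piFinset]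
    intro v
    by_cases hv : v ∈ S
    · rw [if_pos hv, mem_erase]
      exact ⟨hcon ω hω v hv, mem_univ _⟩
    · rw [if_neg hv]
      exact mem_univ _
  have h2 := card_le_card h1
  rw [Fintype.card_piFinset] at h2
  have h3 : ((∏ v : V, (if v ∈ S then univ.erase (cc v) else (univ : Finset AA)).card : ℕ) : ℝ)
      = (1 - 1 / q) ^ S.card * q ^ Fintype.card V := by
    rw [Nat.cast_prod]
    have h4 : ∀ v : V, (((if v ∈ S then univ.erase (cc v) else (univ : Finset AA)).card : ℕ) : ℝ)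
        = (if v ∈ S then (1 - 1 / q) else 1) * q := by
      intro v
      by_cases hv : v ∈ S
      · rw [if_pos hv, if_pos hv, card_erase_of_mem (mem_univ _), card_univ,
          Nat.cast_sub (Nat.succ_le_of_lt hqpos), ← hq]
        field_simp
        simp
      · rw [if_neg hv, if_neg hv, card_univ, ← hq, one_mul]
    rw [prod_congr rfl fun v _ => h4 v, prod_mul_distrib, prod_const, card_univ, prod_ite_mem,
      univ_inter, prod_const]
  have h5 : (1 - 1 / q) ^ S.card ≤ (1 - 1 / q) ^ M0 := by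
    have h6 : 1 / q ≤ 1 := by rw [div_le_one hq0]; exact hq1
    have h7 : 0 < 1 / q := by positivity
    exact pow_le_pow_of_le_one (by linarith) (by linarith) hS
  have h8 : (Fintype.card (V → AA) : ℝ) = q ^ Fintype.card V := by
    rw [Fintype.card_fun, hq]
    push_cast
    rfl
  have h9 : (W.card : ℝ) ≤ (1 - 1 / q) ^ S.card * q ^ Fintype.card V := by
    rw [← h3]
    exact_mod_cast h2
  have h10 : (Fintype.card (V → AA) : ℝ) ≤ 2 * W.card := by exact_mod_cast hW
  rw [← hq] at hM0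
  have h11 : (0 : ℝ) < q ^ Fintype.card V := by positivity
  have h12 : (1 - 1 / q) ^ S.card * q ^ Fintype.card V < 1 / 2 * q ^ Fintype.card V :=
    mul_lt_mul_of_pos_right (lt_of_le_of_lt h5 hM0) h11
  linarith

theorem lev_above {S : StrSet} (hS : Perfect S) {m m' : ℕ} (h : m ≤ m') :
    lev (above S [] m') m = above S [] m := by
  ext u
  rw [lev, mem_image, mem_above]
  constructor
  · rintro ⟨τ, hτ, rfl⟩
    have h1 := mem_above.1 hτ
    exact ⟨by rw [List.length_take, h1.1, min_eq_left h],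
      hS.1 _ _ (List.take_prefix _ _) h1.2.1, List.nil_prefix⟩
  · rintro ⟨h1, h2, -⟩
    obtain ⟨τ, hτ⟩ := hS.exists_length h2 (l := m') (by omega)
    have h3 := mem_above.1 hτ
    refine ⟨τ, mem_above.2 ⟨h3.1, h3.2.1, List.nil_prefix⟩, ?_⟩
    rw [← h1]
    exact (List.prefix_iff_eq_take.1 h3.2.2).symm

theorem filter_lev {S : StrSet} (hS : Perfect S) {m m' : ℕ} (h : m ≤ m') (v : List Bool) :
    (lev (above S [] m') m).filter (fun u => v <+: u) = above S v m := by
  rw [lev_above hS h]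
  ext u
  rw [mem_filter, mem_above, mem_above]
  constructor
  · rintro ⟨⟨h1, h2, -⟩, h3⟩
    exact ⟨h1, h2, h3⟩
  · rintro ⟨h1, h2, h3⟩
    exact ⟨⟨h1, h2, List.nil_prefix⟩, h3⟩

theorem grow_append {S : Finset (List Bool)} {L : List (ℕ × ℕ)} {p p' : ℕ × ℕ}
    (hL : Grow S L) (hl : L.getLast? = some p)
    (h : ∀ v ∈ lev S p.1, p'.2 ≤ ((lev S p'.1).filter fun u => v <+: u).card) :
    Grow S (L ++ [p']) := by
  induction L with
  | nil => trivial
  | cons a L ih =>
    cases L with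
    | nil =>
      have h1 : a = p := by simpa using hl
      subst h1
      exact ⟨h, trivial⟩
    | cons b L =>
      refine ⟨hL.1, ih hL.2 ?_⟩
      rw [List.getLast?_cons_cons] at hl
      exact hl

/-- The histories with the events `FDecM`. -/
structure Inv2 (E : Set (PG l)) (Φ : PG l → StrSet) (M0 : ℕ) (e0 : Ent l) (h : List (Ent l))
    (n m : ℕ) : Prop where
  hn : ∀ e ∈ e0 :: h, e.n ≤ n
  hm : e0.m ≤ m
  last : ∃ N, (shape (e0 :: h)).getLast? = some (m, N)
  dec : ∀ T γ, (∀ e ∈ e0 :: h, e.A.bad e.n T γ) → ∀ p ∈ ExtM E n T γ, ∀ p' ∈ ExtM E n T γ,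
    Agree (m + 1) (Φ p) (Φ p')
  root : ∀ T γ, (∀ e ∈ e0 :: h, e.A.bad e.n T γ) → ∀ p ∈ ExtM E n T γ,
    M0 ≤ (above (Φ p) [] e0.m).card
  grow : ∀ T γ, (∀ e ∈ e0 :: h, e.A.bad e.n T γ) → ∀ p ∈ ExtM E n T γ, ∀ m', m ≤ m' →
    Grow (above (Φ p) [] m') (shape (e0 :: h))

theorem inv2_step {E : Set (PG l)} {Φ : PG l → StrSet} (hreq : ReqM E Φ) {M0 : ℕ} {e0 : Ent l}
    {h : List (Ent l)} {n m : ℕ} (hI : Inv2 E Φ M0 e0 h n m) {n2 m2 : ℕ} (hn : n ≤ n2)
    (hm : m ≤ m2) (N : ℕ) :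
    Inv2 E Φ M0 e0 (h ++ [⟨n2, m2, N, FDecM E Φ m N m2⟩]) n2 m2 := by
  have hmem : ∀ e ∈ e0 :: h, e ∈ e0 :: (h ++ [⟨n2, m2, N, FDecM E Φ m N m2⟩]) := by
    intro e he
    rw [← List.cons_append]
    exact List.mem_append_left _ he
  have hnew : (⟨n2, m2, N, FDecM E Φ m N m2⟩ : Ent l) ∈
      e0 :: (h ++ [⟨n2, m2, N, FDecM E Φ m N m2⟩]) := by simp
  have hsh : shape (e0 :: (h ++ [⟨n2, m2, N, FDecM E Φ m N m2⟩])) =
      shape (e0 :: h) ++ [(m2, N)] := by
    simp [shape]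
  refine ⟨?_, hI.hm.trans hm, ⟨N, ?_⟩, ?_, ?_, ?_⟩
  · intro e he
    rw [← List.cons_append, List.mem_append] at he
    rcases he with he | he
    · exact (hI.hn e he).trans hn
    · rw [List.mem_singleton] at he
      subst he
      exact le_rfl
  · rw [hsh]
    simp
  · intro T γ hA p hp p' hp'
    exact (hA _ hnew : DecM E Φ m N m2 n2 T γ).1 p hp p' hp'
  · intro T γ hA p hp
    exact hI.root T γ (fun e he => hA e (hmem e he)) p (ExtM.mono E hn T γ hp)
  · intro T γ hA p hp m' hm'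
    rw [hsh]
    have hperf := (hreq.perf p hp.1).1
    obtain ⟨N0, hN0⟩ := hI.last
    refine grow_append (hI.grow T γ (fun e he => hA e (hmem e he)) p (ExtM.mono E hn T γ hp) m'
      (hm.trans hm')) hN0 ?_
    intro v hv
    dsimp only at hv ⊢
    rw [lev_above hperf (hm.trans hm'), mem_above] at hv
    rw [filter_lev hperf hm' v]
    exact (hA _ hnew : DecM E Φ m N m2 n2 T γ).2 p hp v hv.1 hv.2.1

theorem out_win {E : Set (PG l)} {Φ : PG l → StrSet} (hreq : ReqM E Φ) {M0 : ℕ} {e0 : Ent l}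
    {h : List (Ent l)} {n m : ℕ} (hI : Inv2 E Φ M0 e0 h n m) {AA : Type} [Fintype AA]
    [Nonempty AA] (hM0 : (1 - 1 / (Fintype.card AA : ℝ)) ^ M0 < 1 / 2) {F : MF l} {c : ℝ}
    {T : StrSet} (hO : Out F c AA e0 h T n m) {N : Set StrSet} (hN : Nb T n c ⊆ N) :
    WinM E F N := by
  obtain ⟨γ, hγ, W, E', hW, hWE, hS⟩ := hO
  -- the points which avoid the event
  have hpt : ∀ (T1 : StrSet) (m1 : ℕ) (c1 : ℝ), Nb T1 m1 c1 ⊆ Nb T n c → ∀ T' ∈ Nb T1 m1 c1,
      ∀ G : Pt, (∀ n', ¬ (F.or (pin l n γ)).bad n' T' G) → (T', fun c : Fin l => G c) ∈ E →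
      (T', fun c : Fin l => G c) ∈ ExtM E n T γ := by
    intro T1 m1 c1 hsub T' hT' G hG hE
    refine ⟨hE, (hsub hT').2.2.1, fun c i hi j hj => ?_⟩
    by_contra hne
    exact hG n (Or.inr ⟨le_rfl, fun hag => hne (hag c c.2 i hi j hj)⟩)
  obtain ⟨ω, hω, hfin⟩ : ∃ ω ∈ W, ∀ (T1 : StrSet) (m1 : ℕ) (c1 : ℝ),
      Nb T1 m1 c1 ⊆ Nb T n c → Dead (E' ω) (n + 1) T1 → ∀ T' ∈ Nb T1 m1 c1,
      ∀ G : Pt, (∀ n', ¬ (F.or (pin l n γ)).bad n' T' G) → (T', fun c : Fin l => G c) ∉ E := by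
    by_cases hE : ExtM E n T γ = ∅
    · have hne : W.Nonempty := by
        rw [← card_pos]
        have h1 : 0 < Fintype.card (Sn e0.m → AA) := Fintype.card_pos
        omega
      obtain ⟨ω, hω⟩ := hne
      refine ⟨ω, hω, fun T1 m1 c1 hsub _ T' hT' G hG hmem => ?_⟩
      have h1 := hpt T1 m1 c1 hsub T' hT' G hG hmem
      rw [hE] at h1
      exact h1
    · obtain ⟨p, hp⟩ := Set.nonempty_iff_ne_empty.2 hE
      have hperf := (hreq.perf p hp.1).1
      obtain ⟨cc, hcc⟩ := hS (above (Φ p) [] m) (fun σ hσ => (mem_above.1 hσ).1)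
        (hI.grow T γ hγ p hp m le_rfl)
      rw [lev_above hperf hI.hm] at hcc
      have hroot := hI.root T γ hγ p hp
      have hinj : Set.InjOn (tos e0.m) (above (Φ p) [] e0.m : Set (List Bool)) := by
        intro u hu u' hu' huu
        exact tos_inj (mem_above.1 (mem_coe.1 hu)).1 (mem_above.1 (mem_coe.1 hu')).1 huu
      obtain ⟨ω, hω, w, hw, hww⟩ := count_hit ((above (Φ p) [] e0.m).image (tos e0.m))
        (fun w => cc (List.ofFn w)) (M0 := M0) (by rw [card_image_of_injOn hinj]; exact hroot)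
        hM0 W (by convert hW)
      obtain ⟨v, hv, rfl⟩ := mem_image.1 hw
      have hlen := (mem_above.1 hv).1
      have hofn : List.ofFn (tos e0.m v) = v := by
        apply List.ext_getElem
        · rw [List.length_ofFn, hlen]
        · intro i h1 h2
          rw [List.getElem_ofFn, tos]
          exact List.getD_eq_getElem _ _ h2
      rw [hofn] at hww
      obtain ⟨τ, hτ, hτE⟩ := hcc ω hω v hv hww
      have hτ' := mem_above.1 hτ
      refine ⟨ω, hω, fun T1 m1 c1 hsub hdead T' hT' G hG hmem => ?_⟩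
      have h1 := hpt T1 m1 c1 hsub T' hT' G hG hmem
      have hperf' := hreq.perf _ hmem
      have h2 : Φ (T', fun c : Fin l => G c) τ = true := by
        rw [hI.dec T γ hγ p hp _ h1 τ (by rw [hτ'.1]; exact Nat.lt_succ_self _)]
        exact hτ'.2.1
      obtain ⟨ρ, h3, h4, h5⟩ := hperf'.1.extend h2 (n + 1)
      exact hdead ρ (hT'.2.1 ρ (hperf'.2 ρ h4)) h5 τ hτE h3
  obtain ⟨-, T1, m1, c1, h1, h2, -, h4, h5, h6⟩ := hWE ω hω
  exact ⟨F.or (pin l n γ), T1, m1, c1, MF.le_or_left _ _, h1, h2, h4.trans hN, h6,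
    hfin T1 m1 c1 h4 h5⟩

end Pool.Agent.NST
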