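import Pool.Agent.NST.Game
import Pool.Agent.OSM.KillE

/-!
# NST/PrZero: the game for events about the tree

`AA = Fin d → ZMod 2` are the strings of length `d`. Round 0 at `T, n`: name `T, n` and any `π`. The
opponent names `T2, n2, m0, A0`; round 1 (one round left): name `T2, n2`, any `π`, `N = 2 ^ d`. The
opponent names `T4, n4, m1, A1`. Now `Out` has to be proved for `h = [⟨n4, m1, 2 ^ d, A1⟩]`,
`T4, n4, m1`. `γ` is arbitrary: `(Met 0 π (F.or A0)).bad n2 T2 γ` says `F.bad` or `A0.bad`, and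
`T2 ∈ Nb T0 n0 c` (as `c < c2`) is not bad for `F`; so `A0.bad n2 T2 γ`, and `A0.bad n2 T4 γ` by
`loc` (`Agree n2 T2 T4`). Similarly `A1.bad n4 T4 γ`. `W = univ`.
If `d ≤ m1` and `m0 ≤ m1 - d` let `E ω` be the set of the strings
`u ++ List.ofFn (fun i => decide (ω (tos m0 u) i = 1))`, `u ∈ strs (m1 - d)` (`PTree.strs`); here
`tos m0 u` only depends on the first `m0` entries of `u`. Otherwise `E ω = ∅`. The members have length
`m1`, and `card (E ω) ≤ 2 ^ (m1 - d)`.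
`Via`: `T1 = killE T4 (E ω) (n4 + 1)` (`killE_tree`, `killE_agree`, `killE_sub`, `killE_dead`), with
`M T1 ≥ M T4 - card (E ω) * 2 ^ (-m1) ≥ M T4 - 1 / 2 ^ d > c2 - 1 / 2 ^ d ≥ c` (`killE_M`); `m1' = n4`,
`c1 = c`, `Nb T1 n4 c ⊆ Nb T4 n4 c`; the event `F.or (pin 0 n4 γ)` is never bad on
`Nb T4 n4 c ⊆ Nb T0 n0 c` (`Ag 0 _ _ _` is vacuously true).
Hit: let `S` grow, `cc v` be the string (in `AA`) of the last `d` entries of some `σ ∈ S` with
`v <+: σ` (for `v ∈ lev S m0` there is one: `v = σ.take m0`). If `lev S m0` is nonempty then some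
`v` has at least `2 ^ d` members of `lev S m1` above it, which have length `m1`, so
`2 ^ d ≤ 2 ^ (m1 - m0)`, `d ≤ m1 - m0`, and the first case applies: if `ω (tos m0 v) = cc v` then with
`u = σ.take (m1 - d)`, `tos m0 u = tos m0 v` (the first `m0` entries of `σ`), and `σ` is the member of
`E ω` given by `u` (`b = decide ((if b then 1 else 0 : ZMod 2) = 1)`).
-/

set_option autoImplicit false

namespace Pool.Agent.NST

open Finset Pool.Agent.PTree Pool.Agent.OSM
open scoped Classical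

/-- The strings which are killed. -/
noncomputable def EZ (d m0 m1 : ℕ) (ω : Sn m0 → (Fin d → ZMod 2)) : Finset (List Bool) :=
  if d ≤ m1 ∧ m0 ≤ m1 - d then
    (strs (m1 - d)).image (fun u => u ++ List.ofFn (fun i : Fin d => decide (ω (tos m0 u) i = 1)))
  else ∅

theorem EZ_length {d m0 m1 : ℕ} {ω : Sn m0 → (Fin d → ZMod 2)} {τ : List Bool}
    (h : τ ∈ EZ d m0 m1 ω) : τ.length = m1 := by
  unfold EZ at h
  split_ifs at h with hc
  · obtain ⟨u, hu, rfl⟩ := Finset.mem_image.1 h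
    rw [mem_strs] at hu
    rw [List.length_append, List.length_ofFn, hu]
    omega
  · exact absurd h (Finset.notMem_empty _)

theorem EZ_mass (d m0 m1 : ℕ) (ω : Sn m0 → (Fin d → ZMod 2)) :
    ∑ τ ∈ EZ d m0 m1 ω, (1 / 2 : ℝ) ^ τ.length ≤ 1 / 2 ^ d := by
  rw [Finset.sum_congr rfl (g := fun _ => (1 / 2 : ℝ) ^ m1)
    (fun τ hτ => by rw [EZ_length hτ])]
  rw [Finset.sum_const, nsmul_eq_mul]
  by_cases hc : d ≤ m1 ∧ m0 ≤ m1 - d
  · have h1 : (EZ d m0 m1 ω).card ≤ 2 ^ (m1 - d) := by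
      unfold EZ
      rw [if_pos hc, ← card_strs]
      exact Finset.card_image_le
    have h2 : ((EZ d m0 m1 ω).card : ℝ) ≤ 2 ^ (m1 - d) := by exact_mod_cast h1
    calc ((EZ d m0 m1 ω).card : ℝ) * (1 / 2) ^ m1 ≤ 2 ^ (m1 - d) * (1 / 2) ^ m1 :=
          mul_le_mul_of_nonneg_right h2 (by positivity)
      _ = 1 / 2 ^ d := by
          have h3 : m1 = (m1 - d) + d := by omega
          have h4 : (1 / 2 : ℝ) ^ m1 = (1 / 2) ^ (m1 - d) * (1 / 2) ^ d := by
            rw [← pow_add, ← h3]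
          rw [h4, ← mul_assoc, ← mul_pow, show (2 : ℝ) * (1 / 2) = 1 by norm_num, one_pow,
            one_mul, one_div_pow]
  · have h1 : EZ d m0 m1 ω = ∅ := by
      unfold EZ
      rw [if_neg hc]
    rw [h1]
    simp

theorem tos_take {m k : ℕ} (h : m ≤ k) (σ : List Bool) : tos m (σ.take k) = tos m (σ.take m) := by
  funext i
  have hi : (i : ℕ) < m := i.2
  simp only [tos, List.getD_eq_getElem?_getD, List.getElem?_take]
  rw [if_pos hi, if_pos (by omega)]

theorem dec_zmod (b : Bool) : decide ((if b = true then (1 : ZMod 2) else 0) = 1) = b := by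
  cases b <;> decide

/-- The string (the last `d` digits of a member of `S`). -/
noncomputable def ccZ (d m1 : ℕ) (S : Finset (List Bool)) (v : List Bool) : Fin d → ZMod 2 :=
  if h : ∃ σ ∈ S, v <+: σ then
    fun i => if (h.choose.drop (m1 - d)).getD i false = true then 1 else 0
  else fun _ => 0

theorem EZ_hit {d m0 m1 : ℕ} (h01 : m0 ≤ m1) {S : Finset (List Bool)}
    (hS : ∀ σ ∈ S, σ.length = m1)
    (hg : ∀ v ∈ lev S m0, 2 ^ d ≤ ((lev S m1).filter fun u => v <+: u).card)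
    {ω : Sn m0 → (Fin d → ZMod 2)} {v : List Bool} (hv : v ∈ lev S m0)
    (hω : ω (tos m0 v) = ccZ d m1 S v) : ∃ τ ∈ S, τ ∈ EZ d m0 m1 ω := by
  obtain ⟨σ', hσ', hv'⟩ := Finset.mem_image.1 hv
  have hex : ∃ σ ∈ S, v <+: σ := ⟨σ', hσ', by rw [← hv']; exact List.take_prefix _ _⟩
  have hvl : v.length = m0 := by
    rw [← hv', List.length_take, hS σ' hσ']
    exact min_eq_left h01
  have hcc : ccZ d m1 S v = fun i : Fin d =>
      if (hex.choose.drop (m1 - d)).getD (i : ℕ) false = true then (1 : ZMod 2) else 0 := by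
    unfold ccZ
    rw [dif_pos hex]
  have hs := hex.choose_spec
  generalize hex.choose = σ at hcc hs
  obtain ⟨hσ, hvσ⟩ := hs
  have hσl := hS σ hσ
  have hvt : v = σ.take m0 := by
    have := List.prefix_iff_eq_take.1 hvσ
    rwa [hvl] at this
  -- counting
  have h1 := hg v hv
  have h2 : ((lev S m1).filter fun u => v <+: u) ⊆ con m1 v := by
    intro u hu
    rw [Finset.mem_filter] at hu
    obtain ⟨ρ, hρ, hρu⟩ := Finset.mem_image.1 hu.1
    rw [mem_con]
    refine ⟨?_, hu.2⟩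
    rw [← hρu, List.length_take, hS ρ hρ, min_self]
  have h3 := h1.trans (Finset.card_le_card h2)
  rw [card_con h01 hvl] at h3
  have h4 : d ≤ m1 - m0 := (Nat.pow_le_pow_iff_right (by norm_num)).1 h3
  have hc : d ≤ m1 ∧ m0 ≤ m1 - d := by omega
  refine ⟨σ, hσ, ?_⟩
  unfold EZ
  rw [if_pos hc, Finset.mem_image]
  refine ⟨σ.take (m1 - d), ?_, ?_⟩
  · rw [mem_strs, List.length_take, hσl]
    omega
  · have h5 : List.ofFn (fun i : Fin d => decide (ω (tos m0 (σ.take (m1 - d))) i = 1)) =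
        σ.drop (m1 - d) := by
      rw [tos_take hc.2, ← hvt, hω, hcc]
      refine List.ext_getElem ?_ ?_
      · rw [List.length_ofFn, List.length_drop, hσl]
        omega
      · intro i hi1 hi2
        rw [List.getElem_ofFn, dec_zmod, List.getD_eq_getElem?_getD,
          List.getElem?_eq_getElem hi2, Option.getD_some]
    rw [h5]
    exact List.take_append_drop _ _

theorem pr_zero {F : MF 0} {T0 : StrSet} {n0 : ℕ} {c c2 : ℝ}
    (hF : ∀ T ∈ Nb T0 n0 c, ∀ n G, ¬ F.bad n T G) {d : ℕ} (hd : 1 / 2 ^ d ≤ c2 - c) :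
    PrS F T0 n0 c c2 (Fin d → ZMod 2) 1 := by
  have hpos : (0 : ℝ) < 1 / 2 ^ d := by positivity
  have hc : c ≤ c2 := by linarith
  let π0 : ℕ → Par := fun _ => ⟨0, 1, 1, one_pos, le_rfl, one_pos, le_rfl⟩
  intro T n hT hn
  have hTc : T ∈ Nb T0 n0 c := ⟨hT.1, hT.2.1, hT.2.2.1, lt_of_le_of_lt hc hT.2.2.2⟩
  refine ⟨T, n, Nb.self hT.1 n hT.2.2.2, le_rfl, π0, ?_⟩
  intro T2 n2 m0 A0 hT2 hn2 hm0 hb0
  have hT2c : T2 ∈ Nb T0 n0 c := Nb.subset hTc hn hc hT2
  refine ⟨T2, n2, Nb.self hT2.1 n2 hT2.2.2.2, le_rfl, π0, 2 ^ d, ?_⟩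
  intro T4 n4 m1 A1 hT4 hn4 hm01 hm1 hb1
  have hT4c : T4 ∈ Nb T0 n0 c := Nb.subset hT2c (hn.trans hn2) hc hT4
  let γ : Pt := fun _ _ _ => false
  refine ⟨γ, ?_, Finset.univ, EZ d m0 m1, ?_, ?_, ?_⟩
  · intro e he
    simp only [List.nil_append, List.mem_cons, List.not_mem_nil, or_false] at he
    rcases he with rfl | rfl
    · have h1 : A0.bad n2 T2 γ := (hb0 γ).resolve_left (hF T2 hT2c n2 γ)
      exact A0.loc hT4.2.2.1 (Ag.refl _ _ _) h1
    · exact (hb1 γ).resolve_left (hF T4 hT4c n4 γ)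
  · rw [Finset.card_univ]
    omega
  · intro ω _
    refine ⟨fun τ hτ => EZ_length hτ, ?_⟩
    have hM : c < M (killE T4 (EZ d m0 m1 ω) (n4 + 1)) := by
      have h1 := killE_M T4 (EZ d m0 m1 ω) (n4 + 1)
      have h2 := EZ_mass d m0 m1 ω
      have h3 := hT4.2.2.2
      linarith
    have hmem : killE T4 (EZ d m0 m1 ω) (n4 + 1) ∈ Nb T4 n4 c :=
      ⟨killE_tree hT4.1 _ _, killE_sub _ _ _, (killE_agree _ _ _).mono (Nat.le_succ _), hM⟩
    refine ⟨killE T4 (EZ d m0 m1 ω) (n4 + 1), n4, c, hmem.1, hM, le_rfl,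
      Nb.subset hmem le_rfl le_rfl, ?_, ?_⟩
    · intro σ hσ hl τ hτ hp
      exact (killE_iff.1 hσ).2 ⟨τ, hτ, hp, hl⟩
    · refine ⟨π0, ?_⟩
      intro T' hT' n' G hbad
      rcases hbad with h | h
      · refine hF T' ?_ n' G h
        exact Nb.subset hT4c ((hn.trans hn2).trans hn4) le_rfl
          (Nb.subset hmem le_rfl le_rfl hT')
      · exact h.2 (fun c' hc' => absurd hc' (Nat.not_lt_zero _))
  · intro S hS hg
    refine ⟨ccZ d m1 S, ?_⟩
    intro ω _ v hv hω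
    exact EZ_hit hm01 hS hg.1 hv hω

end Pool.Agent.NST
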