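import Pool.Agent.NST.PrSucc
import Pool.Agent.NST.PrZero

/-!
# NST/PrAll: the game can be won for all levels
-/

set_option autoImplicit false

namespace Pool.Agent.NST

open Finset Pool.Agent.PTree Pool.Agent.OSM
open scoped Classical

theorem pr_all {T0 : StrSet} {n0 : ℕ} {c c2 : ℝ} {d : ℕ} (hd : 1 / 2 ^ d ≤ c2 - c) {l : ℕ}
    {F : MF l} (hF : Opt (1 / 50000) (Nb T0 n0 c) l F) :
    ∃ (AA : Type) (_ : Fintype AA) (_ : AddCommGroup AA), Fintype.card AA = 2 ^ (d + l) ∧
      PrS F T0 n0 c c2 AA (l + 1) := by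
  have hc : c < c2 := by
    have : (0 : ℝ) < 1 / 2 ^ d := by positivity
    linarith
  induction hF with
  | zero h =>
    refine ⟨Fin d → ZMod 2, inferInstance, inferInstance, ?_, pr_zero h hd⟩
    simp [ZMod.card]
  | succ κ a h1 h2 ih =>
    obtain ⟨AA, i1, i2, h3, h4⟩ := ih
    refine ⟨AA × ZMod 2, inferInstance, inferInstance, ?_, pr_succ rfl hc h1 h4⟩
    rw [Fintype.card_prod, h3, ZMod.card, ← add_assoc, pow_succ]

end Pool.Agent.NST
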