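import Pool.Agent.NST.Sim
import Pool.Agent.NST.Nums

/-!
# NST/PrSucc: the game of `F` can be won if that of `Thr F κ a` can

Let `T, n` be the position in round 0. The base names `T1, n1, π` for `T, n`. We name `T1`,
`max n1 (max κ.k 1)` and `Function.update (halfP π) l ⟨κ.k, 3 * κ.q / 4, κ.s / 100, ..⟩`. Let
`T2, n2, m2, A0` be the answer; by `Met_congr`, `B0 = BB (F.or A0) κ.k (3 * κ.q / 4) (κ.s / 100)`
satisfies `(Met l (halfP π) B0).bad n2 T2 _`. `T2 ∈ Nb T1 n1 c2` (`Nb` is antitone in the level).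
`Nb T2 n2 c2 ⊆ Nb T0 n0 c` (`Nb.subset` twice and `c < c2`), `T2` is a tree, `c2 < M T2`; so by
`Unb.exists` there are `T3 ∈ Nb T2 n2 c2`, `n3 ≥ n2` with
`(Met l (halfP (plusP n2 π)) (Thr F κ (a - ε))).bad n3 T3 _`. Choose `ℓ, D, sf` with `nums` (for
`n0 := n2`, `nw := n3`, `N = card (Sn m2 → AA × ZMod 2)`), `ρ = rhoN κ.q N ∈ (0, 1]`,
`N1 = D * N + 1`.
Round 1: name `T3`, `n3`, `Function.update (plusP n3 (plusP n2 π)) l ⟨n2, ρ / 2, sf / 2, ..⟩`, `N1`.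
Let `T4, n4, m4, A1` be the answer, so
`(Met l (plusP n3 (plusP n2 π)) (BB (F.or A1) n2 (ρ / 2) (sf / 2))).bad n4 T4 _`. With `Met_loc` (as
`Agree n2 T2 T4`, `Agree n3 T3 T4`) and `comp_met` twice, `A_b = MF.cap n2 B0 (MF.cap n3
(Thr F κ (a - ε)) (BB (F.or A1) n2 (ρ / 2) (sf / 2)))` satisfies `(Met l π A_b).bad n4 T4 _`; by
`Met_mono` this is a legal answer in round 0 of the base (`T4 ∈ Nb T1 n1 c2`, `n1 ≤ n4`,
`m4 ≤ n4`). So `Rnd (Thr F κ a) c c2 AA ⟨n4, m4, 0, A_b⟩ t [] T4 n4 m4`. Apply `sim` with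
`h = [⟨n4, m4, N1, A1⟩]`, `hb = []`, `kc = max n2 n4`, `sc = sf / 2 * (ρ / 2 / 2 ^ n4) ^ n4`:
`comb` follows from `comp_one` (with `s = sf / 2`, `q = ρ`) and `BB_mono`, since
`MF.cap n4 (F.or A1) Y` is contained in `(CapL F [⟨n4, m4, N1, A1⟩]).and Y`.
-/

set_option autoImplicit false

namespace Pool.Agent.NST

open Finset Pool.Agent.PTree Pool.Agent.OSM
open scoped Classical

variable {l : ℕ}

theorem rhoN_pos {q : ℝ} (hq : 0 < q) (N : ℕ) : 0 < rhoN q N := by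
  have := thN_pos N
  unfold rhoN
  positivity

theorem rhoN_le {q : ℝ} (hq : 0 < q) (hq1 : q ≤ 1) (N : ℕ) : rhoN q N ≤ 1 := by
  have h1 := thN_pos N
  have h2 := thN_le N
  have h3 : q * thN N ≤ 1 := by nlinarith
  have h4 : 0 ≤ q * thN N := by positivity
  unfold rhoN
  have h5 : (q * thN N / 8) ^ N ≤ 1 := pow_le_one₀ (by positivity) (by linarith)
  have h6 : 0 ≤ (q * thN N / 8) ^ N := by positivity
  nlinarith

theorem pr_succ {F : MF (l + 1)} {κ : Par} {a ε c c2 : ℝ} (hε : ε = 1 / 50000) {T0 : StrSet}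
    {n0 : ℕ} (hc : c < c2) (hU : Unb l (Thr F κ (a - ε)) (Nb T0 n0 c)) {AA : Type} [Fintype AA]
    [AddCommGroup AA] {t : ℕ} (hb : PrS (Thr F κ a) T0 n0 c c2 AA t) :
    PrS F T0 n0 c c2 (AA × ZMod 2) (t + 1) := by
  intro T n hT hn
  obtain ⟨T1, n1, hT1, hn1, π, hR⟩ := hb T n hT hn
  have hκq := κ.hq
  have hκq1 := κ.hq1
  have hκs := κ.hs
  have hκs1 := κ.hs1
  refine ⟨T1, max n1 (max κ.k 1), hT1, hn1.trans (le_max_left _ _), Function.update (halfP π) l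
    ⟨κ.k, 3 * κ.q / 4, κ.s / 100, by positivity, by linarith, by positivity, by linarith⟩, ?_⟩
  intro T2 n2 m2 A0 hT2 hn2 hm2 hMet
  have hn12 : n1 ≤ n2 := (le_max_left _ _).trans hn2
  have hk2 : κ.k ≤ n2 := (le_max_left _ _).trans ((le_max_right _ _).trans hn2)
  have h12 : 1 ≤ n2 := (le_max_right _ _).trans ((le_max_right _ _).trans hn2)
  have hB0 : ∀ G, (Met l (halfP π)
      (BB (F.or A0) κ.k (3 * κ.q / 4) (κ.s / 100))).bad n2 T2 G := by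
    intro G
    have h1 := hMet G
    have h2 : Met (l + 1) (Function.update (halfP π) l
        ⟨κ.k, 3 * κ.q / 4, κ.s / 100, by positivity, by linarith, by positivity, by linarith⟩)
        (F.or A0) = Met l (halfP π) (BB (F.or A0) κ.k (3 * κ.q / 4) (κ.s / 100)) := by
      conv_lhs => unfold Met
      rw [Function.update_self]
      exact Met_congr (fun c hc => Function.update_of_ne (by omega) _ _) _
    rw [h2] at h1
    exact h1
  have hT2' : T2 ∈ Nb T1 n1 c2 :=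
    ⟨hT2.1, hT2.2.1, hT2.2.2.1.mono (le_max_left _ _), hT2.2.2.2⟩
  have hT20 : T2 ∈ Nb T0 n0 c2 := Nb.subset hT hn le_rfl (Nb.subset hT1 hn1 le_rfl hT2')
  have hT2c : T2 ∈ Nb T0 n0 c := ⟨hT20.1, hT20.2.1, hT20.2.2.1, hc.trans hT20.2.2.2⟩
  have hsub : Nb T2 n2 c2 ⊆ Nb T0 n0 c :=
    Nb.subset hT2c (hn.trans (hn1.trans hn12)) hc.le
  obtain ⟨T3, hT3, n3, hn3, h3⟩ := hU.exists hT2.1 hT2.2.2.2 hsub (halfP (plusP n2 π)) n2
  obtain ⟨ℓ, D, sf, hsf0, hsf1, hℓ, hw, hε2, hD, hsf⟩ := nums κ a (ε := ε)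
    (by rw [hε]; norm_num) (show 0 < n2 by omega) n3 (Fintype.card (Sn m2 → AA × ZMod 2))
  obtain ⟨N, hN⟩ : ∃ N, N = Fintype.card (Sn m2 → AA × ZMod 2) := ⟨_, rfl⟩
  obtain ⟨ρ, hρe⟩ : ∃ ρ, ρ = rhoN κ.q N := ⟨_, rfl⟩
  have hρ : 0 < ρ := by rw [hρe]; exact rhoN_pos κ.hq N
  have hρ1 : ρ ≤ 1 := by rw [hρe]; exact rhoN_le κ.hq κ.hq1 N
  refine ⟨T3, n3, hT3, hn3, Function.update (plusP n3 (plusP n2 π)) l
    ⟨n2, ρ / 2, sf / 2, half_pos hρ, by linarith, half_pos hsf0, by linarith⟩, D * N + 1, ?_⟩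
  intro T4 n4 m4 A1 hT4 hn4 hm4 hmn4 hMet4
  have hA1 : ∀ G, (Met l (plusP n3 (plusP n2 π))
      (BB (F.or A1) n2 (ρ / 2) (sf / 2))).bad n4 T4 G := by
    intro G
    have h1 := hMet4 G
    have h2 : Met (l + 1) (Function.update (plusP n3 (plusP n2 π)) l
        ⟨n2, ρ / 2, sf / 2, half_pos hρ, by linarith, half_pos hsf0, by linarith⟩)
        (F.or A1) = Met l (plusP n3 (plusP n2 π)) (BB (F.or A1) n2 (ρ / 2) (sf / 2)) := by
      conv_lhs => unfold Met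
      rw [Function.update_self]
      exact Met_congr (fun c hc => Function.update_of_ne (by omega) _ _) _
    rw [h2] at h1
    exact h1
  obtain ⟨Ab, hAb⟩ : ∃ Ab : MF l, Ab = MF.cap n2 (BB (F.or A0) κ.k (3 * κ.q / 4) (κ.s / 100))
    (MF.cap n3 (Thr F κ (a - ε)) (BB (F.or A1) n2 (ρ / 2) (sf / 2))) := ⟨_, rfl⟩
  have h24 : n2 ≤ n4 := hn3.trans hn4
  have hag : Agree n2 T2 T4 := hT3.2.2.1.trans (hT4.2.2.1.mono hn3)
  have hMb : ∀ G, (Met l π Ab).bad n4 T4 G := by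
    intro G
    rw [hAb]
    exact comp_met h24 π (Met_loc hag (hB0 G) G)
      (comp_met hn4 (plusP n2 π) (Met_loc hT4.2.2.1 (h3 G) G) (hA1 G))
  have hT41 : T4 ∈ Nb T1 n1 c2 :=
    Nb.subset hT2' hn12 le_rfl (Nb.subset hT3 hn3 le_rfl hT4)
  have hRb := hR T4 n4 m4 Ab hT41 (hn12.trans h24) hmn4
    (fun G => Met_mono (MF.le_or_right _ _) π n4 T4 G (hMb G))
  have h5 : (0 : ℝ) < ρ / 2 / 2 ^ n4 := by positivity
  have h6 : ρ / 2 / 2 ^ n4 ≤ 1 := by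
    rw [div_le_one (by positivity)]
    have : (1 : ℝ) ≤ 2 ^ n4 := one_le_pow₀ (by norm_num)
    linarith
  have h7 : (ρ / 2 / 2 ^ n4) ^ n4 ≤ 1 := pow_le_one₀ h5.le h6
  have h8 : (0 : ℝ) < (ρ / 2 / 2 ^ n4) ^ n4 := by positivity
  have hI : Inv F (rhoN κ.q (Fintype.card (Sn m2 → AA × ZMod 2))) sf n2 m4 (D * N + 1)
      ⟨n4, m4, 0, Ab⟩ [⟨n4, m4, D * N + 1, A1⟩] [] n4 m4 (max n2 n4)
      (sf / 2 * (ρ / 2 / 2 ^ n4) ^ n4) := by
    rw [← hN, ← hρe]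
    refine ⟨by positivity, by nlinarith, le_rfl, le_rfl, rfl, rfl, ?_⟩
    intro Y n' T' γ hn' hall hY
    have h9 : Ab.bad n4 T' γ := hall _ (List.mem_singleton.2 rfl)
    rw [hAb] at h9
    obtain ⟨_, _, _, _, h10⟩ := h9
    have h11 := comp_one (X := F.or A1) (Y := Y) (k := n2) hρ (half_pos hsf0) hn' h10 hY
    rw [mul_div_cancel₀ sf (two_ne_zero)] at h11
    refine BB_mono ?_ n2 ρ sf n' T' γ h11
    rintro n'' T'' G' ⟨h12, h13, h14⟩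
    refine ⟨?_, h14⟩
    intro e he
    rw [List.mem_singleton] at he
    subst he
    exact ⟨h12, h13⟩
  refine sim hm4 hε (by omega) hk2 hℓ hw hε2 hD hsf A0 ⟨n4, m4, 0, Ab⟩ ?_ h24 hn4
    (by rw [hN]) t [⟨n4, m4, D * N + 1, A1⟩] [] T4 n4 m4 _ _ hI hRb
  intro T' γ hb'
  have h9 : Ab.bad n4 T' γ := hb'
  rw [hAb] at h9
  exact ⟨h9.2.1, h9.2.2.2.1⟩

end Pool.Agent.NST
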