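import Pool.Agent.NST.Game
import Pool.Agent.PTree.Width

/-!
# NST/Req: requirements, decided values, wins

* `reqM_of_continuousOn`: as `req_of_continuousOn` in OSM/Final (which may not be imported): if the
  conclusion of `cont` fails for `p`, `L`, choose for every `n` a counterexample `z n ∈ E` agreeing
  with `p` up to `n`; then `z n → p` (product topologies, `tendsto_pi_nhds`, `nhds_prod_eq`), all
  `z n ∈ E0`, so `Φ (z n) → Φ p` and eventually `Agree L (Φ p) (Φ (z n))`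
  (`{S | Agree L (Φ p) S}` is a neighbourhood of `Φ p`: `agree_mem_nhds` in PTree/Kill).
* `ExtM.mono`, `ExtM.loc`: clear.
* `above_card_mono`: the map `τ' ↦ τ'.take L` maps `above S σ L'` onto `above S σ L` (for
  `τ ∈ above S σ L`, `Perfect.exists_length` gives `τ' ∈ above S τ L'`, `τ'.take L = τ`); if
  `L < σ.length` then `above S σ L = ∅`.
-/

set_option autoImplicit false

namespace Pool.Agent.NST

open Finset Filter Topology Pool.Agent.PTree Pool.Agent.OSM
open scoped Classical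

variable {l : ℕ}

/-- The pairs `(T, G)`, `G` with `l` levels. -/
abbrev PG (l : ℕ) : Type := StrSet × (Fin l → ℕ → ℕ → Bool)

/-- The elements of `E` which extend the piece of information. -/
def ExtM (E : Set (PG l)) (n : ℕ) (T : StrSet) (G : Pt) : Set (PG l) :=
  {p | p ∈ E ∧ Agree n T p.1 ∧ ∀ c : Fin l, ∀ i < n, ∀ j < n, p.2 c i j = G c i j}

theorem ExtM.mono (E : Set (PG l)) {n n' : ℕ} (h : n ≤ n') (T : StrSet) (G : Pt) :
    ExtM E n' T G ⊆ ExtM E n T G := fun _ hp =>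
  ⟨hp.1, hp.2.1.mono h, fun c i hi j hj => hp.2.2 c i (hi.trans_le h) j (hj.trans_le h)⟩

theorem ExtM.loc (E : Set (PG l)) {n : ℕ} {T T' : StrSet} {G G' : Pt} (h : Agree n T T')
    (h' : Ag l n G G') : ExtM E n T' G' ⊆ ExtM E n T G := fun _ hp =>
  ⟨hp.1, h.trans hp.2.1, fun c i hi j hj => (hp.2.2 c i hi j hj).trans (h' c c.2 i hi j hj)⟩

/-- `Φ` is continuous on `E`, with values perfect subtrees of the first component. -/
structure ReqM (E : Set (PG l)) (Φ : PG l → StrSet) : Prop where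
  cont : ∀ p ∈ E, ∀ L : ℕ, ∃ n : ℕ, ∀ p' ∈ E, Agree n p.1 p'.1 →
    (∀ c : Fin l, ∀ i < n, ∀ j < n, p'.2 c i j = p.2 c i j) → Agree L (Φ p) (Φ p')
  perf : ∀ p ∈ E, Perfect (Φ p) ∧ Sub (Φ p) p.1

theorem reqM_of_continuousOn {E0 : Set (PG l)} {Φ : PG l → StrSet} (hΦ : ContinuousOn Φ E0) :
    ReqM {p | p ∈ E0 ∧ Perfect (Φ p) ∧ Sub (Φ p) p.1} Φ := by
  refine ⟨fun p hp L => ?_, fun p hp => hp.2⟩
  by_contra hcon
  push Not at hcon
  choose z hz hz1 hz2 hzL using hcon
  have h1 : Tendsto z atTop (𝓝 p) := by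
    have e : p = (p.1, p.2) := rfl
    rw [e, nhds_prod_eq]
    refine Tendsto.prodMk ?_ ?_
    · rw [tendsto_pi_nhds]
      intro σ
      refine tendsto_const_nhds.congr' ?_
      filter_upwards [eventually_gt_atTop σ.length] with n hn
      exact ((hz1 n) σ hn).symm
    · rw [tendsto_pi_nhds]
      intro c
      rw [tendsto_pi_nhds]
      intro i
      rw [tendsto_pi_nhds]
      intro m
      refine tendsto_const_nhds.congr' ?_
      filter_upwards [eventually_gt_atTop i, eventually_gt_atTop m] with n hn hm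
      exact (hz2 n c i hn m hm).symm
  have h2 : Tendsto z atTop (𝓝[E0] p) :=
    tendsto_nhdsWithin_iff.2 ⟨h1, Eventually.of_forall fun n => (hz n).1⟩
  have h3 : Tendsto (fun n => Φ (z n)) atTop (𝓝 (Φ p)) := (hΦ p hp.1).tendsto.comp h2
  have h4 : ∀ᶠ n in atTop, Agree L (Φ p) (Φ (z n)) := h3 (agree_mem_nhds (Φ p) L)
  obtain ⟨n, hn⟩ := h4.exists
  exact hzL n hn

/-- The values of `Φ` are decided below `L + 1`, and have at least `N` nodes of length `L` above
each node of length `m`. -/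
def DecM (E : Set (PG l)) (Φ : PG l → StrSet) (m N L n : ℕ) (T : StrSet) (G : Pt) : Prop :=
  (∀ p ∈ ExtM E n T G, ∀ p' ∈ ExtM E n T G, Agree (L + 1) (Φ p) (Φ p')) ∧
    ∀ p ∈ ExtM E n T G, ∀ σ : List Bool, σ.length = m → Φ p σ = true →
      N ≤ (above (Φ p) σ L).card

theorem DecM.of_subset {E : Set (PG l)} {Φ : PG l → StrSet} {m N L n n' : ℕ} {T T' : StrSet}
    {G G' : Pt} (h : ExtM E n' T' G' ⊆ ExtM E n T G) (hd : DecM E Φ m N L n T G) :
    DecM E Φ m N L n' T' G' :=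
  ⟨fun p hp p' hp' => hd.1 p (h hp) p' (h hp'), fun p hp => hd.2 p (h hp)⟩

/-- The event `DecM`. -/
def FDecM (E : Set (PG l)) (Φ : PG l → StrSet) (m N L : ℕ) : MF l where
  bad n T G := DecM E Φ m N L n T G
  loc h h' hd := hd.of_subset (ExtM.loc E h h')
  mono hd := hd.of_subset (ExtM.mono E (Nat.le_succ _) _ _)

/-- The same for some `L` at most the level. -/
def FWidM (E : Set (PG l)) (Φ : PG l → StrSet) (m N : ℕ) : MF l where
  bad n T G := ∃ L ≤ n, DecM E Φ m N L n T G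
  loc := fun h h' ⟨L, hL, hd⟩ => ⟨L, hL, hd.of_subset (ExtM.loc E h h')⟩
  mono := fun ⟨L, hL, hd⟩ =>
    ⟨L, hL.trans (Nat.le_succ _), hd.of_subset (ExtM.mono E (Nat.le_succ _) _ _)⟩

/-- The requirement can be met on a smaller neighbourhood. -/
def WinM (E : Set (PG l)) (F : MF l) (N : Set StrSet) : Prop :=
  ∃ (F' : MF l) (T1 : StrSet) (m1 : ℕ) (c1 : ℝ), F.Le F' ∧ IsTree T1 ∧ c1 < M T1 ∧
    Nb T1 m1 c1 ⊆ N ∧ Viable l F' (Nb T1 m1 c1) ∧
    ∀ T ∈ Nb T1 m1 c1, ∀ G : Pt, (∀ n, ¬ F'.bad n T G) → (T, fun c : Fin l => G c) ∉ E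

theorem above_card_mono {S : StrSet} (hS : Perfect S) (σ : List Bool) {L L' : ℕ} (h : L ≤ L') :
    (above S σ L).card ≤ (above S σ L').card := by
  refine card_le_card_of_surjOn (fun τ' => τ'.take L) ?_
  intro τ hτ
  have h1 := mem_above.1 (mem_coe.1 hτ)
  have hl : τ.length ≤ L' := by rw [h1.1]; exact h
  obtain ⟨τ', h2⟩ := hS.exists_length h1.2.1 hl
  have h3 := mem_above.1 h2
  refine ⟨τ', mem_coe.2 (mem_above.2 ⟨h3.1, h3.2.1, h1.2.2.trans h3.2.2⟩), ?_⟩
  have h4 := List.prefix_iff_eq_take.1 h3.2.2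
  change τ'.take L = τ
  rw [← h1.1]
  exact h4.symm

end Pool.Agent.NST
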