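import Pool.Agent.NST.OutCore
import Pool.Agent.NST.Hit
import Pool.Agent.NST.CompM

/-!
# NST/Sim: simulation of the game of `F` by the game of `Thr F κ a`

`Inv` is the relation between the two histories `h` (for `F`) and `hb` (for `Thr F κ a`, whose first
entry is `e0b`); `kc`, `sc` are the parameters of the last level for the next round.

* `inv_step`. `shape`: `shape (h ++ [e]) = shape h ++ [(m2, N)]`. `comb` for the new lists: let `Y`,
  `n' ≥ n2`, `T`, `γ` with all base entries and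
  `(BB Y (max kc n2) ρ (sc / 2 * (ρ / 2 / 2 ^ n2) ^ n2)).bad n' T γ`. The new base entry says
  `(BB (F.or A) kc (ρ / 2) (sc / 2)).bad n2 T γ`; `comp_one` (with `s = sc / 2`, `q = ρ`) gives
  `(BB (MF.cap n2 (F.or A) Y) kc ρ (2 * (sc / 2))).bad n' T γ`; `comb` of the old lists with
  `Y := MF.cap n2 (F.or A) Y`; finally `BB_mono`, since
  `(CapL F h).and (MF.cap n2 (F.or A) Y)` is contained in `(CapL F (h ++ [e])).and Y`.
  `sc' = sc / 2 * (ρ / 2 / 2 ^ n2) ^ n2 ∈ (0, 1]` (cf. `plus_aux` in NST/CompM).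
* `out_step`. Let `γ`, `Wb`, `Eb` be given by `Out` for the base. By `hbase`, `hA0` and `hU` hold.
  By `comb` with `Y` the event which is always true (`bad := fun _ _ _ => True`; `BB_of_all`), and
  `C = (CapL F h).and Y`, `hC` holds. `out_core` gives `G`, `s'`, `β`, `ωf`, `W'`. The point for `Out`
  of `F` is `update γ l G`: `A0` holds; for `e ∈ h`, `(F.or e.A).bad e.n T _` and not `F.bad e.n`
  (`F.mono_le`, `e.n ≤ n`), so `e.A.bad e.n T _`. `W = W'`, `E τ = Eb (ωf τ)`. For `S` which grows: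
  `shape (e0 :: h) = (m0, 0) :: (m1, N1) :: shape hb`, so the hypothesis `hgrow` of `hit_step` holds
  (`hN1`) and `Grow S (shape (e0b :: hb))` (`grow_head`), which gives `cb`; `hit_step` gives `cc`.
* `sim`: induction on `t`, `t = 0` is `out_step`. Step: the base names `T1, n1, π, N`; name
  `T1, n1, Function.update π l ⟨kc, ρ / 2, sc / 2, ..⟩, N`. For `T2, n2, m2, A` of the opponent,
  `Met (l + 1) (update ..) (F.or A)` is by definition
  `Met l (update ..) (BB (F.or A) kc (ρ / 2) (sc / 2))` (`Function.update_self`) and by `Met_congr`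
  that is the one with `π`; it is contained in `Met l π ((Thr F κ a).or (BB ..))` (`Met_mono`). Play
  `T2, n2, m2, BB (F.or A) kc (ρ / 2) (sc / 2)` in the base and use `inv_step`.
-/

set_option autoImplicit false

namespace Pool.Agent.NST

open Finset Pool.Agent.PTree Pool.Agent.OSM
open scoped Classical

variable {l : ℕ}

/-- All the events of the list, or `F`. -/
def CapL (F : MF l) (h : List (Ent l)) : MF l where
  bad n T G := ∀ e ∈ h, e.n ≤ n ∧ (F.or e.A).bad e.n T G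
  loc h1 h2 hb e he := ⟨(hb e he).1,
    (F.or e.A).loc (h1.mono (hb e he).1) (h2.mono le_rfl (hb e he).1) (hb e he).2⟩
  mono hb e he := ⟨(hb e he).1.trans (Nat.le_succ _), (hb e he).2⟩

/-- The relation between the histories. -/
structure Inv (F : MF (l + 1)) (ρ sf : ℝ) (n0 m1 N1 : ℕ) (e0b : Ent l) (h : List (Ent (l + 1)))
    (hb : List (Ent l)) (n m kc : ℕ) (sc : ℝ) : Prop where
  sc_pos : 0 < sc
  sc_le : sc ≤ 1
  hn : e0b.n ≤ n
  hm : m1 ≤ m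
  shape_eq : shape h = (m1, N1) :: shape hb
  m_eq : e0b.m = m1
  comb : ∀ (Y : MF (l + 1)) (n' : ℕ) (T : StrSet) (γ : Pt), n ≤ n' →
    (∀ e ∈ e0b :: hb, e.A.bad e.n T γ) → (BB Y kc ρ sc).bad n' T γ →
    (BB ((CapL F h).and Y) n0 ρ sf).bad n' T γ

theorem inv_step {F : MF (l + 1)} {ρ sf : ℝ} (hρ : 0 < ρ) (hρ1 : ρ ≤ 1) {n0 m1 N1 : ℕ}
    {e0b : Ent l} {h : List (Ent (l + 1))} {hb : List (Ent l)} {n m kc : ℕ} {sc : ℝ}
    (hI : Inv F ρ sf n0 m1 N1 e0b h hb n m kc sc) {n2 m2 N : ℕ} (hn2 : n ≤ n2) (hm2 : m ≤ m2)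
    (A : MF (l + 1)) :
    Inv F ρ sf n0 m1 N1 e0b (h ++ [⟨n2, m2, N, A⟩])
      (hb ++ [⟨n2, m2, N, BB (F.or A) kc (ρ / 2) (sc / 2)⟩]) n2 m2 (max kc n2)
      (sc / 2 * (ρ / 2 / 2 ^ n2) ^ n2) := by
  have hsc := hI.sc_pos
  have hsc1 := hI.sc_le
  have h5 : (0 : ℝ) < ρ / 2 / 2 ^ n2 := by positivity
  have h6 : ρ / 2 / 2 ^ n2 ≤ 1 := by
    rw [div_le_one (by positivity)]
    have : (1 : ℝ) ≤ 2 ^ n2 := one_le_pow₀ (by norm_num)
    linarith
  have h7 : (ρ / 2 / 2 ^ n2) ^ n2 ≤ 1 := pow_le_one₀ h5.le h6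
  have h8 : (0 : ℝ) < (ρ / 2 / 2 ^ n2) ^ n2 := by positivity
  refine ⟨by positivity, by nlinarith, hI.hn.trans hn2, hI.hm.trans hm2, ?_, hI.m_eq, ?_⟩
  · have h1 := hI.shape_eq
    unfold shape at h1 ⊢
    rw [List.map_append, h1, List.map_append, List.cons_append]
    rfl
  · intro Y n' T γ hn' hall hY
    have h1 : (BB (F.or A) kc (ρ / 2) (sc / 2)).bad n2 T γ :=
      hall ⟨n2, m2, N, BB (F.or A) kc (ρ / 2) (sc / 2)⟩ (by simp)
    have h2 := comp_one (X := F.or A) (Y := Y) (k := kc) hρ (half_pos hsc) hn' h1 hY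
    rw [mul_div_cancel₀ sc (two_ne_zero)] at h2
    have h3 := hI.comb (MF.cap n2 (F.or A) Y) n' T γ (hn2.trans hn') (by
      intro e he
      refine hall e ?_
      rw [← List.cons_append]
      exact List.mem_append_left _ he) h2
    refine BB_mono ?_ n0 ρ sf n' T γ h3
    rintro n'' T' G' ⟨h9, h10, h11, h12⟩
    refine ⟨?_, h12⟩
    intro e he
    rcases List.mem_append.1 he with he | he
    · exact h9 e he
    · rw [List.mem_singleton] at he
      subst he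
      exact ⟨h10, h11⟩

private theorem rhoN_pos' {q : ℝ} (hq : 0 < q) (N : ℕ) : 0 < rhoN q N := by
  have := thN_pos N
  unfold rhoN
  positivity

private theorem rhoN_le' {q : ℝ} (hq : 0 < q) (hq1 : q ≤ 1) (N : ℕ) : rhoN q N ≤ 1 := by
  have h1 := thN_pos N
  have h2 := thN_le N
  have h3 : q * thN N ≤ 1 := by nlinarith
  have h4 : 0 ≤ q * thN N := by positivity
  unfold rhoN
  have h5 : (q * thN N / 8) ^ N ≤ 1 := pow_le_one₀ (by positivity) (by linarith)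
  have h6 : 0 ≤ (q * thN N / 8) ^ N := by positivity
  nlinarith

/-- The event which is always true. -/
private def topMF (l : ℕ) : MF l where
  bad _ _ _ := True
  loc _ _ _ := trivial
  mono _ := trivial

theorem out_step {F : MF (l + 1)} {κ : Par} {a ε c : ℝ} {AA : Type} [Fintype AA]
    [AddCommGroup AA] {n0 nw m0 m1 ℓ D N1 : ℕ} (h01 : m0 ≤ m1)
    (hε : ε = 1 / 50000) (hn0 : 0 < n0) (hk : κ.k ≤ n0)
    (hℓ : 4 * Fintype.card (Sn n0) * (n0 + 5) ≤ ℓ) (hw : nw ≤ 2 * (n0 * ℓ))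
    (hε2 : |a - ε| * nw ≤ ε * (2 * ((n0 : ℝ) * ℓ)))
    (hD : 160 / (κ.s * κ.q ^ (2 * (n0 * ℓ))) *
      (Fintype.card (Sn m0 → AA × ZMod 2) : ℝ) < 2 ^ (D + 1))
    {sf : ℝ} (hsf : (ℓ : ℝ) ^ n0 * sf ≤ κ.s * κ.q ^ n0 / 100) (A0 : MF (l + 1)) (e0b : Ent l)
    (hbase : ∀ T γ, e0b.A.bad e0b.n T γ →
      (BB (F.or A0) κ.k (3 * κ.q / 4) (κ.s / 100)).bad n0 T γ ∧
        (Thr F κ (a - ε)).bad nw T γ)
    (hn0b : n0 ≤ e0b.n) (hnwb : nw ≤ e0b.n)
    (hN1 : D * Fintype.card (Sn m0 → AA × ZMod 2) + 1 ≤ N1)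
    {h : List (Ent (l + 1))} {hb : List (Ent l)} {T : StrSet} {n m kc : ℕ} {sc : ℝ}
    (hI : Inv F (rhoN κ.q (Fintype.card (Sn m0 → AA × ZMod 2))) sf n0 m1 N1 e0b h hb n m kc sc)
    (hO : Out (Thr F κ a) c AA e0b hb T n m) :
    Out F c (AA × ZMod 2) ⟨n0, m0, 0, A0⟩ h T n m := by
  obtain ⟨nb, mb, Nb', Ab⟩ := e0b
  have hmb : mb = m1 := hI.m_eq
  subst hmb
  obtain ⟨γ, hγ, Wb, Eb, hWb, hvia, hS⟩ := hO
  have hb0 := hbase T γ (hγ _ (by simp))
  have hC := hI.comb (topMF (l + 1)) n T γ le_rfl hγ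
    (BB_of_all (F := topMF (l + 1)) (fun _ => trivial) kc (rhoN_pos' κ.hq _) hI.sc_pos)
  obtain ⟨G, s', β, ωf, W', hG1, hG2, hG3, hωf, hW', hV⟩ :=
    out_core h01 hε hn0 hk (hn0b.trans hI.hn) (hnwb.trans hI.hn) hℓ hw hε2 hD hsf A0
      ((CapL F h).and (topMF (l + 1))) hb0.1 hb0.2 hC Wb Eb hWb (fun ω hω => (hvia ω hω).2)
  refine ⟨Function.update γ l G, ?_, W', fun τ => Eb (ωf τ), hW', ?_, ?_⟩
  · intro e he
    rcases List.mem_cons.1 he with he | he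
    · subst he
      exact hG1
    · obtain ⟨h1, h2⟩ := hG2.1 e he
      rcases h2 with h2 | h2
      · exact absurd (F.mono_le h1 h2) hG3
      · exact h2
  · intro τ hτ
    exact ⟨(hvia (ωf τ) (hωf τ).1).1, hV τ hτ⟩
  · intro S hSl hSg
    have h1 : shape ((⟨n0, m0, 0, A0⟩ : Ent (l + 1)) :: h) = (m0, 0) :: (mb, N1) :: shape hb := by
      have h2 := hI.shape_eq
      unfold shape at h2 ⊢
      rw [List.map_cons, h2]
    rw [h1] at hSg
    obtain ⟨h3, h4⟩ := hSg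
    have h5 : Grow S (shape ((⟨nb, mb, Nb', Ab⟩ : Ent l) :: hb)) := by
      have : shape ((⟨nb, mb, Nb', Ab⟩ : Ent l) :: hb) = (mb, Nb') :: shape hb := rfl
      rw [this]
      exact grow_head (p := (mb, N1)) (p' := (mb, Nb')) rfl h4
    obtain ⟨cb, hcb⟩ := hS S hSl h5
    obtain ⟨cc, hcc⟩ := hit_step h01 hI.hm Wb Eb s' β ωf hωf S hSl
      (fun v hv => hN1.trans (h3 v hv)) cb hcb
    exact ⟨cc, fun τ _ v hv hτ => hcc τ v hv hτ⟩

theorem sim {F : MF (l + 1)} {κ : Par} {a ε c c2 : ℝ} {AA : Type} [Fintype AA]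
    [AddCommGroup AA] {n0 nw m0 m1 ℓ D N1 : ℕ} (h01 : m0 ≤ m1)
    (hε : ε = 1 / 50000) (hn0 : 0 < n0) (hk : κ.k ≤ n0)
    (hℓ : 4 * Fintype.card (Sn n0) * (n0 + 5) ≤ ℓ) (hw : nw ≤ 2 * (n0 * ℓ))
    (hε2 : |a - ε| * nw ≤ ε * (2 * ((n0 : ℝ) * ℓ)))
    (hD : 160 / (κ.s * κ.q ^ (2 * (n0 * ℓ))) *
      (Fintype.card (Sn m0 → AA × ZMod 2) : ℝ) < 2 ^ (D + 1))
    {sf : ℝ} (hsf : (ℓ : ℝ) ^ n0 * sf ≤ κ.s * κ.q ^ n0 / 100) (A0 : MF (l + 1)) (e0b : Ent l)
    (hbase : ∀ T γ, e0b.A.bad e0b.n T γ →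
      (BB (F.or A0) κ.k (3 * κ.q / 4) (κ.s / 100)).bad n0 T γ ∧
        (Thr F κ (a - ε)).bad nw T γ)
    (hn0b : n0 ≤ e0b.n) (hnwb : nw ≤ e0b.n)
    (hN1 : D * Fintype.card (Sn m0 → AA × ZMod 2) + 1 ≤ N1) (t : ℕ) :
    ∀ (h : List (Ent (l + 1))) (hb : List (Ent l)) (T : StrSet) (n m kc : ℕ) (sc : ℝ),
      Inv F (rhoN κ.q (Fintype.card (Sn m0 → AA × ZMod 2))) sf n0 m1 N1 e0b h hb n m kc sc →
      Rnd (Thr F κ a) c c2 AA e0b t hb T n m →
      Rnd F c c2 (AA × ZMod 2) ⟨n0, m0, 0, A0⟩ t h T n m := by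
  induction t with
  | zero =>
    intro h hb T n m kc sc hI hR
    exact out_step h01 hε hn0 hk hℓ hw hε2 hD hsf A0 e0b hbase hn0b hnwb hN1 hI hR
  | succ t ih =>
    intro h hb T n m kc sc hI hR
    obtain ⟨T1, n1, hT1, hn1, π, N, hR⟩ := hR
    have hρ := rhoN_pos' κ.hq (Fintype.card (Sn m0 → AA × ZMod 2))
    have hρ1 := rhoN_le' κ.hq κ.hq1 (Fintype.card (Sn m0 → AA × ZMod 2))
    have hsc := hI.sc_pos
    have hsc1 := hI.sc_le
    refine ⟨T1, n1, hT1, hn1, Function.update π l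
      ⟨kc, rhoN κ.q (Fintype.card (Sn m0 → AA × ZMod 2)) / 2, sc / 2, half_pos hρ, by linarith,
        half_pos hsc, by linarith⟩, N, ?_⟩
    intro T2 n2 m2 A hT2 hn2 hm2 hmn hMet
    refine ih (h ++ [⟨n2, m2, N, A⟩]) (hb ++ [⟨n2, m2, N,
      BB (F.or A) kc (rhoN κ.q (Fintype.card (Sn m0 → AA × ZMod 2)) / 2) (sc / 2)⟩]) T2 n2 m2
      (max kc n2) _ (inv_step hρ hρ1 hI (hn1.trans hn2) hm2 A)
      (hR T2 n2 m2 _ hT2 hn2 hm2 hmn ?_)
    intro G
    have h1 := hMet G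
    have h2 : Met (l + 1) (Function.update π l
      ⟨kc, rhoN κ.q (Fintype.card (Sn m0 → AA × ZMod 2)) / 2, sc / 2, half_pos hρ, by linarith,
        half_pos hsc, by linarith⟩) (F.or A) =
        Met l π (BB (F.or A) kc (rhoN κ.q (Fintype.card (Sn m0 → AA × ZMod 2)) / 2)
          (sc / 2)) := by
      conv_lhs => unfold Met
      rw [Function.update_self]
      exact Met_congr (fun c hc => Function.update_of_ne (by omega) _ _) _
    rw [h2] at h1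
    exact Met_mono (MF.le_or_right _ _) π n2 T2 G h1

end Pool.Agent.NST
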