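import Pool.Agent.NST.Defs

/-!
# NST/Super: superadditivity of the entropies, and the lower bound from `Thr`

* `sum_prod_law`: `Finset.prod_univ_sum` (backwards), `Fintype.piFinset_univ`.
* `sum_append`: reindex with `Fin.appendEquiv` (or use `Fin.append`, `Fin.addCases`).
* `pr_append_sum_right`, `pr_append_sum_left`: `Mx.pr_append`, exchange the sums, `sum_prod_law`.
* `klu_succ_le`: for fixed `(x, y)` the log-sum inequality `d_logsum` over `z`
  (`Mx.pr_succ`; the sum over `z` of `1 / (card X * card Y ^ (r + 1))` is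
  `1 / (card X * card Y ^ r)`), and `sum_snoc`.
* `klu_super`. Write `p x = pr 0 x _`, `p x y = pr r x y`, `p x z = pr r' x z` and
  `p x y z = pr (r + r') x (append y z)`. The sum over `x, y, z` of
  `d (p x y z) (p x y * p x z / p x)` is `≥ 0` (`d_nonneg`: if `p x y * p x z / p x = 0` then
  `p x y z = 0` because `p x y z ≤ p x y`, `p x z`, `p x`, as they are the sums over the other
  variables, see `pr_append_sum_right`, `pr_append_sum_left`). The terms `r - p` of `d` add up
  to `1 - 1 = 0` (`∑_{y, z} p x y * p x z / p x = p x`), and when `p x y z > 0`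
  `log (p x y z * p x / (p x y * p x z)) = log (p x y z / u) + log (p x / u0) - log (p x y / u1) -
  log (p x z / u2)` with `u = 1 / (card X * card Y ^ (r + r'))`, `u0 = 1 / card X`,
  `u1 = 1 / (card X * card Y ^ r)`, `u2 = 1 / (card X * card Y ^ r')` (`u * u0 = u1 * u2`).
  Summing out the other variables (all laws have mass `1`, and so have the uniform ones, so the
  terms `r - p` of the `klu` also add up to `0`) this is
  `klu m (r + r') + klu m 0 - klu m r - klu m r'`.
* `super_low`. `hw` gives `rw ≤ nw` such that all mixtures fitting at level `nw` have entropy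
  `> a' * rw + L` for `rw` samples, `L = log (1 / κ.s)`. The image of `m` at level `nw` fits
  (`Fit.map`), so `a' * rw + L < klu m rw` (`klu_map`). If `rw = 0` this contradicts `klu_le` with
  `l = 0`. Let `t = r / rw ≥ 1`, `r = rw * t + r''`, `r'' < rw`. Induction on `t` with `klu_super`:
  `t * klu m rw ≤ klu m (rw * t) + (t - 1) * klu m 0`, and `klu m 0 ≤ L` (`klu_le`), so
  `a' * (rw * t) + L ≤ klu m (rw * t) ≤ klu m r` (`klu_mono`), and
  `a' * (rw * t) = a' * r - a' * r'' ≥ a' * r - |a'| * nw ≥ a' * r - ε * r`.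
-/

set_option autoImplicit false

namespace Pool.Agent.NST

open Finset Pool.Agent.PTree Pool.Agent.OSM
open scoped Classical

section
variable {X Y : Type} [Fintype X] [Fintype Y]

theorem sum_prod_law {f : Y → ℝ} (hf : ∑ y, f y = 1) (r : ℕ) :
    ∑ z : Fin r → Y, ∏ i, f (z i) = 1 := by
  have h := Finset.prod_univ_sum (fun _ : Fin r => (univ : Finset Y)) (fun _ y => f y)
  rw [Fintype.piFinset_univ] at h
  rw [← h, hf, Finset.prod_const_one]

theorem sum_append (l r : ℕ) (g : (Fin (l + r) → Y) → ℝ) :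
    ∑ w, g w = ∑ y : Fin l → Y, ∑ z : Fin r → Y, g (Fin.append y z) := by
  rw [← (Fin.appendEquiv l r).sum_comp, Fintype.sum_prod_type]
  rfl

theorem pr_append_sum_right {m : Mx X Y} (hm : m.Ok) (l r : ℕ) (x : X) (y : Fin l → Y) :
    ∑ z : Fin r → Y, m.pr (l + r) x (Fin.append y z) = m.pr l x y := by
  simp_rw [Mx.pr_append]
  rw [Finset.sum_comm]
  unfold Mx.pr
  refine Finset.sum_congr rfl fun a _ => ?_
  split_ifs
  · rw [← Finset.mul_sum, sum_prod_law (hm.f_sum a), mul_one]
  · simp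

theorem pr_append_sum_left {m : Mx X Y} (hm : m.Ok) (l r : ℕ) (x : X) (z : Fin r → Y) :
    ∑ y : Fin l → Y, m.pr (l + r) x (Fin.append y z) = m.pr r x z := by
  simp_rw [Mx.pr_append]
  rw [Finset.sum_comm]
  unfold Mx.pr
  refine Finset.sum_congr rfl fun a _ => ?_
  split_ifs
  · rw [← Finset.sum_mul, ← Finset.mul_sum, sum_prod_law (hm.f_sum a), mul_one]
  · simp

private theorem pr_sum_zero {m : Mx X Y} (hm : m.Ok) (l : ℕ) (x : X) :
    ∑ y : Fin l → Y, m.pr l x y = m.pr 0 x Fin.elim0 := by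
  unfold Mx.pr
  rw [Finset.sum_comm]
  refine Finset.sum_congr rfl fun a _ => ?_
  split_ifs
  · rw [← Finset.mul_sum, sum_prod_law (hm.f_sum a)]
    simp
  · simp

private theorem un_pos (X Y : Type) [Fintype X] [Fintype Y] [Nonempty X] [Nonempty Y] (l : ℕ) :
    0 < 1 / ((Fintype.card X : ℝ) * (Fintype.card Y : ℝ) ^ l) := by
  have h1 : 0 < (Fintype.card X : ℝ) := by exact_mod_cast Fintype.card_pos
  have h2 : 0 < (Fintype.card Y : ℝ) := by exact_mod_cast Fintype.card_pos
  positivity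

private theorem klu_eq [Nonempty X] [Nonempty Y] {m : Mx X Y} (hm : m.Ok) (l : ℕ) :
    klu m l = ∑ x, ∑ y : Fin l → Y, m.pr l x y *
      Real.log (m.pr l x y / (1 / ((Fintype.card X : ℝ) * (Fintype.card Y : ℝ) ^ l))) := by
  have hX : (Fintype.card X : ℝ) ≠ 0 := by exact_mod_cast Fintype.card_pos.ne'
  have hY : (Fintype.card Y : ℝ) ≠ 0 := by exact_mod_cast Fintype.card_pos.ne'
  have h1 := Mx.pr_sum hm l
  have h2 : ∑ _x : X, ∑ _y : Fin l → Y,
      (1 / ((Fintype.card X : ℝ) * (Fintype.card Y : ℝ) ^ l)) = 1 := by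
    rw [sum_const, sum_const, card_univ, card_univ, Fintype.card_fun, Fintype.card_fin,
      nsmul_eq_mul, nsmul_eq_mul, Nat.cast_pow]
    field_simp
  unfold klu d
  simp only [sum_sub_distrib, sum_add_distrib]
  rw [h1, h2]
  ring

theorem klu_succ_le [Nonempty X] [Nonempty Y] {m : Mx X Y} (hm : m.Ok) (r : ℕ) :
    klu m r ≤ klu m (r + 1) := by
  unfold klu
  refine sum_le_sum fun x _ => ?_
  rw [sum_snoc]
  refine sum_le_sum fun y _ => ?_
  have hu := un_pos X Y (r + 1)
  have h := d_logsum (univ : Finset Y) (fun z => m.pr (r + 1) x (Fin.snoc y z))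
    (fun _ => 1 / ((Fintype.card X : ℝ) * (Fintype.card Y : ℝ) ^ (r + 1)))
    (fun z _ => Mx.pr_nonneg hm _ _ _) (fun z _ => hu.le) (fun z _ h => absurd h hu.ne')
  rw [Mx.pr_succ hm, sum_const, card_univ, nsmul_eq_mul] at h
  have hX : (Fintype.card X : ℝ) ≠ 0 := by exact_mod_cast Fintype.card_pos.ne'
  have hY : (Fintype.card Y : ℝ) ≠ 0 := by exact_mod_cast Fintype.card_pos.ne'
  have e : (Fintype.card Y : ℝ) * (1 / ((Fintype.card X : ℝ) * (Fintype.card Y : ℝ) ^ (r + 1))) =
      1 / ((Fintype.card X : ℝ) * (Fintype.card Y : ℝ) ^ r) := by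
    rw [pow_succ]
    field_simp
  rw [e] at h
  exact h

theorem klu_mono [Nonempty X] [Nonempty Y] {m : Mx X Y} (hm : m.Ok) {r r' : ℕ} (h : r ≤ r') :
    klu m r ≤ klu m r' := by
  induction r', h using Nat.le_induction with
  | base => exact le_rfl
  | succ n _ ih => exact ih.trans (klu_succ_le hm n)

private theorem super_pt {P Px Py Pz u u0 u1 u2 : ℝ} (hP : 0 ≤ P) (h1 : P ≤ Py) (h2 : P ≤ Pz)
    (h3 : P ≤ Px) (hu : 0 < u) (hu0 : 0 < u0) (hu1 : 0 < u1) (hu2 : 0 < u2)
    (huu : u * u0 = u1 * u2) : P - Py * Pz / Px ≤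
      P * Real.log (P / u) + P * Real.log (Px / u0) - P * Real.log (Py / u1) -
        P * Real.log (Pz / u2) := by
  have hq : 0 ≤ Py * Pz / Px :=
    div_nonneg (mul_nonneg (hP.trans h1) (hP.trans h2)) (hP.trans h3)
  rcases hP.eq_or_lt with h | h
  · rw [← h]
    simp only [zero_mul]
    linarith
  · have hx : 0 < Px := h.trans_le h3
    have hy : 0 < Py := h.trans_le h1
    have hz : 0 < Pz := h.trans_le h2
    have hq' : 0 < Py * Pz / Px := by positivity
    have hd := d_nonneg hP hq (fun h0 => absurd h0 hq'.ne')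
    unfold d at hd
    have e1 : Real.log (P / (Py * Pz / Px)) = Real.log P - (Real.log Py + Real.log Pz -
        Real.log Px) := by
      rw [Real.log_div h.ne' hq'.ne', Real.log_div (mul_pos hy hz).ne' hx.ne',
        Real.log_mul hy.ne' hz.ne']
    have e2 : Real.log u + Real.log u0 = Real.log u1 + Real.log u2 := by
      rw [← Real.log_mul hu.ne' hu0.ne', huu, Real.log_mul hu1.ne' hu2.ne']
    rw [e1] at hd
    rw [Real.log_div h.ne' hu.ne', Real.log_div hx.ne' hu0.ne', Real.log_div hy.ne' hu1.ne',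
      Real.log_div hz.ne' hu2.ne']
    have e3 : P * (Real.log u + Real.log u0) = P * (Real.log u1 + Real.log u2) := by rw [e2]
    linarith

theorem klu_super [Nonempty X] [Nonempty Y] {m : Mx X Y} (hm : m.Ok) (r r' : ℕ) :
    klu m r + klu m r' ≤ klu m (r + r') + klu m 0 := by
  have hX : (Fintype.card X : ℝ) ≠ 0 := by exact_mod_cast Fintype.card_pos.ne'
  have hY : (Fintype.card Y : ℝ) ≠ 0 := by exact_mod_cast Fintype.card_pos.ne'
  set u : ℕ → ℝ := fun l => 1 / ((Fintype.card X : ℝ) * (Fintype.card Y : ℝ) ^ l) with hu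
  have hup : ∀ l, 0 < u l := fun l => un_pos X Y l
  have huu : u (r + r') * u 0 = u r * u r' := by
    simp only [hu, pow_add, pow_zero]
    field_simp
  -- the four entropies as sums over `x, y, z`
  have k1 : klu m (r + r') = ∑ x, ∑ y : Fin r → Y, ∑ z : Fin r' → Y,
      m.pr (r + r') x (Fin.append y z) *
        Real.log (m.pr (r + r') x (Fin.append y z) / u (r + r')) := by
    rw [klu_eq hm]
    exact sum_congr rfl fun x _ => sum_append r r' _
  have k2 : klu m r = ∑ x, ∑ y : Fin r → Y, ∑ z : Fin r' → Y,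
      m.pr (r + r') x (Fin.append y z) * Real.log (m.pr r x y / u r) := by
    rw [klu_eq hm]
    refine sum_congr rfl fun x _ => sum_congr rfl fun y _ => ?_
    rw [← sum_mul, pr_append_sum_right hm]
  have k3 : klu m r' = ∑ x, ∑ y : Fin r → Y, ∑ z : Fin r' → Y,
      m.pr (r + r') x (Fin.append y z) * Real.log (m.pr r' x z / u r') := by
    rw [klu_eq hm]
    refine sum_congr rfl fun x _ => ?_
    rw [sum_comm]
    refine sum_congr rfl fun z _ => ?_
    rw [← sum_mul, pr_append_sum_left hm]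
  have k0 : klu m 0 = ∑ x, ∑ y : Fin r → Y, ∑ z : Fin r' → Y,
      m.pr (r + r') x (Fin.append y z) * Real.log (m.pr 0 x Fin.elim0 / u 0) := by
    rw [klu_eq hm]
    refine sum_congr rfl fun x _ => ?_
    have e1 : ∀ y : Fin r → Y, ∑ z : Fin r' → Y,
        m.pr (r + r') x (Fin.append y z) * Real.log (m.pr 0 x Fin.elim0 / u 0) =
        m.pr r x y * Real.log (m.pr 0 x Fin.elim0 / u 0) := fun y => by
      rw [← sum_mul, pr_append_sum_right hm]
    simp_rw [e1]
    rw [← sum_mul, pr_sum_zero hm, Fintype.sum_unique]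
    have e2 : (default : Fin 0 → Y) = Fin.elim0 := Subsingleton.elim _ _
    rw [e2]
  -- the mass of the product law
  have hq : ∑ x, ∑ y : Fin r → Y, ∑ z : Fin r' → Y,
      m.pr r x y * m.pr r' x z / m.pr 0 x Fin.elim0 = 1 := by
    have h0 := Mx.pr_sum hm 0
    rw [← h0]
    refine sum_congr rfl fun x _ => ?_
    have e1 : ∑ y : Fin r → Y, ∑ z : Fin r' → Y,
        m.pr r x y * m.pr r' x z / m.pr 0 x Fin.elim0 =
        (∑ y : Fin r → Y, m.pr r x y) * (∑ z : Fin r' → Y, m.pr r' x z) /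
          m.pr 0 x Fin.elim0 := by
      rw [sum_mul_sum, sum_div]
      refine sum_congr rfl fun y _ => ?_
      rw [sum_div]
    rw [e1, pr_sum_zero hm, pr_sum_zero hm, Fintype.sum_unique]
    have e2 : (default : Fin 0 → Y) = Fin.elim0 := Subsingleton.elim _ _
    rw [e2, mul_div_assoc]
    rcases eq_or_ne (m.pr 0 x Fin.elim0) 0 with h | h
    · rw [h]
      simp
    · rw [div_self h, mul_one]
  have hp : ∑ x, ∑ y : Fin r → Y, ∑ z : Fin r' → Y, m.pr (r + r') x (Fin.append y z) = 1 := by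
    rw [← Mx.pr_sum hm (r + r')]
    exact sum_congr rfl fun x _ => (sum_append r r' _).symm
  have key : ∑ x, ∑ y : Fin r → Y, ∑ z : Fin r' → Y, (m.pr (r + r') x (Fin.append y z) -
      m.pr r x y * m.pr r' x z / m.pr 0 x Fin.elim0) ≤
      ∑ x, ∑ y : Fin r → Y, ∑ z : Fin r' → Y, (m.pr (r + r') x (Fin.append y z) *
        Real.log (m.pr (r + r') x (Fin.append y z) / u (r + r')) +
        m.pr (r + r') x (Fin.append y z) * Real.log (m.pr 0 x Fin.elim0 / u 0) -
        m.pr (r + r') x (Fin.append y z) * Real.log (m.pr r x y / u r) -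
        m.pr (r + r') x (Fin.append y z) * Real.log (m.pr r' x z / u r')) := by
    refine sum_le_sum fun x _ => sum_le_sum fun y _ => sum_le_sum fun z _ => ?_
    have hy : m.pr (r + r') x (Fin.append y z) ≤ m.pr r x y := by
      rw [← pr_append_sum_right hm r r' x y]
      exact single_le_sum (f := fun z : Fin r' → Y => m.pr (r + r') x (Fin.append y z))
        (fun z _ => Mx.pr_nonneg hm _ _ _) (mem_univ z)
    have hz : m.pr (r + r') x (Fin.append y z) ≤ m.pr r' x z := by
      rw [← pr_append_sum_left hm r r' x z]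
      exact single_le_sum (f := fun y : Fin r → Y => m.pr (r + r') x (Fin.append y z))
        (fun z _ => Mx.pr_nonneg hm _ _ _) (mem_univ y)
    have hx : m.pr r x y ≤ m.pr 0 x Fin.elim0 := by
      rw [← pr_sum_zero hm r x]
      exact single_le_sum (f := fun y : Fin r → Y => m.pr r x y)
        (fun z _ => Mx.pr_nonneg hm _ _ _) (mem_univ y)
    exact super_pt (Mx.pr_nonneg hm _ _ _) hy hz (hy.trans hx) (hup _) (hup _) (hup _) (hup _) huu
  simp only [sum_sub_distrib, sum_add_distrib] at key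
  rw [← k1, ← k2, ← k3, ← k0, hp, hq] at key
  linarith

end

theorem super_low {l : ℕ} {F : MF (l + 1)} {κ : Par} {a' ε : ℝ} {nw n : ℕ} {T : StrSet} {γ : Pt}
    (hw : (Thr F κ a').bad nw T γ) (hn : nw ≤ n) {m : Mx (Fin κ.k → Sn n) (Sn n)}
    (hm : Fit (F.slice γ) n T κ.k κ.q κ.s m) {r : ℕ} (hr : nw ≤ r) (hε : |a'| * nw ≤ ε * r) :
    a' * r - ε * r + Real.log (1 / κ.s) ≤ klu m r := by
  obtain ⟨w, hwn, hw⟩ := hw
  have hfit := Fit.map hn κ.hq hm
  have h1 := hw _ hfit
  have h2 : klu (m.map (fun x i => res hn (x i)) (res hn)) w ≤ klu m w :=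
    klu_map hm.ok (eqFib_comp (eqFib_res hn) κ.k) (eqFib_res hn) w
  have h3 : a' * w + Real.log (1 / κ.s) < klu m w := lt_of_lt_of_le h1 h2
  have h4 : klu m 0 ≤ Real.log (1 / κ.s) := by
    have h := klu_le hm.ok (one_div_pos.2 κ.hq) (one_div_pos.2 κ.hs) hm.f_le
      (fun x => by convert hm.x_le x) 0
    simpa using h
  have hw0 : 0 < w := by
    rcases Nat.eq_zero_or_pos w with h | h
    · rw [h] at h3
      simp only [Nat.cast_zero, mul_zero, zero_add] at h3
      linarith
    · exact h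
  have hind : ∀ t : ℕ, 1 ≤ t → (t : ℝ) * klu m w ≤ klu m (w * t) + ((t : ℝ) - 1) * klu m 0 := by
    intro t ht
    induction t, ht using Nat.le_induction with
    | base => simp
    | succ t ht ih =>
      have h5 := klu_super hm.ok (w * t) w
      have e : w * t + w = w * (t + 1) := by ring
      rw [e] at h5
      push_cast
      linarith
  set t := r / w with htd
  have ht1 : 1 ≤ t := (Nat.one_le_div_iff hw0).2 (hwn.trans hr)
  have ht1' : (1 : ℝ) ≤ t := by exact_mod_cast ht1
  have h5 := hind t ht1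
  have hdm : w * t + r % w = r := Nat.div_add_mod r w
  have h6 : klu m (w * t) ≤ klu m r := klu_mono hm.ok (by omega)
  have hmod : r % w < w := Nat.mod_lt _ hw0
  have hdm' : (w : ℝ) * t + ((r % w : ℕ) : ℝ) = r := by exact_mod_cast hdm
  have hmod' : ((r % w : ℕ) : ℝ) ≤ nw := by exact_mod_cast (hmod.le.trans hwn)
  have hmod0 : (0 : ℝ) ≤ ((r % w : ℕ) : ℝ) := Nat.cast_nonneg _
  have h7 : a' * ((r % w : ℕ) : ℝ) ≤ |a'| * nw :=
    mul_le_mul (le_abs_self a') hmod' hmod0 (abs_nonneg a')
  have h8 : (t : ℝ) * (a' * w + Real.log (1 / κ.s)) ≤ (t : ℝ) * klu m w :=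
    mul_le_mul_of_nonneg_left h3.le (by linarith)
  have h9 : ((t : ℝ) - 1) * klu m 0 ≤ ((t : ℝ) - 1) * Real.log (1 / κ.s) :=
    mul_le_mul_of_nonneg_left h4 (by linarith)
  have h10 : a' * ((w : ℝ) * t) = a' * r - a' * ((r % w : ℕ) : ℝ) := by
    rw [← hdm']
    ring
  nlinarith [h5, h6, h7, h8, h9, h10]

end Pool.Agent.NST
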