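import Pool.Agent.NST.Req
import Pool.Agent.NST.Conj

/-!
# NST/Supply: the events played in the game

* `unb_dec`: suppose `F' = F.or (FDecM E Φ 0 0 L)` is viable on `Nb T1 m1 c1 ⊆ N`. Then there is a
  win: let `T ∈ Nb T1 m1 c1`, `G` avoid `F'` and suppose `p = (T, G) ∈ E`. By `cont` for `L + 1` there
  is `n`; any two elements of `ExtM E n T G` have values which agree with `Φ p` below `L + 1`, so
  `DecM E Φ 0 0 L n T G` (the second part is trivial for `N = 0`), contradiction.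
* `unb_wid`: the same with `FWidM E Φ m N`: by `Perfect.width` there is for each of the finitely
  many `σ ∈ Φ p` of length `m` a number; let `L ≥ m` be at least all of them, so that
  `N ≤ card (above (Φ p) σ L)`; `cont` for `L + 1` gives `n1`, take `n = max n1 L`. If `Φ p'` agrees
  with `Φ p` below `L + 1` then `above (Φ p') σ L = above (Φ p) σ L`.
* `supply`: By `Unb.exists` for `unb_wid` on `Nb T n c2` (a subset of `Nb T0 n0 c`, by `Nb.subset`,
  `c ≤ c2`) with `halfP π` and the bound `max n m`: `T2' ∈ Nb T n c2`, `n' ≥ n, m` with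
  `(Met l (halfP π) (F.or (FWidM E Φ m N))).bad n' T2' _`. Let `m2 = n'`. By `Unb.exists` for
  `unb_dec` (`L = n'`) on `Nb T2' n' c2` with `plusP n' π`: `T2`, `n2 ≥ n'`. With `Met_loc`, `comp_met`:
  `(Met l π (MF.cap n' (F.or (FWidM E Φ m N)) (F.or (FDecM E Φ 0 0 n')))).bad n2 T2 _`; `Met_mono`:
  this event is contained in `F.or (FDecM E Φ m N n')`: if `F` is not bad then at `n'` there is
  `L ≤ n'` with `DecM E Φ m N L n' ..`, so for `p` in `ExtM E n2 ..` (contained in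
  `ExtM E n' ..`) and `σ` of length `m`, `N ≤ card (above (Φ p) σ L) ≤ card (above (Φ p) σ n')`
  (`above_card_mono`, `perf`), and the values are decided below `n' + 1`.
-/

set_option autoImplicit false

namespace Pool.Agent.NST

open Finset Pool.Agent.PTree Pool.Agent.OSM
open scoped Classical

variable {l : ℕ}

theorem unb_dec {E : Set (PG l)} {Φ : PG l → StrSet} (hreq : ReqM E Φ) {F : MF l}
    {N : Set StrSet} (hw : ¬ WinM E F N) (L : ℕ) : Unb l (F.or (FDecM E Φ 0 0 L)) N := by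
  intro T1 m1 c1 hT1 hc1 hN hv
  refine hw ⟨F.or (FDecM E Φ 0 0 L), T1, m1, c1, MF.le_or_left _ _, hT1, hc1, hN, hv, ?_⟩
  intro T _ G hG hE
  obtain ⟨n, hn⟩ := hreq.cont _ hE (L + 1)
  refine hG n (Or.inr ⟨?_, ?_⟩)
  · intro p hp p' hp'
    exact (hn p hp.1 hp.2.1 hp.2.2).symm.trans (hn p' hp'.1 hp'.2.1 hp'.2.2)
  · intro p _ σ _ _
    exact Nat.zero_le _

theorem unb_wid {E : Set (PG l)} {Φ : PG l → StrSet} (hreq : ReqM E Φ) {F : MF l}
    {N : Set StrSet} (hw : ¬ WinM E F N) (m M0 : ℕ) : Unb l (F.or (FWidM E Φ m M0)) N := by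
  intro T1 m1 c1 hT1 hc1 hN hv
  refine hw ⟨F.or (FWidM E Φ m M0), T1, m1, c1, MF.le_or_left _ _, hT1, hc1, hN, hv, ?_⟩
  intro T _ G hG hE
  have hP : Perfect (Φ (T, fun c : Fin l => G c)) := (hreq.perf _ hE).1
  have key : ∀ σ : List Bool, ∃ L, Φ (T, fun c : Fin l => G c) σ = true →
      ∀ L', L ≤ L' → M0 ≤ (above (Φ (T, fun c : Fin l => G c)) σ L').card := by
    intro σ
    by_cases hσ : Φ (T, fun c : Fin l => G c) σ = true
    · obtain ⟨L, hL⟩ := hP.width M0 hσ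
      exact ⟨L, fun _ => hL⟩
    · exact ⟨0, fun h => absurd h hσ⟩
  choose Lf hLf using key
  obtain ⟨L, hLm, hLs⟩ : ∃ L, m ≤ L ∧ ∀ σ ∈ strs m, Lf σ ≤ L :=
    ⟨max m ((strs m).sup Lf), le_max_left _ _, fun σ hσ =>
      (Finset.le_sup (f := Lf) hσ).trans (le_max_right _ _)⟩
  obtain ⟨n1, hn1⟩ := hreq.cont _ hE (L + 1)
  have hag : ∀ p ∈ ExtM E (max n1 L) T G, Agree (L + 1) (Φ (T, fun c : Fin l => G c)) (Φ p) := by
    intro p hp
    have hp' := ExtM.mono E (le_max_left n1 L) T G hp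
    exact hn1 p hp'.1 hp'.2.1 hp'.2.2
  refine hG (max n1 L) (Or.inr ⟨L, le_max_right _ _, ?_, ?_⟩)
  · intro p hp p' hp'
    exact (hag p hp).symm.trans (hag p' hp')
  · intro p hp σ hσ hpσ
    have h1 := hag p hp
    have h2 : above (Φ p) σ L = above (Φ (T, fun c : Fin l => G c)) σ L := by
      ext τ
      rw [mem_above, mem_above]
      constructor
      · rintro ⟨h3, h4, h5⟩
        exact ⟨h3, by rw [← h1 τ (by omega)]; exact h4, h5⟩
      · rintro ⟨h3, h4, h5⟩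
        exact ⟨h3, by rw [h1 τ (by omega)]; exact h4, h5⟩
    have h3 : Φ (T, fun c : Fin l => G c) σ = true := by
      rw [← h1 σ (by omega)]
      exact hpσ
    rw [h2]
    exact hLf σ h3 L (hLs σ (mem_strs.2 hσ))

theorem supply {E : Set (PG l)} {Φ : PG l → StrSet} (hreq : ReqM E Φ) {F : MF l}
    {T0 : StrSet} {n0 : ℕ} {c c2 : ℝ} (hc : c ≤ c2) (hw : ¬ WinM E F (Nb T0 n0 c))
    {T : StrSet} {n : ℕ} (hT : T ∈ Nb T0 n0 c2) (hn : n0 ≤ n) (m M0 : ℕ) (π : ℕ → Par) :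
    ∃ (T2 : StrSet) (n2 m2 : ℕ), T2 ∈ Nb T n c2 ∧ n ≤ n2 ∧ m ≤ m2 ∧ m2 ≤ n2 ∧
      ∀ G, (Met l π (F.or (FDecM E Φ m M0 m2))).bad n2 T2 G := by
  have hNc : Nb T0 n0 c2 ⊆ Nb T0 n0 c := fun T' h =>
    ⟨h.1, h.2.1, h.2.2.1, lt_of_le_of_lt hc h.2.2.2⟩
  have hsub1 : Nb T n c2 ⊆ Nb T0 n0 c := (Nb.subset hT hn le_rfl).trans hNc
  obtain ⟨T2', hT2', n', hn', hb'⟩ := (unb_wid hreq hw m M0).exists hT.1 hT.2.2.2 hsub1
    (halfP π) (max n m)
  have hnn' : n ≤ n' := (le_max_left _ _).trans hn'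
  have hmn' : m ≤ n' := (le_max_right _ _).trans hn'
  have hsub2 : Nb T2' n' c2 ⊆ Nb T n c2 := Nb.subset hT2' hnn' le_rfl
  obtain ⟨T2, hT2, n2, hn2, hb2⟩ := (unb_dec hreq hw n').exists hT2'.1 hT2'.2.2.2
    (hsub2.trans hsub1) (plusP n' π) n'
  refine ⟨T2, n2, n', hsub2 hT2, hnn'.trans hn2, hmn', hn2, fun G => ?_⟩
  have h1 := Met_loc hT2.2.2.1 (hb' G) G
  have h2 := comp_met hn2 π h1 (hb2 G)
  refine Met_mono ?_ π n2 T2 G h2
  rintro k T'' G'' ⟨hk, hx, hy⟩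
  rcases hy with hy | hy
  · exact Or.inl hy
  rcases hx with hx | ⟨L, hL, hd⟩
  · exact Or.inl (F.mono_le hk hx)
  refine Or.inr ⟨hy.1, ?_⟩
  intro p hp σ hσ hpσ
  exact (hd.2 p (ExtM.mono E hk _ _ hp) σ hσ hpσ).trans
    (above_card_mono (hreq.perf p hp.1).1 σ hL)

end Pool.Agent.NST
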