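import Pool.Agent.NST.Info

/-!
# NST/Typ: a typical sample

Write `A = avg P`, `N = card I`, `u = 1 / (card X * card Y ^ j)`. Take `j` from `choose_j`. With the
sums over all `(x, y)`, `y : Fin j → Y`, the `A.pr j`-mass
* of the `(x, y)` with `Bad x (y restricted to Fin J0)` is at most `1 / 4` (`Mx.pr_marg`);
* of the `(x, y)` with `A.pr j x y < u / 10` is at most `1 / 10` (each has mass `≤ u / 10`, there
  are `1 / u` of them);
* of the `(x, y)` with `20 * η * N * A.pr j x y < ∑ i, inc (P i) A j x y` is at most `1 / 10`: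
  `20 * η * N` times this mass is at most `∑ x y, ∑ i, inc = ∑ i, (kl (j + 1) - kl j) ≤ N * 2 * η`
  (`sum_inc`, `inc_nonneg`).
As the total mass is `1` (`Mx.pr_sum`) there is `(x, y)` in none of the three sets; let `p0 =
A.pr j x y ≥ u / 10 > 0`. By `zb_le`, with `g i = ∑ z ∈ zb (P i) A j x y, A.pr (j + 1) x (snoc y z)`,
`∑ i, (P i).pr j x y * g i ≤ 7 * p0 * ∑ i, inc ≤ 140 * η * N * p0 ^ 2`. So the `i` with
`g i > p0 / 100` have `∑ (P i).pr j x y ≤ 14000 * η * N * p0 ≤ (5 / 8) * N * p0`. The `i` with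
`(P i).pr j x y < p0 / 4` have `∑ (P i).pr ≤ N * p0 / 4`. As `∑ i, (P i).pr j x y = N * p0`
(`pr_avg`), the set `Yg` of the other `i` has `∑ (P i).pr ≥ N * p0 / 8 ≥ N * u / 80`. And
`(P i).pr j x y ≤ (1 / s) / card X * ((1 / q) / card Y) ^ j ≤ u / (s * q ^ (2 * J0))` (`Mx.pr_le`,
`q ≤ 1`, `j ≤ 2 * J0`). So `N ≤ 80 / (s * q ^ (2 * J0)) * Yg.card`.
-/

set_option autoImplicit false

namespace Pool.Agent.NST

open Finset Pool.Agent.PTree Pool.Agent.OSM
open scoped Classical

theorem typical2 {I X Y : Type} [Fintype I] [Nonempty I] [Fintype X] [Nonempty X] [Fintype Y]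
    [Nonempty Y] {P : I → Mx X Y} (hP : ∀ i, (P i).Ok) {q s : ℝ} (hq : 0 < q) (hq1 : q ≤ 1)
    (hs : 0 < s) (hf : ∀ i a y, (P i).f a y ≤ (1 / q) / (Fintype.card Y : ℝ))
    (hx : ∀ i x, (∑ a, if (P i).x a = x then (P i).w a else 0) ≤
      (1 / s) / (Fintype.card X : ℝ))
    {J0 : ℕ} (hJ : 0 < J0) {η : ℝ} (hη : 0 < η) (hη1 : η ≤ 1 / 22400)
    (h : ∑ i, klu (P i) (2 * J0) ≤
      Fintype.card I * (klu (avg P) (2 * J0) + η * (2 * J0)))
    (Bad : X → (Fin J0 → Y) → Prop)
    (hBad : (∑ x, ∑ y : Fin J0 → Y, if Bad x y then (avg P).pr J0 x y else 0) ≤ 1 / 4) :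
    ∃ (j : ℕ) (hj : J0 ≤ j) (x : X) (y : Fin j → Y), j < 2 * J0 ∧
      1 / (10 * ((Fintype.card X : ℝ) * (Fintype.card Y : ℝ) ^ j)) ≤ (avg P).pr j x y ∧
      ¬ Bad x (fun i => y (i.castLE hj)) ∧
      ∃ Yg : Finset I, (Fintype.card I : ℝ) ≤ 80 / (s * q ^ (2 * J0)) * Yg.card ∧
        ∀ i ∈ Yg, (avg P).pr j x y / 4 ≤ (P i).pr j x y ∧
          ∑ z ∈ zb (P i) (avg P) j x y, (avg P).pr (j + 1) x (Fin.snoc y z) ≤
            (avg P).pr j x y / 100 := by
  obtain ⟨j, hj, hj2, hD⟩ := choose_j hP hJ h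
  have hA : (avg P).Ok := avg_ok hP
  have hN : (0 : ℝ) < Fintype.card I := by exact_mod_cast Fintype.card_pos
  have hX : (0 : ℝ) < Fintype.card X := by exact_mod_cast Fintype.card_pos
  have hY : (0 : ℝ) < Fintype.card Y := by exact_mod_cast Fintype.card_pos
  have hXY : (0 : ℝ) < (Fintype.card X : ℝ) * (Fintype.card Y : ℝ) ^ j := by positivity
  -- a good sample
  obtain ⟨x, y, hp, hb, hi⟩ : ∃ (x : X) (y : Fin j → Y),
      1 / (10 * ((Fintype.card X : ℝ) * (Fintype.card Y : ℝ) ^ j)) ≤ (avg P).pr j x y ∧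
      ¬ Bad x (fun i => y (i.castLE hj)) ∧
      ∑ i, inc (P i) (avg P) j x y ≤ 20 * η * Fintype.card I * (avg P).pr j x y := by
    by_contra hcon
    push Not at hcon
    have key : ∀ x (y : Fin j → Y), (avg P).pr j x y ≤
        (avg P).pr j x y * (if Bad x (fun i => y (i.castLE hj)) then (1 : ℝ) else 0) +
        1 / (10 * ((Fintype.card X : ℝ) * (Fintype.card Y : ℝ) ^ j)) +
        1 / (20 * η * Fintype.card I) * ∑ i, inc (P i) (avg P) j x y := by
      intro x y
      have hp0 : 0 ≤ (avg P).pr j x y := Mx.pr_nonneg hA _ _ _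
      have t1 : 0 ≤ (avg P).pr j x y *
          (if Bad x (fun i => y (i.castLE hj)) then (1 : ℝ) else 0) := by
        apply mul_nonneg hp0
        split_ifs <;> norm_num
      have t2 : 0 ≤ 1 / (10 * ((Fintype.card X : ℝ) * (Fintype.card Y : ℝ) ^ j)) := by
        positivity
      have t3 : 0 ≤ 1 / (20 * η * Fintype.card I) * ∑ i, inc (P i) (avg P) j x y := by
        apply mul_nonneg (by positivity)
        exact Finset.sum_nonneg fun i _ => inc_nonneg hP i j x y
      by_cases hc : 1 / (10 * ((Fintype.card X : ℝ) * (Fintype.card Y : ℝ) ^ j)) ≤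
          (avg P).pr j x y
      · by_cases hbad : Bad x (fun i => y (i.castLE hj))
        · rw [if_pos hbad] at t1 ⊢
          linarith
        · have h3 := hcon x y hc hbad
          have h4 := mul_le_mul_of_nonneg_left h3.le
            (by positivity : 0 ≤ 1 / (20 * η * (Fintype.card I : ℝ)))
          have h5 : 1 / (20 * η * (Fintype.card I : ℝ)) *
              (20 * η * Fintype.card I * (avg P).pr j x y) = (avg P).pr j x y := by
            field_simp
          rw [h5] at h4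
          linarith
      · rw [not_le] at hc
        linarith
    have hsum := Finset.sum_le_sum fun x (_ : x ∈ (univ : Finset X)) =>
      Finset.sum_le_sum fun y (_ : y ∈ (univ : Finset (Fin j → Y))) => key x y
    rw [Mx.pr_sum hA j] at hsum
    simp only [Finset.sum_add_distrib] at hsum
    have hm := Mx.pr_marg hA hj (fun x y => if Bad x y then (1 : ℝ) else 0)
    have hm' : ∑ x, ∑ y : Fin J0 → Y, (avg P).pr J0 x y * (if Bad x y then (1 : ℝ) else 0) ≤
        1 / 4 := by
      refine le_trans (le_of_eq ?_) hBad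
      refine Finset.sum_congr rfl fun x _ => Finset.sum_congr rfl fun y _ => ?_
      split_ifs <;> simp
    rw [hm] at hsum
    have hc1 : ∑ _x : X, ∑ _y : Fin j → Y,
        1 / (10 * ((Fintype.card X : ℝ) * (Fintype.card Y : ℝ) ^ j)) = 1 / 10 := by
      rw [Finset.sum_const, Finset.sum_const, Finset.card_univ, Finset.card_univ,
        Fintype.card_fun, Fintype.card_fin]
      simp only [nsmul_eq_mul]
      push_cast
      field_simp
    rw [hc1] at hsum
    have hc2 : ∑ x, ∑ y : Fin j → Y, 1 / (20 * η * (Fintype.card I : ℝ)) *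
        ∑ i, inc (P i) (avg P) j x y ≤ 1 / 10 := by
      have e1 : ∑ x, ∑ y : Fin j → Y, 1 / (20 * η * (Fintype.card I : ℝ)) *
          ∑ i, inc (P i) (avg P) j x y = 1 / (20 * η * (Fintype.card I : ℝ)) *
          ∑ i, (kl (P i) (avg P) (j + 1) - kl (P i) (avg P) j) := by
        rw [Finset.mul_sum, Finset.sum_congr rfl fun i _ =>
          congrArg _ (sum_inc (P i) (avg P) j).symm]
        simp only [Finset.mul_sum]
        rw [Finset.sum_congr rfl fun x _ => Finset.sum_comm, Finset.sum_comm]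
      rw [e1]
      have h6 := mul_le_mul_of_nonneg_left hD
        (by positivity : 0 ≤ 1 / (20 * η * (Fintype.card I : ℝ)))
      have h7 : 1 / (20 * η * (Fintype.card I : ℝ)) * (Fintype.card I * (2 * η)) = 1 / 10 := by
        field_simp
        norm_num
      rw [h7] at h6
      exact h6
    linarith
  refine ⟨j, hj, x, y, hj2, hp, hb, ?_⟩
  obtain ⟨p0, hp0⟩ : ∃ p0, p0 = (avg P).pr j x y := ⟨_, rfl⟩
  have hp0pos : 0 < p0 := by
    rw [hp0]
    exact lt_of_lt_of_le (by positivity) hp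
  obtain ⟨g, hg⟩ : ∃ g : I → ℝ, g = fun i => ∑ z ∈ zb (P i) (avg P) j x y,
      (avg P).pr (j + 1) x (Fin.snoc y z) := ⟨_, rfl⟩
  have hg0 : ∀ i, 0 ≤ g i := by
    intro i
    rw [hg]
    exact Finset.sum_nonneg fun z _ => Mx.pr_nonneg hA _ _ _
  have hpi0 : ∀ i, 0 ≤ (P i).pr j x y := fun i => Mx.pr_nonneg (hP i) _ _ _
  have hsumP : ∑ i, (P i).pr j x y = Fintype.card I * p0 := by
    rw [hp0, pr_avg]
    field_simp
  have hgs : ∑ i, (P i).pr j x y * g i ≤ 140 * η * Fintype.card I * p0 ^ 2 := by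
    calc ∑ i, (P i).pr j x y * g i ≤ ∑ i, 7 * p0 * inc (P i) (avg P) j x y := by
          refine Finset.sum_le_sum fun i _ => ?_
          rw [hg, hp0]
          exact zb_le hP i j x y
      _ = 7 * p0 * ∑ i, inc (P i) (avg P) j x y := by rw [Finset.mul_sum]
      _ ≤ 7 * p0 * (20 * η * Fintype.card I * p0) := by
          rw [← hp0] at hi
          exact mul_le_mul_of_nonneg_left hi (by positivity)
      _ = 140 * η * Fintype.card I * p0 ^ 2 := by ring
  refine ⟨univ.filter fun i => p0 / 4 ≤ (P i).pr j x y ∧ g i ≤ p0 / 100, ?_, ?_⟩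
  swap
  · intro i hi'
    rw [Finset.mem_filter] at hi'
    rw [hg, hp0] at hi'
    exact hi'.2
  have hpt : ∀ i, (P i).pr j x y ≤
      (if p0 / 4 ≤ (P i).pr j x y ∧ g i ≤ p0 / 100 then (P i).pr j x y else 0) + p0 / 4 +
        100 / p0 * ((P i).pr j x y * g i) := by
    intro i
    have h1 : 0 ≤ 100 / p0 * ((P i).pr j x y * g i) :=
      mul_nonneg (by positivity) (mul_nonneg (hpi0 i) (hg0 i))
    by_cases hc : p0 / 4 ≤ (P i).pr j x y ∧ g i ≤ p0 / 100
    · rw [if_pos hc]
      linarith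
    · rw [if_neg hc]
      rw [not_and_or, not_le, not_le] at hc
      rcases hc with hc | hc
      · linarith
      · have h2 : (P i).pr j x y * (p0 / 100) ≤ (P i).pr j x y * g i :=
          mul_le_mul_of_nonneg_left hc.le (hpi0 i)
        have h3 := mul_le_mul_of_nonneg_left h2 (by positivity : 0 ≤ 100 / p0)
        have h4 : 100 / p0 * ((P i).pr j x y * (p0 / 100)) = (P i).pr j x y := by
          field_simp
        rw [h4] at h3
        linarith
  have hs1 := Finset.sum_le_sum fun i (_ : i ∈ (univ : Finset I)) => hpt i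
  rw [Finset.sum_add_distrib, Finset.sum_add_distrib, hsumP, ← Finset.mul_sum,
    Finset.sum_const, Finset.card_univ, nsmul_eq_mul, ← Finset.sum_filter] at hs1
  have hs2 : 100 / p0 * ∑ i, (P i).pr j x y * g i ≤ 5 / 8 * (Fintype.card I * p0) := by
    have h1 := mul_le_mul_of_nonneg_left hgs (by positivity : 0 ≤ 100 / p0)
    have h2 : 100 / p0 * (140 * η * Fintype.card I * p0 ^ 2) =
        (14000 * η) * (Fintype.card I * p0) := by
      field_simp
      ring
    rw [h2] at h1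
    refine h1.trans ?_
    apply mul_le_mul_of_nonneg_right _ (by positivity)
    linarith
  have hle : ∀ i, (P i).pr j x y ≤
      1 / (s * q ^ (2 * J0)) * (1 / ((Fintype.card X : ℝ) * (Fintype.card Y : ℝ) ^ j)) := by
    intro i
    refine (Mx.pr_le (hP i) (hf i) (hx i) j x y).trans ?_
    have h1 : (1 / s) / (Fintype.card X : ℝ) * ((1 / q) / (Fintype.card Y : ℝ)) ^ j =
        1 / (s * q ^ j) * (1 / ((Fintype.card X : ℝ) * (Fintype.card Y : ℝ) ^ j)) := by
      rw [div_pow, div_pow, one_pow]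
      field_simp
    rw [h1]
    apply mul_le_mul_of_nonneg_right _ (by positivity)
    apply one_div_le_one_div_of_le (by positivity)
    apply mul_le_mul_of_nonneg_left _ hs.le
    exact pow_le_pow_of_le_one hq.le hq1 hj2.le
  have hs3 : ∑ i ∈ univ.filter (fun i => p0 / 4 ≤ (P i).pr j x y ∧ g i ≤ p0 / 100),
      (P i).pr j x y ≤ (univ.filter fun i => p0 / 4 ≤ (P i).pr j x y ∧
        g i ≤ p0 / 100).card * (1 / (s * q ^ (2 * J0)) *
          (1 / ((Fintype.card X : ℝ) * (Fintype.card Y : ℝ) ^ j))) := by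
    rw [← nsmul_eq_mul]
    exact Finset.sum_le_card_nsmul _ _ _ fun i _ => hle i
  obtain ⟨M, hM⟩ : ∃ M : ℝ, M = ((univ.filter fun i => p0 / 4 ≤ (P i).pr j x y ∧
        g i ≤ p0 / 100).card : ℝ) := ⟨_, rfl⟩
  rw [← hM] at hs3 ⊢
  obtain ⟨u, hu⟩ : ∃ u : ℝ, u = 1 / ((Fintype.card X : ℝ) * (Fintype.card Y : ℝ) ^ j) := ⟨_, rfl⟩
  have hupos : 0 < u := by rw [hu]; positivity
  have hpu : u / 10 ≤ p0 := by
    rw [hp0, hu]
    refine le_trans (le_of_eq ?_) hp
    field_simp
  rw [← hu] at hs3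
  have hs4 : Fintype.card I * p0 / 8 ≤ M * (1 / (s * q ^ (2 * J0)) * u) := by linarith
  have hs5 : (Fintype.card I : ℝ) * u ≤ (80 / (s * q ^ (2 * J0)) * M) * u := by
    have h1 : (Fintype.card I : ℝ) * (u / 10) ≤ Fintype.card I * p0 :=
      mul_le_mul_of_nonneg_left hpu hN.le
    have h2 : (80 / (s * q ^ (2 * J0)) * M) * u = 80 * (M * (1 / (s * q ^ (2 * J0)) * u)) := by
      ring
    rw [h2]
    linarith
  exact le_of_mul_le_mul_right hs5 hupos

end Pool.Agent.NST
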