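import Pool.Agent.NST.PrAll
import Pool.Agent.NST.Supply
import Pool.Agent.NST.PlayEnd
import Pool.Agent.NST.Desc

/-!
# NST/Win: every requirement can be met

* `play`: induction on `t`. `t = 0`: `out_win` with `N = Nb T0 n0 c` (`Nb.subset`,
  `c ≤ c2`). Step: the game names `T1, n1, π, N`; `supply` (at `T1, n1`; `T1 ∈ Nb T0 n0 c2` by
  `Nb.subset`) gives the answer `T2, n2, m2, FDecM E Φ m N m2`; `inv2_step`.
* `winM_of_viable`. By contradiction: `opt_exists` (`ε = 1 / 50000`) gives `T1, m1, c1`; there is no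
  win on `Nb T1 m1 c1 ⊆ Nb T0 m0 c0`. Let `c2 = (c1 + M T1) / 2` and `d` with `1 / 2 ^ d ≤ c2 - c1`;
  `pr_all` gives `AA` (nonempty) and `PrS F T1 m1 c1 c2 AA (l + 1)`. Let `M0` with
  `(1 - 1 / card AA) ^ M0 < 1 / 2` (`exists_pow_lt_of_lt_one`). Round 0 at `T1, m1`
  (`Nb.self`); `supply` with `m = 0`, `M0` gives the answer `T2, n2, m2, FDecM E Φ 0 M0 m2`. `Inv2` for
  `h = []`: `dec` is part of `DecM`, `root` is `DecM` for `σ = []` (`Perfect.nil`), `grow` is trivial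
  (`Grow S [_] = True`). Then `play`.
-/

set_option autoImplicit false

namespace Pool.Agent.NST

open Finset Pool.Agent.PTree Pool.Agent.OSM
open scoped Classical

variable {l : ℕ}

theorem play {E : Set (PG l)} {Φ : PG l → StrSet} (hreq : ReqM E Φ) {F : MF l} {T0 : StrSet}
    {n0 : ℕ} {c c2 : ℝ} (hc : c ≤ c2) (hw : ¬ WinM E F (Nb T0 n0 c)) {AA : Type} [Fintype AA]
    [Nonempty AA] {M0 : ℕ} (hM0 : (1 - 1 / (Fintype.card AA : ℝ)) ^ M0 < 1 / 2) (e0 : Ent l)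
    (t : ℕ) : ∀ (h : List (Ent l)) (T : StrSet) (n m : ℕ), Inv2 E Φ M0 e0 h n m →
      T ∈ Nb T0 n0 c2 → n0 ≤ n → ¬ Rnd F c c2 AA e0 t h T n m := by
  induction t with
  | zero =>
    intro h T n m hI hT hn hO
    exact hw (out_win hreq hI hM0 hO (Nb.subset
      ⟨hT.1, hT.2.1, hT.2.2.1, lt_of_le_of_lt hc hT.2.2.2⟩ hn le_rfl))
  | succ t ih =>
    intro h T n m hI hT hn hR
    obtain ⟨T1, n1, h1, h2, π, N, h3⟩ := hR
    have hT1 : T1 ∈ Nb T0 n0 c2 := Nb.subset hT hn le_rfl h1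
    obtain ⟨T2, n2, m2, h4, h5, h6, h7, h8⟩ := supply hreq hc hw hT1 (hn.trans h2) m N π
    exact ih _ T2 n2 m2 (inv2_step hreq hI (h2.trans h5) h6 N)
      (Nb.subset hT1 (hn.trans h2) le_rfl h4) (hn.trans (h2.trans h5)) (h3 T2 n2 m2 _ h4 h5 h6 h7 h8)

theorem winM_of_viable {E : Set (PG l)} {Φ : PG l → StrSet} (hreq : ReqM E Φ) {F : MF l}
    {T0 : StrSet} {m0 : ℕ} {c0 : ℝ} (hT : IsTree T0) (hc : c0 < M T0)
    (hv : Viable l F (Nb T0 m0 c0)) : WinM E F (Nb T0 m0 c0) := by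
  by_contra hw
  obtain ⟨T1, m1, c1, h1, h2, h3, h4, h5⟩ := opt_exists (ε := 1 / 50000) (by norm_num) F hT hc hv
  have hsub : Nb T1 m1 c1 ⊆ Nb T0 m0 c0 := Nb.subset h1 h2 h3
  have hw1 : ¬ WinM E F (Nb T1 m1 c1) := fun ⟨F', T2, m2, c2, a1, a2, a3, a4, a5, a6⟩ =>
    hw ⟨F', T2, m2, c2, a1, a2, a3, a4.trans hsub, a5, a6⟩
  obtain ⟨c2, hc2⟩ : ∃ c2, c2 = (c1 + M T1) / 2 := ⟨_, rfl⟩
  have hc12 : c1 < c2 := by rw [hc2]; linarith
  have hc2M : c2 < M T1 := by rw [hc2]; linarith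
  obtain ⟨d, hd⟩ : ∃ d : ℕ, (1 / 2 : ℝ) ^ d < c2 - c1 :=
    exists_pow_lt_of_lt_one (by linarith) (by norm_num)
  have hd' : 1 / 2 ^ d ≤ c2 - c1 := by
    rw [← one_div_pow]
    exact hd.le
  obtain ⟨AA, i1, i2, hcard, hPr⟩ := pr_all hd' h5
  have hne : Nonempty AA := by
    rw [← Fintype.card_pos_iff, hcard]
    positivity
  have hq : (0 : ℝ) < Fintype.card AA := by exact_mod_cast Fintype.card_pos
  obtain ⟨M0, hM0⟩ : ∃ M0 : ℕ, (1 - 1 / (Fintype.card AA : ℝ)) ^ M0 < 1 / 2 :=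
    exists_pow_lt_of_lt_one (by norm_num) (by
      have : 0 < 1 / (Fintype.card AA : ℝ) := by positivity
      linarith)
  have hself : T1 ∈ Nb T1 m1 c2 := Nb.self h1.1 m1 hc2M
  obtain ⟨T2, n2, b1, b2, π, b3⟩ := hPr T1 m1 hself le_rfl
  obtain ⟨T3, n3, m3, b4, b5, _, b7, b8⟩ := supply hreq hc12.le hw1 b1 b2 0 M0 π
  have hT3 : T3 ∈ Nb T1 m1 c2 := Nb.subset b1 b2 le_rfl b4
  refine play hreq hc12.le hw1 hM0 ⟨n3, m3, 0, FDecM E Φ 0 M0 m3⟩ (l + 1) [] T3 n3 m3 ?_ hT3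
    (b2.trans b5) (b3 T3 n3 m3 _ b4 b5 b7 b8)
  refine ⟨?_, le_rfl, ⟨0, rfl⟩, ?_, ?_, ?_⟩
  · intro e he
    rw [List.mem_singleton.1 he]
  · intro T γ hA
    exact (hA _ (List.mem_singleton.2 rfl)).1
  · intro T γ hA p hp
    exact (hA _ (List.mem_singleton.2 rfl)).2 p hp [] rfl (hreq.perf p hp.1).1.nil
  · intro T γ hA p hp m' hm'
    exact True.intro

theorem win {F : MF l} {T0 : StrSet} {m0 : ℕ} {c0 : ℝ} (hT : IsTree T0)
    (hc : c0 < M T0) (hv : Viable l F (Nb T0 m0 c0)) (E : Set (PG l)) (Φ : PG l → StrSet)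
    (hΦ : ContinuousOn Φ E) :
    ∃ (F' : MF l) (T1 : StrSet) (m1 : ℕ) (c1 : ℝ), F.Le F' ∧ T1 ∈ Nb T0 m0 c0 ∧ m0 ≤ m1 ∧
      c0 ≤ c1 ∧ c1 < M T1 ∧ Viable l F' (Nb T1 m1 c1) ∧
      ∀ T ∈ Nb T1 m1 c1, ∀ G : Pt, (∀ n, ¬ F'.bad n T G) → (T, fun c : Fin l => G c) ∈ E →
        ¬ (Perfect (Φ (T, fun c : Fin l => G c)) ∧ Sub (Φ (T, fun c : Fin l => G c)) T) := by
  obtain ⟨F', T1, m1, c1, h1, h2, h3, h4, h5, h6⟩ :=
    winM_of_viable (reqM_of_continuousOn hΦ) hT hc hv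
  have hT1 : T1 ∈ Nb T0 m0 c0 := h4 (Nb.self h2 m1 h3)
  have hc0 : c0 < M T1 := hT1.2.2.2
  have hsub : Nb T1 (max m0 m1) (max c0 c1) ⊆ Nb T1 m1 c1 :=
    Nb.subset (Nb.self h2 m1 h3) (le_max_right _ _) (le_max_right _ _)
  refine ⟨F', T1, max m0 m1, max c0 c1, h1, hT1, le_max_left _ _, le_max_left _ _,
    max_lt hc0 h3, ?_, ?_⟩
  · obtain ⟨π, hπ⟩ := h5
    exact ⟨π, fun T hT' => hπ T (hsub hT')⟩
  · intro T hT' G hG hE hcon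
    exact h6 T (hsub hT') G hG ⟨hE, hcon⟩

end Pool.Agent.NST
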